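import Pool.Agent.H17.QM.Flip

/-!
# Resampling one coordinate of a product of finite groups
-/

set_option autoImplicit false

namespace Pool.Agent.H17.QM

open MeasureTheory

section

variable {ι : Type*} [DecidableEq ι] (G : ι → Type) [∀ i, Group (G i)] [∀ i, Fintype (G i)]
  [∀ i, MeasurableSpace (G i)] [∀ i, MeasurableSingletonClass (G i)]

/-- Independent uniformly distributed elements of the finite groups `G i`. -/
noncomputable def unifPi : Measure (∀ i, G i) := Measure.infinitePi fun i => unif (G i)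

instance : IsProbabilityMeasure (unifPi G) := by unfold unifPi; infer_instance

lemma measurePreserving_mul (ρ : ∀ i, G i) :
    MeasurePreserving (fun (ω : ∀ i, G i) => ρ * ω) (unifPi G) (unifPi G) := by
  have hm : ∀ i, Measurable fun b : G i => ρ i * b := fun i => measurable_of_finite _
  refine ⟨measurable_pi_lambda _ fun i => (hm i).comp (measurable_pi_apply i), ?_⟩
  have := Measure.infinitePi_map_pi (μ := fun i => unif (G i)) hm
  unfold unifPi
  rw [show (fun (ω : ∀ i, G i) => ρ * ω) = fun (ω : ∀ i, G i) (i : ι) => ρ i * ω i from rfl, this]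
  congr 1
  funext i
  exact map_unif (G i) (Equiv.mulLeft (ρ i))

theorem resampleG (x : ι) {F : (∀ i, G i) → ℝ} (hF : Integrable F (unifPi G)) :
    (Fintype.card (G x) : ℝ) * ∫ ω, F ω ∂(unifPi G) =
      ∫ ω, ∑ ρ : G x, F (Function.update ω x ρ) ∂(unifPi G) := by
  have h1 : ∀ ρ : G x, ∫ ω, F (Function.update (1 : ∀ i, G i) x ρ * ω) ∂(unifPi G) =
      ∫ ω, F ω ∂(unifPi G) := by
    intro ρ
    have hp := measurePreserving_mul G (Function.update (1 : ∀ i, G i) x ρ)
    have := integral_map (μ := unifPi G) hp.measurable.aemeasurable (f := F)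
      (by rw [hp.map_eq]; exact hF.aestronglyMeasurable)
    rw [hp.map_eq] at this
    exact this.symm
  have h2 : ∀ ρ : G x, Integrable
      (fun ω => F (Function.update (1 : ∀ i, G i) x ρ * ω)) (unifPi G) := fun ρ =>
    (measurePreserving_mul G _).integrable_comp_of_integrable hF
  have h3 : ∀ ω : (∀ i, G i), ∑ ρ : G x, F (Function.update (1 : ∀ i, G i) x ρ * ω) =
      ∑ ρ : G x, F (Function.update ω x ρ) := by
    intro ω
    rw [← Equiv.sum_comp (Equiv.mulRight (ω x)) fun ρ => F (Function.update ω x ρ)]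
    refine Finset.sum_congr rfl fun ρ _ => ?_
    congr 1
    funext i
    by_cases hi : i = x
    · subst hi
      simp
    · simp [Function.update_of_ne hi]
  calc (Fintype.card (G x) : ℝ) * ∫ ω, F ω ∂(unifPi G)
      = ∑ ρ : G x, ∫ ω, F (Function.update (1 : ∀ i, G i) x ρ * ω) ∂(unifPi G) := by
        simp only [h1, Finset.sum_const, Finset.card_univ, nsmul_eq_mul]
    _ = ∫ ω, ∑ ρ : G x, F (Function.update (1 : ∀ i, G i) x ρ * ω) ∂(unifPi G) :=
        (integral_finsetSum _ fun ρ _ => h2 ρ).symm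
    _ = _ := by simp only [h3]

omit [DecidableEq ι] in
/-- A function that changes little under the involutions `τ s` is almost uncorrelated with a sign
that they change. -/
lemma sum_toggle {P S : Type} [Fintype P] [Fintype S] [Nonempty S] (τ : S → P → P)
    (hτ : ∀ s π, τ s (τ s π) = π) (sg : P → ℝ) (hsg : ∀ s π, sg (τ s π) = -sg π)
    (hsg1 : ∀ π, |sg π| ≤ 1) (f : P → ℝ) {ε : ℝ}
    (hvar : ∑ π, ∑ s, |f (τ s π) - f π| ≤ ε * Fintype.card S * Fintype.card P) :
    |∑ π, f π * sg π| ≤ ε * Fintype.card P := by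
  have hS : (0 : ℝ) < Fintype.card S := by exact_mod_cast Fintype.card_pos
  have h1 : ∀ s, ∑ π, f π * sg π = -∑ π, f (τ s π) * sg π := by
    intro s
    have hinv : Function.Involutive (τ s) := hτ s
    rw [← Equiv.sum_comp (hinv.toPerm _) fun π => f π * sg π, ← Finset.sum_neg_distrib]
    refine Finset.sum_congr rfl fun π _ => ?_
    change f (τ s π) * sg (τ s π) = _
    rw [hsg]; ring
  have h2 : (Fintype.card S : ℝ) * (2 * ∑ π, f π * sg π) =
      ∑ s : S, ∑ π, (f π - f (τ s π)) * sg π := by
    have : ∀ s : S, ∑ π, (f π - f (τ s π)) * sg π = 2 * ∑ π, f π * sg π := by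
      intro s
      have e : ∑ π, (f π - f (τ s π)) * sg π = ∑ π, f π * sg π - ∑ π, f (τ s π) * sg π := by
        rw [← Finset.sum_sub_distrib]
        exact Finset.sum_congr rfl fun π _ => by ring
      rw [e]
      linarith [h1 s]
    simp only [this, Finset.sum_const, Finset.card_univ, nsmul_eq_mul]
  have h3 : (Fintype.card S : ℝ) * (2 * |∑ π, f π * sg π|) ≤
      ε * Fintype.card S * Fintype.card P := by
    have e : (Fintype.card S : ℝ) * (2 * |∑ π, f π * sg π|) =
        |(Fintype.card S : ℝ) * (2 * ∑ π, f π * sg π)| := by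
      rw [abs_mul, abs_mul, abs_of_pos hS]; norm_num
    rw [e, h2, Finset.sum_comm]
    refine ((Finset.abs_sum_le_sum_abs _ _).trans (Finset.sum_le_sum fun π _ =>
      (Finset.abs_sum_le_sum_abs _ _).trans (Finset.sum_le_sum fun s _ => ?_))).trans hvar
    rw [abs_mul, abs_sub_comm]
    exact mul_le_of_le_one_right (abs_nonneg _) (hsg1 π)
  have h4 : 0 ≤ (Fintype.card S : ℝ) * |∑ π, f π * sg π| := by positivity
  have h5 : (Fintype.card S : ℝ) * |∑ π, f π * sg π| ≤
      (Fintype.card S : ℝ) * (ε * Fintype.card P) := by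
    linarith
  exact le_of_mul_le_mul_left h5 hS

/-- The signed integral over one coordinate. -/
theorem blockG_signed (x : ι) {S : Type} [Fintype S] [Nonempty S] (τ : S → G x → G x)
    (hτ : ∀ s π, τ s (τ s π) = π) {f sg : (∀ i, G i) → ℝ} (hf : Measurable f)
    (hsgm : Measurable sg) {B ε : ℝ} (hfB : ∀ ω, |f ω| ≤ B)
    (hsg : ∀ ω s π, sg (Function.update ω x (τ s π)) = -sg (Function.update ω x π))
    (hsg1 : ∀ ω, |sg ω| ≤ 1)
    (hvar : ∀ ω, ∑ π, ∑ s, |f (Function.update ω x (τ s π)) - f (Function.update ω x π)| ≤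
      ε * Fintype.card S * Fintype.card (G x)) :
    |∫ ω, f ω * sg ω ∂(unifPi G)| ≤ ε := by
  set N : ℝ := (Fintype.card (G x) : ℝ) with hN
  have hNpos : 0 < N := by
    rw [hN]
    exact_mod_cast Fintype.card_pos
  have hB0 : 0 ≤ B := (abs_nonneg _).trans (hfB fun _ => 1)
  have hfi : Integrable (fun ω => f ω * sg ω) (unifPi G) := by
    refine Integrable.of_bound (hf.mul hsgm).aestronglyMeasurable B (ae_of_all _ fun ω => ?_)
    rw [Real.norm_eq_abs, abs_mul]
    calc |f ω| * |sg ω| ≤ B * 1 := mul_le_mul (hfB ω) (hsg1 ω) (abs_nonneg _) hB0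
      _ = B := mul_one B
  have h1 := resampleG G x hfi
  have h2 : ∀ ω, |∑ π : G x, f (Function.update ω x π) * sg (Function.update ω x π)| ≤ ε * N :=
    fun ω => sum_toggle τ hτ (fun π => sg (Function.update ω x π)) (fun s π => hsg ω s π)
      (fun π => hsg1 _) (fun π => f (Function.update ω x π)) (hvar ω)
  have h3 : |N * ∫ ω, f ω * sg ω ∂(unifPi G)| ≤ ε * N := by
    rw [h1]
    have := norm_integral_le_of_norm_le_const (μ := unifPi G)
      (f := fun ω => ∑ π : G x, f (Function.update ω x π) * sg (Function.update ω x π))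
      (C := ε * N) (ae_of_all _ fun ω => by rw [Real.norm_eq_abs]; exact h2 ω)
    simpa [Real.norm_eq_abs] using this
  rw [abs_mul, abs_of_pos hNpos, mul_comm] at h3
  exact le_of_mul_le_mul_right h3 hNpos

end

end Pool.Agent.H17.QM
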