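import Pool.Agent.H17.QM.Common
import Pool.Agent.H17.QM.PermBlock

/-!
# No quantum betting strategy succeeds on the UP ∩ coUP language of a random permutation
-/

set_option autoImplicit false

namespace Pool.Agent.H17.QM

open MeasureTheory Filter

instance (m : ℕ) : MeasurableSingletonClass (PermT m) := ⟨fun _ => trivial⟩

/-! ### Moving the preimage of zero -/

section Move

variable {h : ℕ}

/-- Flip the first bit and add the mask `s` to the other bits. -/
def mv (s : Fin (2 * h) → Bool) (z : Fin (2 * h + 1) → Bool) : Fin (2 * h + 1) → Bool :=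
  fun i => Bool.xor ((Fin.cons true s : Fin (2 * h + 1) → Bool) i) (z i)

lemma mv_mv (s : Fin (2 * h) → Bool) (z : Fin (2 * h + 1) → Bool) : mv s (mv s z) = z := by
  funext i
  simp [mv]

lemma mv_zero (s : Fin (2 * h) → Bool) (z : Fin (2 * h + 1) → Bool) : mv s z 0 = !(z 0) := by
  simp [mv]

lemma mv_injective (z : Fin (2 * h + 1) → Bool) : Function.Injective fun s => mv s z := by
  intro s s' hs
  funext i
  have := congrFun hs i.succ
  simpa [mv] using this

/-- Swap the preimage of zero with the string obtained from it by `mv s`. -/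
def tau (s : Fin (2 * h) → Bool) (π : PermT (2 * h + 1)) : PermT (2 * h + 1) :=
  (Equiv.swap (loc π) (mv s (loc π))).trans π

lemma tau_apply (s : Fin (2 * h) → Bool) (π : PermT (2 * h + 1)) (z : Fin (2 * h + 1) → Bool) :
    tau s π z = π (Equiv.swap (loc π) (mv s (loc π)) z) := rfl

lemma loc_tau (s : Fin (2 * h) → Bool) (π : PermT (2 * h + 1)) :
    loc (tau s π) = mv s (loc π) := by
  unfold loc
  rw [Equiv.symm_apply_eq, tau_apply]
  unfold loc
  rw [Equiv.swap_apply_right, Equiv.apply_symm_apply]

lemma tau_tau (s : Fin (2 * h) → Bool) (π : PermT (2 * h + 1)) : tau s (tau s π) = π := by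
  refine Equiv.ext fun z => ?_
  rw [tau_apply, loc_tau, mv_mv, tau_apply, Equiv.swap_comm (mv s (loc π)), Equiv.swap_apply_self]

lemma tau_eq (s : Fin (2 * h) → Bool) (π : PermT (2 * h + 1)) (z : Fin (2 * h + 1) → Bool)
    (h1 : z ≠ loc π) (h2 : z ≠ loc (tau s π)) :
    tau s π z = π z := by
  rw [tau_apply, Equiv.swap_apply_of_ne_of_ne h1]
  rwa [← loc_tau]

end Move

/-! ### The oracle -/

lemma norm_php {t : ℕ → ℕ} (π : POracle t) (q : PQuery t) : ‖php π q‖ = 1 := by
  unfold php
  rw [norm_prod]
  refine Finset.prod_eq_one fun i _ => ?_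
  split_ifs <;> simp

/-- The row of a query in the block of `x`. -/
noncomputable def prow {t : ℕ → ℕ} (x : List Bool) (q : PQuery t) :
    Option (Fin (plen t x.length) → Bool) := by
  classical
  exact if h : q.1 = x then some (h ▸ q.2.1) else none

lemma prow_self {t : ℕ → ℕ} (x : List Bool) (z c : Fin (plen t x.length) → Bool) :
    prow (t := t) x ⟨x, (z, c)⟩ = some z := by
  simp [prow]

lemma php_update_ne {t : ℕ → ℕ} (π : POracle t) (x : List Bool) (ρ : PermT (plen t x.length))
    (q : PQuery t) (h : q.1 ≠ x) : php (Function.update π x ρ) q = php π q := by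
  unfold php
  rw [Function.update_of_ne h]

lemma php_update_self {t : ℕ → ℕ} (π : POracle t) (x : List Bool) (ρ : PermT (plen t x.length))
    (z c : Fin (plen t x.length) → Bool) :
    php (Function.update π x ρ) (⟨x, (z, c)⟩ : PQuery t) =
      ∏ i, if c i = true ∧ ρ z i = true then -1 else 1 := by
  unfold php
  rw [Function.update_self]

lemma php_diff {t : ℕ → ℕ} (π : POracle t) (x : List Bool)
    (s : Fin (2 * (t x.length + 8 * x.length)) → Bool) (ρ : PermT (plen t x.length))
    (q : PQuery t)
    (hne : php (Function.update π x (tau s ρ)) q ≠ php (Function.update π x ρ) q) :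
    prow x q = some (loc ρ) ∨ prow x q = some (loc (tau s ρ)) := by
  obtain ⟨x', z, c⟩ := q
  by_cases hx : x' = x
  · subst hx
    rw [prow_self]
    by_contra hcon
    push Not at hcon
    apply hne
    rw [php_update_self, php_update_self]
    have h1 : z ≠ loc ρ := fun h => hcon.1 (by rw [h])
    have h2 : z ≠ loc (tau s ρ) := fun h => hcon.2 (by rw [h])
    rw [tau_eq s ρ z h1 h2]
  · exact absurd (by rw [php_update_ne _ _ _ _ hx, php_update_ne _ _ _ _ hx]) hne

lemma measurable_pprob {t : ℕ → ℕ} (Q : QAlg (PQuery t)) :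
    Measurable fun π : POracle t => Q.prob (php π) := by
  classical
  let S : Finset (List Bool) := Finset.univ.biUnion fun i : Fin Q.dim =>
    ((Q.query i).map Sigma.fst).toFinset
  let r : POracle t → (∀ x : S, PermT (plen t (x : List Bool).length)) := fun π x => π x
  let b : (∀ x : S, PermT (plen t (x : List Bool).length)) → POracle t := fun η x =>
    if h : x ∈ S then η ⟨x, h⟩ else 1
  have hr : Measurable r := measurable_pi_lambda _ fun s => measurable_pi_apply _
  have e : (fun π : POracle t => Q.prob (php π)) = (fun η => Q.prob (php (b η))) ∘ r := by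
    funext π
    refine Q.prob_congr fun i s hs => ?_
    have hsS : s.1 ∈ S := by
      simp only [S, Finset.mem_biUnion, Finset.mem_univ, true_and]
      exact ⟨i, by simp [hs]⟩
    have hb : b (r π) s.1 = π s.1 := by simp only [b, r, hsS, dif_pos]
    change php π s = php (b (r π)) s
    unfold php
    rw [hb]
  rw [e]
  exact (measurable_of_finite _).comp hr

lemma measurableSet_plang (t : ℕ → ℕ) (x : List Bool) :
    MeasurableSet {π : POracle t | x ∈ plang t π} := by
  have : {π : POracle t | x ∈ plang t π} = (fun π : POracle t => π x) ⁻¹'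
      {ρ | loc ρ (0 : Fin (2 * (t x.length + 8 * x.length) + 1)) = true} := rfl
  rw [this]
  exact (measurable_pi_apply x) trivial

lemma permOracle_eq (t : ℕ → ℕ) :
    permOracle t = unifPi fun x : List Bool => PermT (plen t x.length) := rfl

/-- The numerical estimate. -/
lemma peps_le (t : ℕ → ℕ) (C : ℕ) (x : List Bool) {Λ : ℝ} (hΛ : 0 ≤ Λ) :
    ((rk x : ℝ) + 1) * (Λ * ((1 / 16 : ℝ) ^ x.length + 8 * ((C : ℝ) * 2 ^ t x.length) /
      2 ^ (t x.length + 8 * x.length) / (1 / 16 : ℝ) ^ x.length)) ≤
      16 * Λ * (1 + 8 * (C : ℝ)) / ((rk x : ℝ) + 1) ^ 3 := by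
  set n := x.length with hn
  have hm : (2 : ℝ) ^ (t n + 8 * n) = (2 : ℝ) ^ t n * ((16 : ℝ) ^ n) ^ 2 := by
    rw [pow_add, pow_mul]
    have : ((2 : ℝ) ^ 8) ^ n = ((16 : ℝ) ^ n) ^ 2 := by
      rw [pow_right_comm (16 : ℝ) n 2]; norm_num
    rw [this]
  have h16 : (0 : ℝ) < 16 ^ n := by positivity
  have h2t : (0 : ℝ) < 2 ^ t n := by positivity
  have hinv : (1 / 16 : ℝ) ^ n = 1 / 16 ^ n := by rw [one_div_pow]
  have hsecond : 8 * ((C : ℝ) * 2 ^ t n) / 2 ^ (t n + 8 * n) / (1 / 16 : ℝ) ^ n =
      8 * (C : ℝ) * (1 / 16 ^ n) := by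
    rw [hinv, hm]
    field_simp
  have hN0 : (0 : ℝ) < (rk x : ℝ) + 1 := by positivity
  have h4 : (1 : ℝ) / 16 ^ n ≤ 16 / ((rk x : ℝ) + 1) ^ 4 := one_div_le x
  rw [hsecond, hinv]
  calc ((rk x : ℝ) + 1) * (Λ * (1 / 16 ^ n + 8 * (C : ℝ) * (1 / 16 ^ n)))
      = ((rk x : ℝ) + 1) * (Λ * (1 + 8 * (C : ℝ))) * (1 / 16 ^ n) := by ring
    _ ≤ ((rk x : ℝ) + 1) * (Λ * (1 + 8 * (C : ℝ))) * (16 / ((rk x : ℝ) + 1) ^ 4) := by
        gcongr
    _ = 16 * Λ * (1 + 8 * (C : ℝ)) / ((rk x : ℝ) + 1) ^ 3 := by
        field_simp

/-- Moving the hidden item is not noticed on average. -/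
lemma psum_abs_prob {t : ℕ → ℕ} (Q : QAlg (PQuery t)) (ω : POracle t) (x : List Bool) {δ : ℝ}
    (hδ : 0 < δ) {T : ℝ} (hT : (Q.T : ℝ) ≤ T) :
    ∑ π : PermT (plen t x.length), ∑ s : Fin (2 * (t x.length + 8 * x.length)) → Bool,
      |Q.prob (php (Function.update ω x (tau s π))) - Q.prob (php (Function.update ω x π))| ≤
      (δ + 8 * T / 2 ^ (t x.length + 8 * x.length) / δ) *
        (Fintype.card (Fin (2 * (t x.length + 8 * x.length)) → Bool) : ℝ) *
        (Fintype.card (PermT (plen t x.length)) : ℝ) := by
  set h := t x.length + 8 * x.length with hh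
  set L : ℝ := 2 ^ h with hL
  have hL0 : 0 < L := by positivity
  set cS : ℝ := (Fintype.card (Fin (2 * h) → Bool) : ℝ) with hcS
  set cP : ℝ := (Fintype.card (PermT (plen t x.length)) : ℝ) with hcP
  have hcSL : cS = L ^ 2 := by
    rw [hcS, hL]
    simp [pow_mul']
  have hadv := Q.adversary (P := PermT (plen t x.length)) (S := Fin (2 * h) → Bool)
    (Y := Fin (plen t x.length) → Bool)
    (row := prow (t := t) x) (loc := loc) (τ := tau)
    (a := fun π => php (Function.update ω x π)) tau_tau
    (fun π => by
      have : (fun s => loc (tau s π)) = fun s : Fin (2 * h) → Bool => mv s (loc π) := by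
        funext s; exact loc_tau s π
      rw [this]
      exact mv_injective (loc π))
    (fun π k => norm_php _ _) (fun s π k hk => php_diff ω x s π k hk) hL0 hcSL Q.T
  have hpt : ∀ (π : PermT (plen t x.length)) (s : Fin (2 * h) → Bool),
      |Q.prob (php (Function.update ω x (tau s π))) - Q.prob (php (Function.update ω x π))| ≤
      δ + ‖Q.state (php (Function.update ω x (tau s π))) Q.T -
        Q.state (php (Function.update ω x π)) Q.T‖ ^ 2 / δ := by
    intro π s
    have a1 := Q.abs_prob_sub (norm_php (Function.update ω x (tau s π)))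
      (norm_php (Function.update ω x π))
    set D := ‖Q.state (php (Function.update ω x (tau s π))) Q.T -
        Q.state (php (Function.update ω x π)) Q.T‖
    have : 0 ≤ (D - δ) ^ 2 / δ := by positivity
    have e1 : (D - δ) ^ 2 / δ = D ^ 2 / δ - 2 * D + δ := by
      field_simp; ring
    linarith
  calc ∑ π : PermT (plen t x.length), ∑ s : Fin (2 * h) → Bool,
    |Q.prob (php (Function.update ω x (tau s π))) - Q.prob (php (Function.update ω x π))|
      ≤ ∑ π : PermT (plen t x.length), ∑ s : Fin (2 * h) → Bool,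
        (δ + ‖Q.state (php (Function.update ω x (tau s π))) Q.T -
        Q.state (php (Function.update ω x π)) Q.T‖ ^ 2 / δ) :=
        Finset.sum_le_sum fun π _ => Finset.sum_le_sum fun s _ => hpt π s
    _ = δ * cS * cP + (∑ π : PermT (plen t x.length), ∑ s : Fin (2 * h) → Bool,
        ‖Q.state (php (Function.update ω x (tau s π))) Q.T -
        Q.state (php (Function.update ω x π)) Q.T‖ ^ 2) / δ := by
        simp only [Finset.sum_add_distrib, Finset.sum_const, Finset.card_univ, nsmul_eq_mul,
          Finset.sum_div]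
        rw [← hcS, ← hcP]
        ring
    _ ≤ δ * cS * cP + (8 * (Q.T : ℝ) * cP * L) / δ :=
        add_le_add le_rfl (div_le_div_of_nonneg_right hadv hδ.le)
    _ ≤ δ * cS * cP + (8 * T * cP * L) / δ := by
        have hcP0 : 0 ≤ cP := Nat.cast_nonneg _
        gcongr
    _ = (δ + 8 * T / L / δ) * cS * cP := by
        rw [hcSL]; field_simp

lemma mem_plang_update_ne {t : ℕ → ℕ} {x x' : List Bool} (hne : x' ≠ x) (ω : POracle t)
    (ρ : PermT (plen t x.length)) :
    x' ∈ plang t (Function.update ω x ρ) ↔ x' ∈ plang t ω := by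
  unfold plang
  simp only [Set.mem_ofPred_eq, Function.update_of_ne hne]

lemma mem_plang_update_self {t : ℕ → ℕ} (x : List Bool) (ω : POracle t)
    (ρ : PermT (plen t x.length)) :
    x ∈ plang t (Function.update ω x ρ) ↔
      loc ρ (0 : Fin (2 * (t x.length + 8 * x.length) + 1)) = true := by
  unfold plang
  simp only [Set.mem_ofPred_eq, Function.update_self]

theorem perm_single (t : ℕ → ℕ) (ht : Monotone t) (S : Strategy (PQuery t))
    (hT : S.QueryBound t) :
    ∀ᵐ A ∂(permOracle t), ∃ C : ℝ, ∀ N, S.capital (php A) (plang t A) N ≤ C := by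
  rw [permOracle_eq]
  set G : List Bool → Type := fun x => PermT (plen t x.length) with hG
  obtain ⟨C, hC⟩ := hT
  obtain ⟨Λ, hΛ0, hΛ⟩ := S.exists_lip
  set b : ℕ → POracle t → ℝ := fun j ω => S.bet (php ω) (hist (plang t ω) j) with hb
  set s : ℕ → POracle t → ℝ := sgn (plang t) with hs
  have hL : ∀ j, MeasurableSet {ω : POracle t | str j ∈ plang t ω} := fun j =>
    measurableSet_plang t _
  have hbm : ∀ j, Measurable (b j) := fun j =>
    measurable_choice (fun ω => hist (plang t ω) j) (measurableSet_hist hL j)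
      (fun w ω => S.bet (php ω) w)
      (fun w => (S.measurable_g w).comp (measurable_pprob (S.alg w)))
  have hmain := martingale_abstract (μ := unifPi G) b hbm (fun j ω => S.bound _ _) s
    (fun j => measurable_sgn hL j) (fun j ω => sgn_or _ _ _)
    (fun N => 0 / ((N : ℝ) + 1) ^ 2)
    (fun N => 16 * Λ * (1 + 8 * (C : ℝ)) / ((N : ℝ) + 1) ^ 3)
    (fun N => by simp) (fun N => by positivity) (summable_rk 0)
    (summable_eps _ (by positivity)) ?_
  · filter_upwards [hmain] with A hA
    obtain ⟨B, hB⟩ := hA
    refine ⟨B, fun N => ?_⟩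
    rw [capital_eq S php (plang t) N A]
    exact hB N
  · intro N f B K hfm hK0 hfB hfK
    set x := str N with hx
    have hrk : rk x = N := rk_str N
    have hδ : (0 : ℝ) < (1 / 16) ^ x.length := by positivity
    have hmem : ∀ (ω : POracle t) (ρ : G x), ∀ j < N,
        (str j ∈ plang t (Function.update ω x ρ) ↔ str j ∈ plang t ω) := by
      intro ω ρ j hj
      refine mem_plang_update_ne ?_ ω ρ
      intro h
      have : j = N := by rw [← rk_str j, h, hrk]
      omega
    have hhist : ∀ (ω : POracle t) (ρ : G x), ∀ i ≤ N,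
        hist (plang t (Function.update ω x ρ)) i = hist (plang t ω) i := fun ω ρ i hi =>
      hist_congr fun j hj => hmem ω ρ j (lt_of_lt_of_le hj hi)
    have hTi : ∀ ω, ∀ i ≤ N, ((S.alg (hist (plang t ω) i)).T : ℝ) ≤
        (C : ℝ) * 2 ^ t x.length := by
      intro ω i hi
      have h1 := hC (hist (plang t ω) i)
      rw [length_hist] at h1
      have h2 : (str i).length ≤ x.length := by
        apply length_le_of_rk_le
        rw [rk_str, hrk]
        exact hi
      have h3 : C * 2 ^ t (str i).length ≤ C * 2 ^ t x.length :=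
        Nat.mul_le_mul_left _ (Nat.pow_le_pow_right (by norm_num) (ht h2))
      exact_mod_cast h1.trans h3
    have hblock := blockG_signed G x (S := Fin (2 * (t x.length + 8 * x.length)) → Bool) tau
      tau_tau hfm (measurable_sgn hL N) hfB
      (ε := K * (16 * Λ * (1 + 8 * (C : ℝ)) / ((N : ℝ) + 1) ^ 3))
      (fun ω s' π => ?_) (fun ω => ?_) (fun ω => ?_)
    · refine hblock.trans (le_of_eq ?_)
      simp
    · -- the sign changes
      have h0 : (str N ∈ plang t (Function.update ω x (tau s' π))) ↔
          ¬ (str N ∈ plang t (Function.update ω x π)) := by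
        rw [← hx, mem_plang_update_self, mem_plang_update_self, loc_tau, mv_zero]
        simp
      unfold sgn
      by_cases h1 : str N ∈ plang t (Function.update ω x π)
      · rw [if_pos h1, if_neg (fun h => (h0.1 h) h1)]
      · rw [if_neg h1, if_pos (h0.2 h1), neg_neg]
    · rcases sgn_or (plang t) N ω with h | h <;> rw [h] <;> simp
    · -- the variation
      have hfv : ∀ (π : G x) (s' : Fin (2 * (t x.length + 8 * x.length)) → Bool),
          |f (Function.update ω x (tau s' π)) - f (Function.update ω x π)| ≤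
          K * ∑ i ∈ Finset.range (N + 1), Λ *
            |(S.alg (hist (plang t ω) i)).prob (php (Function.update ω x (tau s' π))) -
              (S.alg (hist (plang t ω) i)).prob (php (Function.update ω x π))| := by
        intro π s'
        refine (hfK _ _ fun j hj => ?_).trans (mul_le_mul_of_nonneg_left
          (Finset.sum_le_sum fun i hi => ?_) hK0)
        · exact (sgn_eq_iff _ _ _ _).2 ((hmem ω _ j hj).trans (hmem ω π j hj).symm)
        · have hi' : i ≤ N := Nat.lt_succ_iff.1 (Finset.mem_range.1 hi)
          simp only [hb, Strategy.bet, hhist ω _ i hi']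
          exact hΛ _ _ _
      calc ∑ π : G x, ∑ s' : Fin (2 * (t x.length + 8 * x.length)) → Bool,
          |f (Function.update ω x (tau s' π)) - f (Function.update ω x π)|
          ≤ ∑ π : G x, ∑ s' : Fin (2 * (t x.length + 8 * x.length)) → Bool,
            K * ∑ i ∈ Finset.range (N + 1), Λ *
            |(S.alg (hist (plang t ω) i)).prob (php (Function.update ω x (tau s' π))) -
              (S.alg (hist (plang t ω) i)).prob (php (Function.update ω x π))| :=
            Finset.sum_le_sum fun π _ => Finset.sum_le_sum fun s' _ => hfv π s'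
        _ = K * ∑ i ∈ Finset.range (N + 1), Λ *
            ∑ π : G x, ∑ s' : Fin (2 * (t x.length + 8 * x.length)) → Bool,
            |(S.alg (hist (plang t ω) i)).prob (php (Function.update ω x (tau s' π))) -
              (S.alg (hist (plang t ω) i)).prob (php (Function.update ω x π))| := by
            simp only [Finset.mul_sum]
            rw [Finset.sum_congr rfl fun π _ => Finset.sum_comm]
            rw [Finset.sum_comm]
        _ ≤ K * ∑ _i ∈ Finset.range (N + 1), Λ *
            (((1 / 16 : ℝ) ^ x.length + 8 * ((C : ℝ) * 2 ^ t x.length) /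
              2 ^ (t x.length + 8 * x.length) / (1 / 16 : ℝ) ^ x.length) *
              (Fintype.card (Fin (2 * (t x.length + 8 * x.length)) → Bool) : ℝ) *
              (Fintype.card (PermT (plen t x.length)) : ℝ)) := by
            refine mul_le_mul_of_nonneg_left (Finset.sum_le_sum fun i hi =>
              mul_le_mul_of_nonneg_left ?_ hΛ0) hK0
            exact psum_abs_prob _ ω x hδ (hTi ω i (Nat.lt_succ_iff.1 (Finset.mem_range.1 hi)))
        _ = K * (((N : ℝ) + 1) * (Λ *
            ((1 / 16 : ℝ) ^ x.length + 8 * ((C : ℝ) * 2 ^ t x.length) /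
              2 ^ (t x.length + 8 * x.length) / (1 / 16 : ℝ) ^ x.length))) *
              (Fintype.card (Fin (2 * (t x.length + 8 * x.length)) → Bool) : ℝ) *
              (Fintype.card (PermT (plen t x.length)) : ℝ) := by
            rw [Finset.sum_const, Finset.card_range, nsmul_eq_mul]
            push_cast
            ring
        _ ≤ K * (16 * Λ * (1 + 8 * (C : ℝ)) / ((N : ℝ) + 1) ^ 3) *
              (Fintype.card (Fin (2 * (t x.length + 8 * x.length)) → Bool) : ℝ) *
              (Fintype.card (G x) : ℝ) := by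
            have := peps_le t C x hΛ0
            rw [hrk] at this
            gcongr

theorem perm_main (t : ℕ → ℕ) (ht : Monotone t) (𝓢 : Set (Strategy (PQuery t)))
    (hc : 𝓢.Countable) (hT : ∀ S ∈ 𝓢, S.QueryBound t) :
    ∀ᵐ A ∂(permOracle t), ∀ S ∈ 𝓢, ∃ C : ℝ, ∀ N, S.capital (php A) (plang t A) N ≤ C := by
  rw [ae_ball_iff hc]
  exact fun S hS => perm_single t ht S (hT S hS)

end Pool.Agent.H17.QM
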