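import Pool.Agent.H17.QM.Oracle
import Pool.Agent.H17.QM.PermOracle

/-!
# Bi-immunity as a corollary of the betting theorems

If no betting strategy of the right kind succeeds on `L`, then every quantum machine that accepts
infinitely many strings with probability at least `α` accepts with probability `> β` (for any
`β < α`) infinitely many members and infinitely many non-members of `L`.
-/

set_option autoImplicit false

namespace Pool.Agent.H17.QM

open MeasureTheory Filter

/-- The cut-off of `p` between `β` and `α`. -/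
noncomputable def cut (α β p : ℝ) : ℝ := max (min ((p - β) / (α - β)) 1) 0

lemma cut_nonneg (α β p : ℝ) : 0 ≤ cut α β p := le_max_right _ _

lemma cut_le_one (α β p : ℝ) : cut α β p ≤ 1 := max_le (min_le_right _ _) zero_le_one

lemma cut_eq_one {α β p : ℝ} (h : β < α) (hp : α ≤ p) : cut α β p = 1 := by
  have : 1 ≤ (p - β) / (α - β) := by
    rw [one_le_div (by linarith)]; linarith
  rw [cut, min_eq_right this]
  exact max_eq_left zero_le_one

lemma lt_of_cut_pos {α β p : ℝ} (h : β < α) (hp : 0 < cut α β p) : β < p := by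
  by_contra hle
  have h1 : (p - β) / (α - β) ≤ 0 :=
    div_nonpos_of_nonpos_of_nonneg (by linarith) (by linarith)
  have : cut α β p = 0 := max_eq_right ((min_le_left _ _).trans h1)
  linarith

lemma abs_cut_sub {α β : ℝ} (h : β < α) (p q : ℝ) :
    |cut α β p - cut α β q| ≤ 1 / (α - β) * |p - q| := by
  have h0 : 0 < α - β := by linarith
  have e : (p - β) / (α - β) - (q - β) / (α - β) = 1 / (α - β) * (p - q) := by
    field_simp; ring
  calc |cut α β p - cut α β q|
      ≤ |min ((p - β) / (α - β)) 1 - min ((q - β) / (α - β)) 1| := abs_max_sub_max_le_abs _ _ _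
    _ ≤ |(p - β) / (α - β) - (q - β) / (α - β)| := by
        refine (abs_min_sub_min_le_max _ _ _ _).trans ?_
        simp
    _ = 1 / (α - β) * |p - q| := by rw [e, abs_mul, abs_of_pos (by positivity)]

/-- The strategy that bets on membership (`r = 1`) or non-membership (`r = -1`) of the strings
that the machine `M` accepts. -/
noncomputable def cutStrategy {κ : Type} (M : List Bool → QAlg κ) (α β : ℝ) (h : β < α) (r : ℝ)
    (hr : |r| ≤ 1) : Strategy κ where
  alg w := M (str w.length)
  g _ p := r * (cut α β p / 2)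
  lip := ⟨1 / (α - β), fun _ p q => by
    have e : r * (cut α β p / 2) - r * (cut α β q / 2) = r * ((cut α β p - cut α β q) / 2) := by
      ring
    rw [e, abs_mul, abs_div, abs_two]
    have h1 := abs_cut_sub h p q
    have h2 : |r| * (|cut α β p - cut α β q| / 2) ≤ 1 * (|cut α β p - cut α β q| / 2) :=
      mul_le_mul_of_nonneg_right hr (by positivity)
    have h3 := abs_nonneg (cut α β p - cut α β q)
    linarith⟩
  bound _ p := by
    have h1 := cut_nonneg α β p
    have h2 := cut_le_one α β p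
    rw [abs_mul, abs_of_nonneg (by positivity : 0 ≤ cut α β p / 2)]
    calc |r| * (cut α β p / 2) ≤ 1 * 1 :=
          mul_le_mul hr (by linarith) (by positivity) zero_le_one
      _ = 1 := one_mul 1

/-- An infinite product with factors at least one from some point on, infinitely many of which are
at least `3 / 2`, and with positive factors, is unbounded. -/
lemma prod_unbounded {a : ℕ → ℝ} (h0 : ∀ j, 0 < a j) (h1 : ∀ᶠ j in atTop, 1 ≤ a j)
    (h2 : ∃ᶠ j in atTop, 3 / 2 ≤ a j) (C : ℝ) : ∃ N, C < ∏ j ∈ Finset.range N, a j := by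
  obtain ⟨n, hn⟩ := eventually_atTop.1 h1
  set P := ∏ j ∈ Finset.range n, a j with hP
  have hP0 : 0 < P := Finset.prod_pos fun j _ => h0 j
  have key : ∀ k : ℕ, ∃ N ≥ n, P * (3 / 2) ^ k ≤ ∏ j ∈ Finset.range N, a j := by
    intro k
    induction k with
    | zero => exact ⟨n, le_rfl, by simp [hP]⟩
    | succ k ih =>
      obtain ⟨N, hN, hk⟩ := ih
      obtain ⟨M, hM, haM⟩ := (frequently_atTop.1 h2) N
      refine ⟨M + 1, by omega, ?_⟩
      rw [Finset.prod_range_succ, pow_succ, ← mul_assoc]
      have h3 : ∏ j ∈ Finset.range N, a j ≤ ∏ j ∈ Finset.range M, a j := by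
        rw [← Finset.prod_range_mul_prod_Ico _ hM]
        refine le_mul_of_one_le_right (Finset.prod_pos fun j _ => h0 j).le ?_
        calc (1 : ℝ) = ∏ _j ∈ Finset.Ico N M, (1 : ℝ) := by simp
          _ ≤ _ := Finset.prod_le_prod (fun _ _ => zero_le_one)
              fun j hj => hn j (hN.trans (Finset.mem_Ico.1 hj).1)
      exact mul_le_mul (hk.trans h3) haM (by norm_num) (Finset.prod_pos fun j _ => h0 j).le
  obtain ⟨k, hk⟩ := pow_unbounded_of_one_lt (C / P) (show (1 : ℝ) < 3 / 2 by norm_num)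
  obtain ⟨N, _, hN⟩ := key k
  refine ⟨N, lt_of_lt_of_le ?_ hN⟩
  rw [div_lt_iff₀ hP0] at hk
  linarith

lemma infinite_iff_frequently (P : List Bool → Prop) :
    {x | P x}.Infinite ↔ ∃ᶠ N in atTop, P (str N) := by
  rw [Nat.frequently_atTop_iff_infinite]
  have : {N | P (str N)} = rkE '' {x | P x} := by
    ext N
    simp only [Set.mem_ofPred_eq, Set.mem_image]
    constructor
    · intro h
      exact ⟨str N, h, rkE.apply_symm_apply N⟩
    · rintro ⟨x, hx, rfl⟩
      have : str (rkE x) = x := rkE.symm_apply_apply x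
      rwa [this]
  rw [this, Set.infinite_image_iff rkE.injective.injOn]

/-- From betting to acceptance probabilities, for one language. -/
lemma infinite_of_bounded {κ : Type} (M : List Bool → QAlg κ) (a : κ → ℂ) (L : Set (List Bool))
    {α β : ℝ} (h : β < α)
    (h1 : ∃ C : ℝ, ∀ N, (cutStrategy M α β h 1 (by norm_num)).capital a L N ≤ C)
    (h2 : ∃ C : ℝ, ∀ N, (cutStrategy M α β h (-1) (by norm_num)).capital a L N ≤ C)
    (hinf : {x | α ≤ (M x).prob a}.Infinite) :
    {x | x ∈ L ∧ β < (M x).prob a}.Infinite ∧ {x | x ∉ L ∧ β < (M x).prob a}.Infinite := by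
  classical
  rw [infinite_iff_frequently] at hinf
  rw [infinite_iff_frequently, infinite_iff_frequently]
  have hbet : ∀ (r : ℝ) (hr : |r| ≤ 1) (j : ℕ),
      (cutStrategy M α β h r hr).bet a (hist L j) = r * (cut α β ((M (str j)).prob a) / 2) := by
    intro r hr j
    simp [Strategy.bet, cutStrategy, hist]
  have hc0 : ∀ j, 0 ≤ cut α β ((M (str j)).prob a) := fun j => cut_nonneg _ _ _
  have hc1 : ∀ j, cut α β ((M (str j)).prob a) ≤ 1 := fun j => cut_le_one _ _ _
  -- a strategy with sign `r` is bounded, hence infinitely often wrong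
  have key : ∀ (r : ℝ) (hr : |r| ≤ 1) (_ : r = 1 ∨ r = -1)
      (_ : ∃ C : ℝ, ∀ N, (cutStrategy M α β h r hr).capital a L N ≤ C),
      ∃ᶠ j in atTop, (if str j ∈ L then (1 : ℝ) else -1) = -r ∧ β < (M (str j)).prob a := by
    intro r hr hr' hC
    by_contra hcon
    rw [not_frequently] at hcon
    obtain ⟨C, hC⟩ := hC
    have hfac : ∀ N, (cutStrategy M α β h r hr).capital a L N =
        ∏ j ∈ Finset.range N, (1 + r * (cut α β ((M (str j)).prob a) / 2) *
          if str j ∈ L then 1 else -1) := by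
      intro N
      unfold Strategy.capital
      exact Finset.prod_congr rfl fun j _ => by rw [hbet]
    have hs : ∀ j, (if str j ∈ L then (1 : ℝ) else -1) = r ∨
        (if str j ∈ L then (1 : ℝ) else -1) = -r := by
      intro j
      rcases hr' with rfl | rfl <;> split_ifs <;> simp
    have hrr : r * r = 1 := by rcases hr' with rfl | rfl <;> norm_num
    have hval : ∀ j, 1 + r * (cut α β ((M (str j)).prob a) / 2) *
        (if str j ∈ L then (1 : ℝ) else -1) =
        if (if str j ∈ L then (1 : ℝ) else -1) = r then 1 + cut α β ((M (str j)).prob a) / 2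
        else 1 - cut α β ((M (str j)).prob a) / 2 := by
      intro j
      rcases hs j with h3 | h3
      · rw [h3, if_pos rfl]
        linear_combination (cut α β ((M (str j)).prob a) / 2) * hrr
      · have hne : -r ≠ r := by
          intro h4
          have : r = 0 := by linarith
          rw [this] at hrr
          norm_num at hrr
        rw [h3, if_neg hne]
        linear_combination -(cut α β ((M (str j)).prob a) / 2) * hrr
    have g1 : ∀ j, 0 < 1 + r * (cut α β ((M (str j)).prob a) / 2) *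
        (if str j ∈ L then (1 : ℝ) else -1) := by
      intro j
      rw [hval]
      by_cases h5 : (if str j ∈ L then (1 : ℝ) else -1) = r
      · rw [if_pos h5]; linarith [hc0 j]
      · rw [if_neg h5]; linarith [hc1 j]
    have g2 : ∀ᶠ j in atTop, 1 ≤ 1 + r * (cut α β ((M (str j)).prob a) / 2) *
        (if str j ∈ L then (1 : ℝ) else -1) := by
      filter_upwards [hcon] with j hj
      rw [hval]
      by_cases h5 : (if str j ∈ L then (1 : ℝ) else -1) = r
      · rw [if_pos h5]
        linarith [hc0 j]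
      · rw [if_neg h5]
        have h7 : cut α β ((M (str j)).prob a) = 0 := by
          by_contra hne
          have hpos : 0 < cut α β ((M (str j)).prob a) := lt_of_le_of_ne (hc0 j) (Ne.symm hne)
          have h9 := lt_of_cut_pos h hpos
          rcases hs j with h8 | h8
          · exact h5 h8
          · exact hj ⟨h8, h9⟩
        rw [h7]; norm_num
    have g3 : ∃ᶠ j in atTop, 3 / 2 ≤ 1 + r * (cut α β ((M (str j)).prob a) / 2) *
        (if str j ∈ L then (1 : ℝ) else -1) := by
      have hfr := hinf.and_eventually hcon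
      refine hfr.mono fun j hj => ?_
      obtain ⟨h5, h6⟩ := hj
      have h7 := cut_eq_one h h5
      rw [hval, h7, if_pos]
      · norm_num
      · rcases hs j with h8 | h8
        · exact h8
        · exact absurd ⟨h8, lt_of_lt_of_le h h5⟩ h6
    obtain ⟨N, hN⟩ := prod_unbounded g1 g2 g3 C
    have := hC N
    rw [hfac] at this
    linarith
  refine ⟨(key (-1) (by norm_num) (Or.inr rfl) h2).mono fun j hj => ?_,
    (key 1 (by norm_num) (Or.inl rfl) h1).mono fun j hj => ?_⟩
  · refine ⟨?_, hj.2⟩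
    by_contra hn
    rw [if_neg hn] at hj
    norm_num at hj
  · refine ⟨?_, hj.2⟩
    intro hn
    rw [if_pos hn] at hj
    norm_num at hj

/-- The countable family of strategies attached to a countable family of machines. -/
noncomputable def cutFamily {κ : Type} (𝓜 : Set (List Bool → QAlg κ)) : Set (Strategy κ) :=
  {S | ∃ M ∈ 𝓜, ∃ (a b : ℚ) (h : (b : ℝ) < a), S = cutStrategy M a b h 1 (by norm_num) ∨
    S = cutStrategy M a b h (-1) (by norm_num)}

lemma countable_cutFamily {κ : Type} {𝓜 : Set (List Bool → QAlg κ)} (hc : 𝓜.Countable) :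
    (cutFamily 𝓜).Countable := by
  have h1 : cutFamily 𝓜 ⊆ ⋃ M ∈ 𝓜, ⋃ q : {q : ℚ × ℚ // (q.2 : ℝ) < q.1},
      ({cutStrategy M q.1.1 q.1.2 q.2 1 (by norm_num),
        cutStrategy M q.1.1 q.1.2 q.2 (-1) (by norm_num)} : Set (Strategy κ)) := by
    rintro S ⟨M, hM, a, b, h, hS⟩
    simp only [Set.mem_iUnion]
    refine ⟨M, hM, ⟨(a, b), h⟩, ?_⟩
    rcases hS with rfl | rfl
    · exact Or.inl rfl
    · exact Or.inr rfl
  refine Set.Countable.mono h1 ?_
  refine hc.biUnion fun M _ => Set.countable_iUnion fun q => ?_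
  exact (Set.countable_singleton _).insert _

lemma of_family {κ : Type} {𝓜 : Set (List Bool → QAlg κ)} {a : κ → ℂ} {L : Set (List Bool)}
    (h : ∀ S ∈ cutFamily 𝓜, ∃ C : ℝ, ∀ N, S.capital a L N ≤ C) {M : List Bool → QAlg κ}
    (hM : M ∈ 𝓜) {α β : ℝ} (hαβ : β < α) (hinf : {x | α ≤ (M x).prob a}.Infinite) :
    {x | x ∈ L ∧ β < (M x).prob a}.Infinite ∧ {x | x ∉ L ∧ β < (M x).prob a}.Infinite := by
  obtain ⟨b', hb1, hb2⟩ := exists_rat_btwn hαβ
  obtain ⟨a', ha1, ha2⟩ := exists_rat_btwn hb2
  obtain ⟨h1, h2⟩ := infinite_of_bounded M a L ha1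
    (h _ ⟨M, hM, a', b', ha1, Or.inl rfl⟩) (h _ ⟨M, hM, a', b', ha1, Or.inr rfl⟩)
    (hinf.mono fun x (hx : α ≤ _) => (ha2.le.trans hx : (a' : ℝ) ≤ _))
  exact ⟨h1.mono fun x hx => ⟨hx.1, hb1.trans hx.2⟩, h2.mono fun x hx => ⟨hx.1, hb1.trans hx.2⟩⟩

lemma queryBound_cutFamily {κ : Type} {𝓜 : Set (List Bool → QAlg κ)} {t : ℕ → ℕ}
    (hT : ∀ M ∈ 𝓜, ∃ C : ℕ, ∀ x, (M x).T ≤ C * 2 ^ t x.length) :
    ∀ S ∈ cutFamily 𝓜, S.QueryBound t := by
  rintro S ⟨M, hM, a, b, h, hS⟩
  obtain ⟨C, hC⟩ := hT M hM
  rcases hS with rfl | rfl <;> exact ⟨C, fun w => hC _⟩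

/-- Bi-immunity, in the strong form of limits of acceptance probabilities: random oracle. -/
theorem oracle_biimmune (t : ℕ → ℕ) (ht : Monotone t) (𝓜 : Set (List Bool → QAlg (List Bool)))
    (hc : 𝓜.Countable) (hT : ∀ M ∈ 𝓜, ∃ C : ℕ, ∀ x, (M x).T ≤ C * 2 ^ t x.length) :
    ∀ᵐ A ∂(coins (List Bool)), ∀ M ∈ 𝓜, ∀ α β : ℝ, β < α →
      {x | α ≤ (M x).prob (ph A)}.Infinite →
        {x | x ∈ lang t A ∧ β < (M x).prob (ph A)}.Infinite ∧
        {x | x ∉ lang t A ∧ β < (M x).prob (ph A)}.Infinite := by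
  filter_upwards [oracle_main t ht (cutFamily 𝓜) (countable_cutFamily hc)
    (queryBound_cutFamily hT)] with A hA M hM α β hαβ hinf
  exact of_family hA hM hαβ hinf

/-- Bi-immunity, in the strong form of limits of acceptance probabilities: random permutation. -/
theorem perm_biimmune (t : ℕ → ℕ) (ht : Monotone t) (𝓜 : Set (List Bool → QAlg (PQuery t)))
    (hc : 𝓜.Countable) (hT : ∀ M ∈ 𝓜, ∃ C : ℕ, ∀ x, (M x).T ≤ C * 2 ^ t x.length) :
    ∀ᵐ A ∂(permOracle t), ∀ M ∈ 𝓜, ∀ α β : ℝ, β < α →
      {x | α ≤ (M x).prob (php A)}.Infinite →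
        {x | x ∈ plang t A ∧ β < (M x).prob (php A)}.Infinite ∧
        {x | x ∉ plang t A ∧ β < (M x).prob (php A)}.Infinite := by
  filter_upwards [perm_main t ht (cutFamily 𝓜) (countable_cutFamily hc)
    (queryBound_cutFamily hT)] with A hA M hM α β hαβ hinf
  exact of_family hA hM hαβ hinf

end Pool.Agent.H17.QM
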