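import Pool.Agent.H17.QM.Plant

/-!
# The random oracle and resampling of a block
-/

set_option autoImplicit false

namespace Pool.Agent.H17.QM

open MeasureTheory

lemma map_unif (α : Type*) [Fintype α] [Nonempty α] [MeasurableSpace α]
    [MeasurableSingletonClass α] (e : α ≃ α) : (unif α).map e = unif α := by
  have he : Measurable (e : α → α) := by
    haveI : DiscreteMeasurableSpace α := inferInstance
    exact measurable_of_finite _
  rw [unif, PMF.toMeasure_map _ _ he]
  congr 1
  ext b
  rw [PMF.map_apply]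
  rw [tsum_eq_single (e.symm b)]
  · simp
  · intro a ha
    rw [if_neg]
    rintro rfl
    exact ha (by simp)

section Fill

variable {κ Y I : Type*} [Fintype Y] [DecidableEq Y] [Fintype I] [DecidableEq I]
  (e : Y × I → κ)

/-- Write the table `g` into the block `e` of the oracle `ω`. -/
noncomputable def fill (ω : κ → Bool) (g : Y → I → Bool) : κ → Bool :=
  Function.extend e (fun p => g p.1 p.2) ω

lemma fill_block (he : Function.Injective e) (ω : κ → Bool) (g : Y → I → Bool) (y : Y) (i : I) :
    fill e ω g (e (y, i)) = g y i := by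
  rw [fill, he.extend_apply]

lemma fill_off (ω : κ → Bool) (g : Y → I → Bool) {s : κ} (hs : ∀ p, e p ≠ s) :
    fill e ω g s = ω s := by
  rw [fill, Function.extend_apply']
  rintro ⟨p, hp⟩
  exact hs p hp

/-- Flip the bits of the block `e` according to the table `h`. -/
noncomputable def flip (h : Y → I → Bool) (ω : κ → Bool) : κ → Bool :=
  fun s => Bool.xor (Function.extend e (fun p => h p.1 p.2) (fun _ => false) s) (ω s)

lemma flip_eq_fill (he : Function.Injective e) (h : Y → I → Bool) (ω : κ → Bool) :
    flip e h ω = fill e ω fun y i => Bool.xor (h y i) (ω (e (y, i))) := by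
  funext s
  by_cases hs : ∃ p, e p = s
  · obtain ⟨⟨y, i⟩, rfl⟩ := hs
    rw [fill_block e he, flip, he.extend_apply]
  · rw [fill_off e _ _ fun p hp => hs ⟨p, hp⟩, flip, Function.extend_apply' _ _ _ hs]
    simp

lemma sum_flip (he : Function.Injective e) (ω : κ → Bool) (F : (κ → Bool) → ℝ) :
    ∑ h : Y → I → Bool, F (flip e h ω) = ∑ g : Y → I → Bool, F (fill e ω g) := by
  have hinv : Function.Involutive fun (h : Y → I → Bool) (y : Y) (i : I) =>
      Bool.xor (h y i) (ω (e (y, i))) := by
    intro h
    funext y i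
    simp
  rw [← Equiv.sum_comp (hinv.toPerm _) fun g => F (fill e ω g)]
  refine Finset.sum_congr rfl fun h _ => ?_
  rw [flip_eq_fill e he]
  rfl

instance (κ : Type*) : IsProbabilityMeasure (coins κ) := by unfold coins; infer_instance

lemma measurePreserving_flip (h : Y → I → Bool) :
    MeasurePreserving (flip e h) (coins κ) (coins κ) := by
  have hm : ∀ s : κ, Measurable fun b : Bool =>
      Bool.xor (Function.extend e (fun p => h p.1 p.2) (fun _ => false) s) b := fun s =>
    measurable_of_finite _
  refine ⟨?_, ?_⟩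
  · exact measurable_pi_lambda _ fun s => (hm s).comp (measurable_pi_apply s)
  · have := Measure.infinitePi_map_pi (μ := fun _ : κ => unif Bool) hm
    unfold coins
    rw [show flip e h = fun (ω : κ → Bool) (s : κ) =>
      Bool.xor (Function.extend e (fun p => h p.1 p.2) (fun _ => false) s) (ω s) from rfl]
    rw [this]
    congr 1
    funext s
    set c := Function.extend e (fun p => h p.1 p.2) (fun _ => false) s
    have hinv : Function.Involutive fun b : Bool => Bool.xor c b := by intro b; simp
    exact map_unif Bool (hinv.toPerm _)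

theorem resample (he : Function.Injective e) {F : (κ → Bool) → ℝ} (hF : Integrable F (coins κ)) :
    (Fintype.card (Y → I → Bool) : ℝ) * ∫ ω, F ω ∂(coins κ) =
      ∫ ω, ∑ g : Y → I → Bool, F (fill e ω g) ∂(coins κ) := by
  have h1 : ∀ h : Y → I → Bool, ∫ ω, F (flip e h ω) ∂(coins κ) = ∫ ω, F ω ∂(coins κ) := by
    intro h
    have hp := measurePreserving_flip (κ := κ) e h
    have := integral_map (μ := coins κ) hp.measurable.aemeasurable (f := F)
      (by rw [hp.map_eq]; exact hF.aestronglyMeasurable)
    rw [hp.map_eq] at this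
    exact this.symm
  have h2 : ∀ h : Y → I → Bool, Integrable (fun ω => F (flip e h ω)) (coins κ) := fun h =>
    (measurePreserving_flip (κ := κ) e h).integrable_comp_of_integrable hF
  calc (Fintype.card (Y → I → Bool) : ℝ) * ∫ ω, F ω ∂(coins κ)
      = ∑ h : Y → I → Bool, ∫ ω, F (flip e h ω) ∂(coins κ) := by
        simp only [h1, Finset.sum_const, Finset.card_univ, nsmul_eq_mul]
    _ = ∫ ω, ∑ h : Y → I → Bool, F (flip e h ω) ∂(coins κ) :=
        (integral_finsetSum _ fun h _ => h2 h).symm
    _ = _ := by simp only [sum_flip e he]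

/-- The signed integral over a block of the random oracle. -/
theorem block_signed (he : Function.Injective e) (hI : 1 ≤ Fintype.card I)
    {f sg : (κ → Bool) → ℝ} (hf : Measurable f) (hsg : Measurable sg) {B κ' : ℝ}
    (hfB : ∀ ω, |f ω| ≤ B)
    (hs' : ∀ ω g, sg (fill e ω g) = if g ∈ wf (fun _ : I => true) then -1 else 1)
    (hvar : ∀ ω, ∀ g ∈ wf (Y := Y) (fun _ : I => true), ∑ W : Finset Y,
      wq (I → Bool) ^ W.card *
        |f (fill e ω (plant (fun _ : I => true) g W)) - f (fill e ω g)| ≤
      κ' * (1 + wq (I → Bool)) ^ Fintype.card Y) :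
    |∫ ω, f ω * sg ω ∂(coins κ)| ≤
      κ' + B * |1 - 2 / (1 + wq (I → Bool)) ^ Fintype.card Y| := by
  have hcardZ : Fintype.card (I → Bool) = 2 ^ Fintype.card I := by simp
  have hK : 2 ≤ Fintype.card (I → Bool) := by
    rw [hcardZ]
    calc 2 = 2 ^ 1 := rfl
      _ ≤ 2 ^ Fintype.card I := Nat.pow_le_pow_right (by norm_num) hI
  set N : ℝ := (Fintype.card (Y → I → Bool) : ℝ) with hN
  have hNpos : 0 < N := by
    rw [hN]
    exact_mod_cast Fintype.card_pos
  have hsg1 : ∀ ω, |sg ω| ≤ 1 := by
    intro ω
    -- every oracle is a filling of itself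
    have : fill e ω (fun y i => ω (e (y, i))) = ω := by
      funext s
      by_cases hs : ∃ p, e p = s
      · obtain ⟨⟨y, i⟩, rfl⟩ := hs
        rw [fill_block e he]
      · exact fill_off e _ _ fun p hp => hs ⟨p, hp⟩
    have h2 := hs' ω fun y i => ω (e (y, i))
    rw [this] at h2
    rw [h2]
    split_ifs <;> simp
  have hB0 : 0 ≤ B := (abs_nonneg _).trans (hfB fun _ => false)
  have hfi : Integrable (fun ω => f ω * sg ω) (coins κ) := by
    refine Integrable.of_bound (hf.mul hsg).aestronglyMeasurable B (ae_of_all _ fun ω => ?_)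
    rw [Real.norm_eq_abs, abs_mul]
    calc |f ω| * |sg ω| ≤ B * 1 := mul_le_mul (hfB ω) (hsg1 ω) (abs_nonneg _) hB0
      _ = B := mul_one B
  have h1 := resample e he hfi
  have h2 : ∀ ω, |∑ g : Y → I → Bool, f (fill e ω g) * sg (fill e ω g)| ≤
      (κ' + B * |1 - 2 / (1 + wq (I → Bool)) ^ Fintype.card Y|) * N := by
    intro ω
    simp only [hs']
    exact sum_signed (Y := Y) (fun _ : I => true) hK (fun g => f (fill e ω g))
      (fun g => hfB _) (hvar ω)
  have h3 : |N * ∫ ω, f ω * sg ω ∂(coins κ)| ≤
      (κ' + B * |1 - 2 / (1 + wq (I → Bool)) ^ Fintype.card Y|) * N := by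
    rw [h1]
    have := norm_integral_le_of_norm_le_const (μ := coins κ)
      (f := fun ω => ∑ g : Y → I → Bool, f (fill e ω g) * sg (fill e ω g))
      (C := (κ' + B * |1 - 2 / (1 + wq (I → Bool)) ^ Fintype.card Y|) * N)
      (ae_of_all _ fun ω => by rw [Real.norm_eq_abs]; exact h2 ω)
    simpa [Real.norm_eq_abs] using this
  rw [abs_mul, abs_of_pos hNpos, mul_comm] at h3
  exact le_of_mul_le_mul_right h3 hNpos

end Fill

end Pool.Agent.H17.QM
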