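import Pool.Agent.H17.QM.Adv
import Pool.Agent.H17.QM.Flip

/-!
# Planted witnesses are not noticed by query algorithms
-/

set_option autoImplicit false

namespace Pool.Agent.H17.QM

open MeasureTheory

lemma norm_ph {κ : Type} (ω : κ → Bool) (s : κ) : ‖ph ω s‖ = 1 := by
  unfold ph; split_ifs <;> simp

namespace QAlg

variable {κ : Type} (Q : QAlg κ)

/-- The acceptance probability is a measurable function of the oracle. -/
lemma measurable_prob : Measurable fun ω : κ → Bool => Q.prob (ph ω) := by
  classical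
  -- the finite set of queried strings
  let S : Finset κ := Finset.univ.biUnion fun i : Fin Q.dim => (Q.query i).toFinset
  let r : (κ → Bool) → (S → Bool) := fun ω s => ω s
  let b : (S → Bool) → (κ → Bool) := fun η s => if h : s ∈ S then η ⟨s, h⟩ else false
  have hr : Measurable r := measurable_pi_lambda _ fun s => measurable_pi_apply _
  have e : (fun ω : κ → Bool => Q.prob (ph ω)) = (fun η => Q.prob (ph (b η))) ∘ r := by
    funext ω
    refine Q.prob_congr fun i s hs => ?_
    have hsS : s ∈ S := by
      simp only [S, Finset.mem_biUnion, Finset.mem_univ, true_and]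
      exact ⟨i, by simp [hs]⟩
    simp only [ph, b, r, hsS, dif_pos]
  rw [e]
  exact (measurable_of_finite _).comp hr

section

variable {Y I : Type} [Fintype Y] [DecidableEq Y] [Fintype I] [DecidableEq I] {e : Y × I → κ}

lemma sum_wt_diff (he : Function.Injective e) {w : ℝ} (hw : 0 ≤ w) (o : I → Bool) (ω : κ → Bool)
    (g : Y → I → Bool) (φ : EuclideanSpace ℂ (Fin Q.dim)) (hφ : ‖φ‖ = 1) :
    ∑ W : Finset Y, w ^ W.card *
      Q.wt (Q.diff (ph (fill e ω (plant o g W))) (ph (fill e ω g))) φ ≤
        w * (1 + w) ^ Fintype.card Y := by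
  classical
  have h1 : ∀ W : Finset Y, w ^ W.card *
      Q.wt (Q.diff (ph (fill e ω (plant o g W))) (ph (fill e ω g))) φ =
      ∑ i, ‖φ i‖ ^ 2 * (if i ∈ Q.diff (ph (fill e ω (plant o g W))) (ph (fill e ω g))
        then w ^ W.card else 0) := by
    intro W
    rw [wt, Finset.mul_sum, ← Finset.sum_filter_add_sum_filter_not Finset.univ
      (fun i => i ∈ Q.diff (ph (fill e ω (plant o g W))) (ph (fill e ω g)))]
    rw [Finset.sum_eq_zero (s := Finset.univ.filter fun i =>
      ¬ i ∈ Q.diff (ph (fill e ω (plant o g W))) (ph (fill e ω g)))]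
    · rw [add_zero, Finset.filter_mem_eq_inter, Finset.univ_inter]
      refine Finset.sum_congr rfl fun i hi => ?_
      rw [if_pos hi, mul_comm]
    · intro i hi
      rw [if_neg (Finset.mem_filter.1 hi).2, mul_zero]
  simp only [h1]
  rw [Finset.sum_comm]
  simp only [← Finset.mul_sum]
  have h2 : ∀ i, ∑ W : Finset Y,
      (if i ∈ Q.diff (ph (fill e ω (plant o g W))) (ph (fill e ω g)) then w ^ W.card else 0) ≤
        w * (1 + w) ^ Fintype.card Y := by
    intro i
    by_cases hi : ∃ y k, Q.query i = some (e (y, k))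
    · obtain ⟨y, k, hq⟩ := hi
      refine le_trans ?_ (sum_wq_mem hw y)
      rw [Finset.sum_filter]
      refine Finset.sum_le_sum fun W _ => ?_
      by_cases hy : y ∈ W
      · rw [if_pos hy]
        split_ifs
        · exact le_rfl
        · positivity
      · rw [if_neg hy, if_neg]
        rw [mem_diff, not_not]
        simp only [phase, hq, ph, fill_block e he, plant, hy, if_false]
    · have : ∀ W : Finset Y,
          i ∉ Q.diff (ph (fill e ω (plant o g W))) (ph (fill e ω g)) := by
        intro W
        rw [mem_diff, not_not]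
        unfold phase
        cases hq : Q.query i with
        | none => rfl
        | some s =>
          have hs : ∀ p, e p ≠ s := by
            rintro ⟨y, k⟩ h
            exact hi ⟨y, k, by rw [hq, h]⟩
          simp only [ph, fill_off e _ _ hs]
      simp only [this, if_false, Finset.sum_const_zero]
      positivity
  calc ∑ i, ‖φ i‖ ^ 2 * ∑ W : Finset Y,
      (if i ∈ Q.diff (ph (fill e ω (plant o g W))) (ph (fill e ω g)) then w ^ W.card else 0)
      ≤ ∑ i, ‖φ i‖ ^ 2 * (w * (1 + w) ^ Fintype.card Y) :=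
        Finset.sum_le_sum fun i _ => mul_le_mul_of_nonneg_left (h2 i) (by positivity)
    _ = w * (1 + w) ^ Fintype.card Y := by
        rw [← Finset.sum_mul, ← EuclideanSpace.norm_sq_eq, hφ]
        ring

lemma sum_abs_prob (he : Function.Injective e) {w : ℝ} (hw : 0 ≤ w) (o : I → Bool)
    (ω : κ → Bool) (g : Y → I → Bool) {δ : ℝ} (hδ : 0 < δ) :
    ∑ W : Finset Y, w ^ W.card *
      |Q.prob (ph (fill e ω (plant o g W))) - Q.prob (ph (fill e ω g))| ≤
        (δ + 4 * (Q.T : ℝ) ^ 2 * w / δ) * (1 + w) ^ Fintype.card Y := by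
  have h1 : ∀ W : Finset Y,
      |Q.prob (ph (fill e ω (plant o g W))) - Q.prob (ph (fill e ω g))| ≤
        δ + 4 * Q.T / δ * ∑ s ∈ Finset.range Q.T,
          Q.wt (Q.diff (ph (fill e ω (plant o g W))) (ph (fill e ω g)))
            (Q.state (ph (fill e ω g)) s) := by
    intro W
    have a1 := Q.abs_prob_sub (norm_ph (fill e ω (plant o g W))) (norm_ph (fill e ω g))
    have a2 := Q.norm_state_sub_sq (norm_ph (fill e ω (plant o g W))) (norm_ph (fill e ω g)) Q.T
    set D := ‖Q.state (ph (fill e ω (plant o g W))) Q.T - Q.state (ph (fill e ω g)) Q.T‖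
    have a3 : 2 * D ≤ δ + D ^ 2 / δ := by
      have : 0 ≤ (D - δ) ^ 2 / δ := by positivity
      have e1 : (D - δ) ^ 2 / δ = D ^ 2 / δ - 2 * D + δ := by
        field_simp; ring
      linarith
    have a4 : D ^ 2 / δ ≤ 4 * Q.T / δ * ∑ s ∈ Finset.range Q.T,
          Q.wt (Q.diff (ph (fill e ω (plant o g W))) (ph (fill e ω g)))
            (Q.state (ph (fill e ω g)) s) := by
      rw [div_mul_eq_mul_div]
      exact div_le_div_of_nonneg_right a2 hδ.le
    linarith
  calc ∑ W : Finset Y, w ^ W.card *
      |Q.prob (ph (fill e ω (plant o g W))) - Q.prob (ph (fill e ω g))|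
      ≤ ∑ W : Finset Y, w ^ W.card * (δ + 4 * Q.T / δ * ∑ s ∈ Finset.range Q.T,
          Q.wt (Q.diff (ph (fill e ω (plant o g W))) (ph (fill e ω g)))
            (Q.state (ph (fill e ω g)) s)) :=
        Finset.sum_le_sum fun W _ => mul_le_mul_of_nonneg_left (h1 W) (by positivity)
    _ = δ * (1 + w) ^ Fintype.card Y + 4 * Q.T / δ * ∑ s ∈ Finset.range Q.T,
          ∑ W : Finset Y, w ^ W.card *
            Q.wt (Q.diff (ph (fill e ω (plant o g W))) (ph (fill e ω g)))
            (Q.state (ph (fill e ω g)) s) := by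
        rw [← sum_wq Y w, Finset.mul_sum, Finset.sum_comm, Finset.mul_sum,
          ← Finset.sum_add_distrib]
        refine Finset.sum_congr rfl fun W _ => ?_
        rw [mul_add, mul_comm (w ^ W.card) δ, Finset.mul_sum, Finset.mul_sum, Finset.mul_sum]
        congr 1
        refine Finset.sum_congr rfl fun s _ => ?_
        ring
    _ ≤ δ * (1 + w) ^ Fintype.card Y + 4 * Q.T / δ * ∑ s ∈ Finset.range Q.T,
          (w * (1 + w) ^ Fintype.card Y) := by
        refine add_le_add le_rfl (mul_le_mul_of_nonneg_left (Finset.sum_le_sum fun s _ => ?_)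
          (by positivity))
        exact Q.sum_wt_diff he hw o ω g _ (Q.norm_state (norm_ph _) s)
    _ = (δ + 4 * (Q.T : ℝ) ^ 2 * w / δ) * (1 + w) ^ Fintype.card Y := by
        rw [Finset.sum_const, Finset.card_range, nsmul_eq_mul]
        field_simp

end

end QAlg

end Pool.Agent.H17.QM
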