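import Pool.Agent.H17.QM.Defs

/-!
# Strings: rank, self-delimiting codes, summability
-/

set_option autoImplicit false

namespace Pool.Agent.H17.QM

open Filter

lemma rk_str (N : ℕ) : rk (str N) = N := rkE.apply_symm_apply N

lemma str_rk (x : List Bool) : str (rk x) = x := rkE.symm_apply_apply x

lemma str_injective : Function.Injective str := rkE.symm.injective

lemma le_rk (x : List Bool) : 2 ^ x.length ≤ rk x + 1 := by
  induction x using List.reverseRecOn with
  | nil => simp
  | append_singleton x b ih =>
    rw [rk_concat, List.length_append, List.length_singleton, pow_succ]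
    split_ifs <;> omega

lemma rk_lt (x : List Bool) : rk x + 1 < 2 ^ (x.length + 1) := by
  induction x using List.reverseRecOn with
  | nil => simp
  | append_singleton x b ih =>
    rw [rk_concat, List.length_append, List.length_singleton, pow_succ]
    split_ifs <;> omega

lemma rk_lt_rk_of_length {x y : List Bool} (h : x.length < y.length) : rk x < rk y := by
  have h1 := rk_lt x
  have h2 := le_rk y
  have h3 : 2 ^ (x.length + 1) ≤ 2 ^ y.length := Nat.pow_le_pow_right (by norm_num) h
  omega

lemma length_le_of_rk_le {x y : List Bool} (h : rk x ≤ rk y) : x.length ≤ y.length := by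
  by_contra hlt
  exact absurd (rk_lt_rk_of_length (not_le.1 hlt)) (not_lt.2 h)

/-! ### Codes -/

@[simp] lemma dbl_nil : dbl [] = [] := rfl

@[simp] lemma dbl_cons (b : Bool) (x : List Bool) : dbl (b :: x) = true :: b :: dbl x := rfl

lemma dbl_sep {x x' r r' : List Bool} (h : dbl x ++ false :: r = dbl x' ++ false :: r') :
    x = x' ∧ r = r' := by
  induction x generalizing x' with
  | nil =>
    cases x' with
    | nil => simpa using h
    | cons b x' => simp at h
  | cons a x ih =>
    cases x' with
    | nil => simp at h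
    | cons b x' =>
      simp only [dbl_cons, List.cons_append, List.cons.injEq, true_and] at h
      obtain ⟨h1, h2⟩ := h
      obtain ⟨h3, h4⟩ := ih h2
      exact ⟨by rw [h1, h3], h4⟩

lemma code_injective {x x' y y' : List Bool} {i i' : ℕ} (h : code x y i = code x' y' i') :
    x = x' ∧ y = y' ∧ i = i' := by
  obtain ⟨h1, h2⟩ := dbl_sep h
  obtain ⟨h3, h4⟩ := dbl_sep h2
  refine ⟨h1, h3, ?_⟩
  simpa using congrArg List.length h4

/-! ### Summability -/

lemma summable_rk (c : ℝ) : Summable fun N : ℕ => c / ((N : ℝ) + 1) ^ 2 := by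
  have h : Summable fun N : ℕ => 1 / ((N : ℝ) + 1) ^ 2 := by
    have := (summable_nat_add_iff 1).2 (Real.summable_one_div_nat_pow.2 (one_lt_two (α := ℕ)))
    simpa using this
  have := h.mul_left c
  simpa [div_eq_mul_inv] using this

/-- `16 ^ (-n)` is of the order `(rank + 1) ^ (-4)` on strings of length `n`. -/
lemma one_div_le (x : List Bool) : (1 : ℝ) / 16 ^ x.length ≤ 16 / ((rk x : ℝ) + 1) ^ 4 := by
  have hN : ((rk x : ℝ) + 1) < 2 * 2 ^ x.length := by
    have := rk_lt x
    rw [pow_succ'] at this
    exact_mod_cast this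
  have hN0 : (0 : ℝ) < (rk x : ℝ) + 1 := by positivity
  have h3 : ((rk x : ℝ) + 1) ^ 4 ≤ 16 * 16 ^ x.length := by
    calc ((rk x : ℝ) + 1) ^ 4 ≤ (2 * 2 ^ x.length) ^ 4 := pow_le_pow_left₀ hN0.le hN.le 4
      _ = 16 * 16 ^ x.length := by
        rw [mul_pow, pow_right_comm]; norm_num
  rw [div_le_div_iff₀ (by positivity) (by positivity)]
  linarith

end Pool.Agent.H17.QM
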