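import Pool.Agent.H17.QM.Alg

/-!
# The adversary bound for moving a hidden item
-/

set_option autoImplicit false

namespace Pool.Agent.H17.QM

namespace QAlg

variable {κ : Type} (Q : QAlg κ)

lemma mem_diff {a b : κ → ℂ} {i : Fin Q.dim} : i ∈ Q.diff a b ↔ Q.phase a i ≠ Q.phase b i := by
  simp [diff]

lemma norm_oracle_sub_sq' {a b : κ → ℂ} (ha : ∀ s, ‖a s‖ = 1) (hb : ∀ s, ‖b s‖ = 1)
    (ψ φ : EuclideanSpace ℂ (Fin Q.dim)) :
    ‖Q.oracle a ψ - Q.oracle b φ‖ ^ 2 ≤
      ‖ψ - φ‖ ^ 2 + ∑ i ∈ Q.diff a b, 4 * (‖ψ i‖ * ‖φ i‖) := by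
  rw [EuclideanSpace.norm_sq_eq, EuclideanSpace.norm_sq_eq,
    ← Finset.sum_filter_add_sum_filter_not Finset.univ (fun i => i ∈ Q.diff a b),
    ← Finset.sum_filter_add_sum_filter_not Finset.univ (fun i => i ∈ Q.diff a b)
      (fun i => ‖(ψ - φ) i‖ ^ 2), Finset.filter_mem_eq_inter, Finset.univ_inter]
  have h1 : ∑ i ∈ Q.diff a b, ‖(Q.oracle a ψ - Q.oracle b φ) i‖ ^ 2 ≤
      ∑ i ∈ Q.diff a b, ‖(ψ - φ) i‖ ^ 2 + ∑ i ∈ Q.diff a b, 4 * (‖ψ i‖ * ‖φ i‖) := by
    rw [← Finset.sum_add_distrib]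
    refine Finset.sum_le_sum fun i _ => ?_
    have e1 : ‖(Q.oracle a ψ - Q.oracle b φ) i‖ ≤ ‖ψ i‖ + ‖φ i‖ := by
      have : (Q.oracle a ψ - Q.oracle b φ) i = Q.phase a i * ψ i - Q.phase b i * φ i := by simp
      rw [this]
      refine (norm_sub_le _ _).trans ?_
      rw [norm_mul, norm_mul, Q.norm_phase ha, Q.norm_phase hb, one_mul, one_mul]
    have e2 : |‖ψ i‖ - ‖φ i‖| ≤ ‖(ψ - φ) i‖ := by simpa using abs_norm_sub_norm_le (ψ i) (φ i)
    have e3 : (‖ψ i‖ - ‖φ i‖) ^ 2 ≤ ‖(ψ - φ) i‖ ^ 2 := by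
      rw [← sq_abs]
      exact pow_le_pow_left₀ (abs_nonneg _) e2 2
    have e4 : ‖(Q.oracle a ψ - Q.oracle b φ) i‖ ^ 2 ≤ (‖ψ i‖ + ‖φ i‖) ^ 2 :=
      pow_le_pow_left₀ (norm_nonneg _) e1 2
    nlinarith
  have h2 : ∑ i ∈ Finset.univ.filter (fun i => i ∉ Q.diff a b),
      ‖(Q.oracle a ψ - Q.oracle b φ) i‖ ^ 2 =
      ∑ i ∈ Finset.univ.filter (fun i => i ∉ Q.diff a b), ‖(ψ - φ) i‖ ^ 2 := by
    refine Finset.sum_congr rfl fun i hi => ?_
    have hi' : i ∉ Q.diff a b := (Finset.mem_filter.1 hi).2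
    rw [mem_diff, not_not] at hi'
    have : (Q.oracle a ψ - Q.oracle b φ) i = Q.phase a i * (ψ - φ) i := by
      simp [mul_sub, hi']
    rw [this, norm_mul, Q.norm_phase ha, one_mul]
  rw [h2]
  linarith

/-- The basis states that query row `y`. -/
noncomputable def rows {Y : Type} (row : κ → Option Y) (y : Y) : Finset (Fin Q.dim) := by
  classical
  exact Finset.univ.filter fun i => ∃ s, Q.query i = some s ∧ row s = some y

lemma mem_rows {Y : Type} {row : κ → Option Y} {y : Y} {i : Fin Q.dim} :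
    i ∈ Q.rows row y ↔ ∃ s, Q.query i = some s ∧ row s = some y := by
  classical
  simp [rows]

variable {Y P S : Type} [Fintype P] [Fintype S] (row : κ → Option Y) (loc : P → Y)
  (τ : S → P → P) (a : P → κ → ℂ)

lemma sum_wt_rows (hinj : ∀ π, Function.Injective fun s => loc (τ s π)) (π : P)
    (ψ : EuclideanSpace ℂ (Fin Q.dim)) (hψ : ‖ψ‖ = 1) :
    ∑ s, Q.wt (Q.rows row (loc (τ s π))) ψ ≤ 1 := by
  classical
  have h1 : ∀ s, Q.wt (Q.rows row (loc (τ s π))) ψ =
      ∑ i, if i ∈ Q.rows row (loc (τ s π)) then ‖ψ i‖ ^ 2 else 0 := by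
    intro s
    rw [wt, ← Finset.sum_filter, Finset.filter_mem_eq_inter, Finset.univ_inter]
  simp only [h1]
  rw [Finset.sum_comm]
  have h2 : ∀ i, ∑ s, (if i ∈ Q.rows row (loc (τ s π)) then ‖ψ i‖ ^ 2 else 0) ≤ ‖ψ i‖ ^ 2 := by
    intro i
    by_cases h : ∃ s0, i ∈ Q.rows row (loc (τ s0 π))
    · obtain ⟨s0, h0⟩ := h
      rw [Finset.sum_eq_single s0]
      · rw [if_pos h0]
      · intro s _ hs
        rw [if_neg]
        intro h3
        rw [mem_rows] at h0 h3
        obtain ⟨k, hk1, hk2⟩ := h0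
        obtain ⟨k', hk1', hk2'⟩ := h3
        rw [hk1] at hk1'
        obtain rfl := Option.some.inj hk1'
        rw [hk2] at hk2'
        exact hs (hinj π (Option.some.inj hk2')).symm
      · intro h; exact absurd (Finset.mem_univ _) h
    · push Not at h
      simp only [h, if_false, Finset.sum_const_zero]
      positivity
  calc ∑ i, ∑ s, (if i ∈ Q.rows row (loc (τ s π)) then ‖ψ i‖ ^ 2 else 0)
      ≤ ∑ i, ‖ψ i‖ ^ 2 := Finset.sum_le_sum fun i _ => h2 i
    _ = 1 := by rw [← EuclideanSpace.norm_sq_eq, hψ]; norm_num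

/-- The adversary bound. -/
theorem adversary (hτ : ∀ s π, τ s (τ s π) = π)
    (hinj : ∀ π, Function.Injective fun s => loc (τ s π))
    (ha : ∀ π k, ‖a π k‖ = 1)
    (hdiff : ∀ s π k, a (τ s π) k ≠ a π k →
      row k = some (loc π) ∨ row k = some (loc (τ s π)))
    {L : ℝ} (hL : 0 < L) (hS : (Fintype.card S : ℝ) = L ^ 2) (t : ℕ) :
    ∑ π, ∑ s, ‖Q.state (a (τ s π)) t - Q.state (a π) t‖ ^ 2 ≤
      8 * t * (Fintype.card P : ℝ) * L := by
  classical
  induction t with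
  | zero => simp [state]
  | succ t ih =>
    have hstep : ∀ π s, ‖Q.state (a (τ s π)) (t + 1) - Q.state (a π) (t + 1)‖ ^ 2 ≤
        ‖Q.state (a (τ s π)) t - Q.state (a π) t‖ ^ 2 +
          (4 / L + 2 * L * Q.wt (Q.rows row (loc (τ s (τ s π)))) (Q.state (a (τ s π)) t) +
            2 * L * Q.wt (Q.rows row (loc (τ s π))) (Q.state (a π) t)) := by
      intro π s
      set ψ := Q.state (a (τ s π)) t with hψ
      set φ := Q.state (a π) t with hφ
      have hψ1 : ‖ψ‖ = 1 := Q.norm_state (ha _) t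
      have hφ1 : ‖φ‖ = 1 := Q.norm_state (ha _) t
      rw [state, state, ← map_sub, LinearIsometryEquiv.norm_map]
      refine (Q.norm_oracle_sub_sq' (ha _) (ha _) _ _).trans (add_le_add le_rfl ?_)
      rw [hτ]
      have hsub : Q.diff (a (τ s π)) (a π) ⊆ Q.rows row (loc π) ∪ Q.rows row (loc (τ s π)) := by
        intro i hi
        rw [mem_diff] at hi
        rw [Finset.mem_union, mem_rows, mem_rows]
        unfold phase at hi
        cases hq : Q.query i with
        | none => rw [hq] at hi; exact absurd rfl hi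
        | some k =>
          rw [hq] at hi
          rcases hdiff s π k hi with h | h
          · exact Or.inl ⟨k, rfl, h⟩
          · exact Or.inr ⟨k, rfl, h⟩
      have hpt : ∀ x y : ℝ, 4 * (x * y) ≤ 2 * L * x ^ 2 + 2 / L * y ^ 2 := by
        intro x y
        have : 0 ≤ 2 / L * (L * x - y) ^ 2 := by positivity
        have e : 2 / L * (L * x - y) ^ 2 = 2 * L * x ^ 2 + 2 / L * y ^ 2 - 4 * (x * y) := by
          field_simp; ring
        linarith
      have b1 : ∑ i ∈ Q.rows row (loc π), 4 * (‖ψ i‖ * ‖φ i‖) ≤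
          2 * L * Q.wt (Q.rows row (loc π)) ψ + 2 / L := by
        calc ∑ i ∈ Q.rows row (loc π), 4 * (‖ψ i‖ * ‖φ i‖)
            ≤ ∑ i ∈ Q.rows row (loc π), (2 * L * ‖ψ i‖ ^ 2 + 2 / L * ‖φ i‖ ^ 2) :=
              Finset.sum_le_sum fun i _ => hpt _ _
          _ = 2 * L * Q.wt (Q.rows row (loc π)) ψ + 2 / L * Q.wt (Q.rows row (loc π)) φ := by
              rw [Finset.sum_add_distrib, ← Finset.mul_sum, ← Finset.mul_sum]; rfl
          _ ≤ 2 * L * Q.wt (Q.rows row (loc π)) ψ + 2 / L * 1 := by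
              refine add_le_add le_rfl (mul_le_mul_of_nonneg_left ?_ (by positivity))
              have := Q.wt_le (Q.rows row (loc π)) φ
              rwa [hφ1, one_pow] at this
          _ = _ := by rw [mul_one]
      have b2 : ∑ i ∈ Q.rows row (loc (τ s π)), 4 * (‖ψ i‖ * ‖φ i‖) ≤
          2 * L * Q.wt (Q.rows row (loc (τ s π))) φ + 2 / L := by
        calc ∑ i ∈ Q.rows row (loc (τ s π)), 4 * (‖ψ i‖ * ‖φ i‖)
            ≤ ∑ i ∈ Q.rows row (loc (τ s π)), (2 * L * ‖φ i‖ ^ 2 + 2 / L * ‖ψ i‖ ^ 2) :=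
              Finset.sum_le_sum fun i _ => by
                have := hpt ‖φ i‖ ‖ψ i‖
                rwa [mul_comm ‖φ i‖] at this
          _ = 2 * L * Q.wt (Q.rows row (loc (τ s π))) φ +
                2 / L * Q.wt (Q.rows row (loc (τ s π))) ψ := by
              rw [Finset.sum_add_distrib, ← Finset.mul_sum, ← Finset.mul_sum]; rfl
          _ ≤ 2 * L * Q.wt (Q.rows row (loc (τ s π))) φ + 2 / L * 1 := by
              refine add_le_add le_rfl (mul_le_mul_of_nonneg_left ?_ (by positivity))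
              have := Q.wt_le (Q.rows row (loc (τ s π))) ψ
              rwa [hψ1, one_pow] at this
          _ = _ := by rw [mul_one]
      have b3 : ∑ i ∈ Q.diff (a (τ s π)) (a π), 4 * (‖ψ i‖ * ‖φ i‖) ≤
          ∑ i ∈ Q.rows row (loc π), 4 * (‖ψ i‖ * ‖φ i‖) +
          ∑ i ∈ Q.rows row (loc (τ s π)), 4 * (‖ψ i‖ * ‖φ i‖) := by
        refine (Finset.sum_le_sum_of_subset_of_nonneg hsub fun i _ _ => by positivity).trans ?_
        rw [← Finset.sum_union_inter]
        have : 0 ≤ ∑ i ∈ Q.rows row (loc π) ∩ Q.rows row (loc (τ s π)), 4 * (‖ψ i‖ * ‖φ i‖) :=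
          Finset.sum_nonneg fun i _ => by positivity
        linarith
      have e4 : 4 / L = 2 / L + 2 / L := by ring
      linarith
    have hc1 : ∑ π, ∑ s, Q.wt (Q.rows row (loc (τ s (τ s π)))) (Q.state (a (τ s π)) t) ≤
        Fintype.card P := by
      rw [Finset.sum_comm]
      have : ∀ s, ∑ π, Q.wt (Q.rows row (loc (τ s (τ s π)))) (Q.state (a (τ s π)) t) =
          ∑ π, Q.wt (Q.rows row (loc (τ s π))) (Q.state (a π) t) := by
        intro s
        have hinv : Function.Involutive (τ s) := hτ s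
        exact Equiv.sum_comp (hinv.toPerm _)
          fun π => Q.wt (Q.rows row (loc (τ s π))) (Q.state (a π) t)
      simp only [this]
      rw [Finset.sum_comm]
      calc ∑ π, ∑ s, Q.wt (Q.rows row (loc (τ s π))) (Q.state (a π) t)
          ≤ ∑ _π : P, (1 : ℝ) := Finset.sum_le_sum fun π _ =>
            Q.sum_wt_rows row loc τ hinj π _ (Q.norm_state (ha π) t)
        _ = Fintype.card P := by simp
    have hc2 : ∑ π, ∑ s, Q.wt (Q.rows row (loc (τ s π))) (Q.state (a π) t) ≤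
        Fintype.card P := by
      calc ∑ π, ∑ s, Q.wt (Q.rows row (loc (τ s π))) (Q.state (a π) t)
          ≤ ∑ _π : P, (1 : ℝ) := Finset.sum_le_sum fun π _ =>
            Q.sum_wt_rows row loc τ hinj π _ (Q.norm_state (ha π) t)
        _ = Fintype.card P := by simp
    calc ∑ π, ∑ s, ‖Q.state (a (τ s π)) (t + 1) - Q.state (a π) (t + 1)‖ ^ 2
        ≤ ∑ π, ∑ s, (‖Q.state (a (τ s π)) t - Q.state (a π) t‖ ^ 2 +
          (4 / L + 2 * L * Q.wt (Q.rows row (loc (τ s (τ s π)))) (Q.state (a (τ s π)) t) +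
            2 * L * Q.wt (Q.rows row (loc (τ s π))) (Q.state (a π) t))) :=
          Finset.sum_le_sum fun π _ => Finset.sum_le_sum fun s _ => hstep π s
      _ = ∑ π, ∑ s, ‖Q.state (a (τ s π)) t - Q.state (a π) t‖ ^ 2 +
          ((Fintype.card P : ℝ) * (Fintype.card S : ℝ) * (4 / L) +
          2 * L * ∑ π, ∑ s, Q.wt (Q.rows row (loc (τ s (τ s π)))) (Q.state (a (τ s π)) t) +
          2 * L * ∑ π, ∑ s, Q.wt (Q.rows row (loc (τ s π))) (Q.state (a π) t)) := by
          simp only [Finset.sum_add_distrib, Finset.mul_sum, Finset.sum_const, Finset.card_univ,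
            nsmul_eq_mul]
          ring
      _ ≤ 8 * t * (Fintype.card P : ℝ) * L +
          ((Fintype.card P : ℝ) * (Fintype.card S : ℝ) * (4 / L) +
          2 * L * Fintype.card P + 2 * L * Fintype.card P) := by
          have g1 := mul_le_mul_of_nonneg_left hc1 (by positivity : 0 ≤ 2 * L)
          have g2 := mul_le_mul_of_nonneg_left hc2 (by positivity : 0 ≤ 2 * L)
          linarith
      _ = 8 * ((t + 1 : ℕ) : ℝ) * (Fintype.card P : ℝ) * L := by
          rw [hS]; push_cast; field_simp; ring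

end QAlg

end Pool.Agent.H17.QM
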