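import Pool.Agent.H17.QM.Defs

/-!
# Perturbation bounds for quantum query algorithms
-/

set_option autoImplicit false

namespace Pool.Agent.H17.QM

open scoped BigOperators

namespace QAlg

variable {κ : Type} (Q : QAlg κ)

@[simp] lemma oracle_apply (ph : κ → ℂ) (ψ : EuclideanSpace ℂ (Fin Q.dim)) (i : Fin Q.dim) :
    Q.oracle ph ψ i = Q.phase ph i * ψ i := rfl

lemma norm_phase {ph : κ → ℂ} (h : ∀ s, ‖ph s‖ = 1) (i : Fin Q.dim) : ‖Q.phase ph i‖ = 1 := by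
  unfold phase
  cases Q.query i with
  | none => simp
  | some s => exact h s

lemma norm_oracle {ph : κ → ℂ} (h : ∀ s, ‖ph s‖ = 1) (ψ : EuclideanSpace ℂ (Fin Q.dim)) :
    ‖Q.oracle ph ψ‖ = ‖ψ‖ := by
  rw [EuclideanSpace.norm_eq, EuclideanSpace.norm_eq]
  congr 1
  refine Finset.sum_congr rfl fun i _ => ?_
  rw [oracle_apply, norm_mul, Q.norm_phase h, one_mul]

lemma oracle_sub (ph : κ → ℂ) (ψ φ : EuclideanSpace ℂ (Fin Q.dim)) :
    Q.oracle ph ψ - Q.oracle ph φ = Q.oracle ph (ψ - φ) := by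
  ext i
  simp [mul_sub]

lemma norm_state {ph : κ → ℂ} (h : ∀ s, ‖ph s‖ = 1) (t : ℕ) : ‖Q.state ph t‖ = 1 := by
  induction t with
  | zero => rw [state, LinearIsometryEquiv.norm_map, Q.norm_init]
  | succ t ih => rw [state, LinearIsometryEquiv.norm_map, Q.norm_oracle h, ih]

/-- The basis states at which the two oracles differ. -/
noncomputable def diff (ph ph' : κ → ℂ) : Finset (Fin Q.dim) :=
  Finset.univ.filter fun i => Q.phase ph i ≠ Q.phase ph' i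

/-- Squared weight of a state on a set of basis states. -/
noncomputable def wt (S : Finset (Fin Q.dim)) (ψ : EuclideanSpace ℂ (Fin Q.dim)) : ℝ :=
  ∑ i ∈ S, ‖ψ i‖ ^ 2

lemma wt_nonneg (S : Finset (Fin Q.dim)) (ψ : EuclideanSpace ℂ (Fin Q.dim)) : 0 ≤ Q.wt S ψ :=
  Finset.sum_nonneg fun _ _ => by positivity

lemma wt_univ (ψ : EuclideanSpace ℂ (Fin Q.dim)) : Q.wt Finset.univ ψ = ‖ψ‖ ^ 2 := by
  rw [EuclideanSpace.norm_sq_eq]; rfl

lemma wt_mono {S S' : Finset (Fin Q.dim)} (h : S ⊆ S') (ψ : EuclideanSpace ℂ (Fin Q.dim)) :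
    Q.wt S ψ ≤ Q.wt S' ψ :=
  Finset.sum_le_sum_of_subset_of_nonneg h fun _ _ _ => by positivity

lemma wt_le (S : Finset (Fin Q.dim)) (ψ : EuclideanSpace ℂ (Fin Q.dim)) :
    Q.wt S ψ ≤ ‖ψ‖ ^ 2 := by
  rw [← wt_univ]; exact Q.wt_mono (Finset.subset_univ _) ψ

lemma norm_oracle_sub_sq {ph ph' : κ → ℂ} (h : ∀ s, ‖ph s‖ = 1) (h' : ∀ s, ‖ph' s‖ = 1)
    (ψ : EuclideanSpace ℂ (Fin Q.dim)) :
    ‖Q.oracle ph ψ - Q.oracle ph' ψ‖ ^ 2 ≤ 4 * Q.wt (Q.diff ph ph') ψ := by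
  rw [EuclideanSpace.norm_sq_eq, wt, Finset.mul_sum, ← Finset.sum_subset (Finset.subset_univ
    (Q.diff ph ph'))]
  · refine Finset.sum_le_sum fun i _ => ?_
    have : (Q.oracle ph ψ - Q.oracle ph' ψ) i = (Q.phase ph i - Q.phase ph' i) * ψ i := by
      simp [sub_mul]
    rw [this, norm_mul, mul_pow]
    have h2 : ‖Q.phase ph i - Q.phase ph' i‖ ≤ 2 := by
      calc _ ≤ ‖Q.phase ph i‖ + ‖Q.phase ph' i‖ := norm_sub_le _ _
        _ = 2 := by rw [Q.norm_phase h, Q.norm_phase h']; norm_num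
    have h3 : ‖Q.phase ph i - Q.phase ph' i‖ ^ 2 ≤ 4 := by nlinarith [norm_nonneg (Q.phase ph i - Q.phase ph' i)]
    exact mul_le_mul_of_nonneg_right h3 (by positivity)
  · intro i _ hi
    have : Q.phase ph i = Q.phase ph' i := by
      by_contra hne
      exact hi (by simp [diff, hne])
    simp [this]

/-- Hybrid bound. -/
lemma norm_state_sub {ph ph' : κ → ℂ} (h : ∀ s, ‖ph s‖ = 1) (h' : ∀ s, ‖ph' s‖ = 1) (t : ℕ) :
    ‖Q.state ph t - Q.state ph' t‖ ≤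
      ∑ s ∈ Finset.range t, Real.sqrt (4 * Q.wt (Q.diff ph ph') (Q.state ph' s)) := by
  induction t with
  | zero => simp [state]
  | succ t ih =>
    rw [state, state, ← map_sub, LinearIsometryEquiv.norm_map, Finset.sum_range_succ]
    have e : Q.oracle ph (Q.state ph t) - Q.oracle ph' (Q.state ph' t) =
        Q.oracle ph (Q.state ph t - Q.state ph' t) +
          (Q.oracle ph (Q.state ph' t) - Q.oracle ph' (Q.state ph' t)) := by
      rw [← oracle_sub]; abel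
    rw [e]
    refine (norm_add_le _ _).trans (add_le_add ?_ ?_)
    · rw [Q.norm_oracle h]; exact ih
    · exact Real.le_sqrt_of_sq_le (Q.norm_oracle_sub_sq h h' _)

lemma norm_state_sub_sq {ph ph' : κ → ℂ} (h : ∀ s, ‖ph s‖ = 1) (h' : ∀ s, ‖ph' s‖ = 1) (t : ℕ) :
    ‖Q.state ph t - Q.state ph' t‖ ^ 2 ≤
      4 * t * ∑ s ∈ Finset.range t, Q.wt (Q.diff ph ph') (Q.state ph' s) := by
  have h1 := Q.norm_state_sub h h' t
  have h2 : ‖Q.state ph t - Q.state ph' t‖ ^ 2 ≤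
      (∑ s ∈ Finset.range t, Real.sqrt (4 * Q.wt (Q.diff ph ph') (Q.state ph' s))) ^ 2 :=
    pow_le_pow_left₀ (norm_nonneg _) h1 2
  have h3 := sq_sum_le_card_mul_sum_sq (s := Finset.range t)
    (f := fun s => Real.sqrt (4 * Q.wt (Q.diff ph ph') (Q.state ph' s)))
  rw [Finset.card_range] at h3
  refine h2.trans (h3.trans (le_of_eq ?_))
  have h4 : ∀ s ∈ Finset.range t, Real.sqrt (4 * Q.wt (Q.diff ph ph') (Q.state ph' s)) ^ 2 =
      4 * Q.wt (Q.diff ph ph') (Q.state ph' s) := fun s _ =>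
    Real.sq_sqrt (mul_nonneg (by norm_num) (Q.wt_nonneg _ _))
  rw [Finset.sum_congr rfl h4, ← Finset.mul_sum]
  ring

lemma abs_wt_sub (S : Finset (Fin Q.dim)) {ψ φ : EuclideanSpace ℂ (Fin Q.dim)}
    (hψ : ‖ψ‖ = 1) (hφ : ‖φ‖ = 1) : |Q.wt S ψ - Q.wt S φ| ≤ 2 * ‖ψ - φ‖ := by
  have h0 : ∀ i, |‖ψ i‖ ^ 2 - ‖φ i‖ ^ 2| ≤ (‖ψ i‖ + ‖φ i‖) * ‖(ψ - φ) i‖ := by
    intro i
    have : ‖ψ i‖ ^ 2 - ‖φ i‖ ^ 2 = (‖ψ i‖ + ‖φ i‖) * (‖ψ i‖ - ‖φ i‖) := by ring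
    rw [this, abs_mul, abs_of_nonneg (by positivity)]
    refine mul_le_mul_of_nonneg_left ?_ (by positivity)
    simpa using abs_norm_sub_norm_le (ψ i) (φ i)
  have h1 : |Q.wt S ψ - Q.wt S φ| ≤ ∑ i, (‖ψ i‖ + ‖φ i‖) * ‖(ψ - φ) i‖ := by
    rw [wt, wt, ← Finset.sum_sub_distrib]
    refine (Finset.abs_sum_le_sum_abs _ _).trans ?_
    refine (Finset.sum_le_sum fun i _ => h0 i).trans ?_
    exact Finset.sum_le_sum_of_subset_of_nonneg (Finset.subset_univ _)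
      fun _ _ _ => by positivity
  have h2 : ∀ χ : EuclideanSpace ℂ (Fin Q.dim), ‖χ‖ = 1 →
      ∑ i, ‖χ i‖ * ‖(ψ - φ) i‖ ≤ ‖ψ - φ‖ := by
    intro χ hχ
    have := Real.sum_mul_le_sqrt_mul_sqrt Finset.univ (fun i => ‖χ i‖) (fun i => ‖(ψ - φ) i‖)
    rw [← EuclideanSpace.norm_eq, ← EuclideanSpace.norm_eq, hχ, one_mul] at this
    exact this
  calc |Q.wt S ψ - Q.wt S φ| ≤ ∑ i, (‖ψ i‖ + ‖φ i‖) * ‖(ψ - φ) i‖ := h1
    _ = (∑ i, ‖ψ i‖ * ‖(ψ - φ) i‖) + ∑ i, ‖φ i‖ * ‖(ψ - φ) i‖ := by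
      rw [← Finset.sum_add_distrib]; exact Finset.sum_congr rfl fun i _ => by ring
    _ ≤ ‖ψ - φ‖ + ‖ψ - φ‖ := add_le_add (h2 ψ hψ) (h2 φ hφ)
    _ = 2 * ‖ψ - φ‖ := by ring

lemma abs_prob_sub {ph ph' : κ → ℂ} (h : ∀ s, ‖ph s‖ = 1) (h' : ∀ s, ‖ph' s‖ = 1) :
    |Q.prob ph - Q.prob ph'| ≤ 2 * ‖Q.state ph Q.T - Q.state ph' Q.T‖ :=
  Q.abs_wt_sub Q.acc (Q.norm_state h _) (Q.norm_state h' _)

/-- The acceptance probability only depends on the values of the oracle at the queries. -/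
lemma prob_congr {ph ph' : κ → ℂ} (h : ∀ i s, Q.query i = some s → ph s = ph' s) :
    Q.prob ph = Q.prob ph' := by
  have h1 : ∀ i, Q.phase ph i = Q.phase ph' i := by
    intro i
    unfold phase
    cases hq : Q.query i with
    | none => rfl
    | some s => exact h i s hq
  have h2 : ∀ t, Q.state ph t = Q.state ph' t := by
    intro t
    induction t with
    | zero => rfl
    | succ t ih =>
      rw [state, state, ih]
      congr 1
      ext i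
      simp [h1]
  simp [prob, h2]

end QAlg

end Pool.Agent.H17.QM
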