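import Pool.Agent.H17.QM.MartProb
import Pool.Agent.H17.QM.Strings
import Pool.Agent.H17.QM.Adv

/-!
# Betting strategies: measurability, locality of the history
-/

set_option autoImplicit false

namespace Pool.Agent.H17.QM

open MeasureTheory Filter

lemma measurable_choice {Ω : Type*} [MeasurableSpace Ω] {α : Type*} [Countable α] (h : Ω → α)
    (hh : ∀ a, MeasurableSet (h ⁻¹' {a})) (G : α → Ω → ℝ) (hG : ∀ a, Measurable (G a)) :
    Measurable fun ω => G (h ω) ω := by
  intro T hT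
  have : (fun ω => G (h ω) ω) ⁻¹' T = ⋃ a, (h ⁻¹' {a} ∩ (G a) ⁻¹' T) := by
    ext ω
    simp
  rw [this]
  exact MeasurableSet.iUnion fun a => (hh a).inter (hG a hT)

lemma length_hist (L : Set (List Bool)) (N : ℕ) : (hist L N).length = N := by
  simp [hist]

lemma hist_congr {L L' : Set (List Bool)} {N : ℕ} (h : ∀ j < N, str j ∈ L ↔ str j ∈ L') :
    hist L N = hist L' N := by
  unfold hist
  congr 1
  funext j
  exact decide_eq_decide.2 (h j j.2)

lemma measurableSet_hist {Ω : Type*} [MeasurableSpace Ω] {L : Ω → Set (List Bool)}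
    (hL : ∀ j, MeasurableSet {ω | str j ∈ L ω}) (N : ℕ) (w : List Bool) :
    MeasurableSet ((fun ω => hist (L ω) N) ⁻¹' {w}) := by
  classical
  have hm : Measurable fun (ω : Ω) (j : Fin N) => decide (str j ∈ L ω) := by
    refine measurable_pi_lambda _ fun j => measurable_to_bool ?_
    have : (fun ω => decide (str j ∈ L ω)) ⁻¹' {true} = {ω | str j ∈ L ω} := by
      ext ω; simp
    rw [this]
    exact hL j
  have e : (fun ω => hist (L ω) N) ⁻¹' {w} =
      (fun (ω : Ω) (j : Fin N) => decide (str j ∈ L ω)) ⁻¹' {v | List.ofFn v = w} := by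
    ext ω
    simp only [Set.mem_preimage, Set.mem_singleton_iff, Set.mem_ofPred_eq, hist]
  rw [e]
  exact hm (Set.toFinite _).measurableSet

namespace Strategy

variable {κ : Type} (S : Strategy κ)

lemma exists_lip : ∃ Λ : ℝ, 0 ≤ Λ ∧ ∀ w p q, |S.g w p - S.g w q| ≤ Λ * |p - q| := by
  obtain ⟨Λ, hΛ⟩ := S.lip
  refine ⟨max Λ 0, le_max_right _ _, fun w p q => (hΛ w p q).trans ?_⟩
  exact mul_le_mul_of_nonneg_right (le_max_left _ _) (abs_nonneg _)

lemma measurable_g (w : List Bool) : Measurable (S.g w) := by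
  obtain ⟨Λ, hΛ0, hΛ⟩ := S.exists_lip
  have : LipschitzWith ⟨Λ, hΛ0⟩ (S.g w) := LipschitzWith.of_dist_le_mul fun p q => by
    rw [Real.dist_eq, Real.dist_eq]
    exact hΛ w p q
  exact this.continuous.measurable

end Strategy

/-- The sign of membership. -/
noncomputable def sgn {Ω : Type*} (L : Ω → Set (List Bool)) (j : ℕ) (ω : Ω) : ℝ := by
  classical
  exact if str j ∈ L ω then 1 else -1

lemma sgn_or {Ω : Type*} (L : Ω → Set (List Bool)) (j : ℕ) (ω : Ω) :
    sgn L j ω = 1 ∨ sgn L j ω = -1 := by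
  unfold sgn
  split_ifs
  · exact Or.inl rfl
  · exact Or.inr rfl

lemma sgn_eq_iff {Ω : Type*} (L : Ω → Set (List Bool)) (j : ℕ) (ω ω' : Ω) :
    sgn L j ω = sgn L j ω' ↔ (str j ∈ L ω ↔ str j ∈ L ω') := by
  unfold sgn
  by_cases h1 : str j ∈ L ω <;> by_cases h2 : str j ∈ L ω' <;> simp [h1, h2] <;> norm_num

lemma measurable_sgn {Ω : Type*} [MeasurableSpace Ω] {L : Ω → Set (List Bool)}
    (hL : ∀ j, MeasurableSet {ω | str j ∈ L ω}) (j : ℕ) : Measurable (sgn L j) := by
  classical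
  have : sgn L j = fun ω => if ω ∈ {ω | str j ∈ L ω} then (1 : ℝ) else -1 := by
    funext ω
    unfold sgn
    congr
  rw [this]
  exact Measurable.ite (hL j) measurable_const measurable_const

lemma capital_eq {Ω : Type*} {κ : Type} (S : Strategy κ) (ph : Ω → κ → ℂ)
    (L : Ω → Set (List Bool)) (N : ℕ) (ω : Ω) :
    S.capital (ph ω) (L ω) N =
      ∏ j ∈ Finset.range N, (1 + S.bet (ph ω) (hist (L ω) j) * sgn L j ω) := by
  unfold Strategy.capital sgn
  refine Finset.prod_congr rfl fun j _ => ?_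
  congr

/-- The numerical estimate for the sum of the errors. -/
lemma summable_eps (c : ℝ) (hc : 0 ≤ c) :
    Summable fun N : ℕ => ((N : ℝ) + 3) * (c / ((N : ℝ) + 1) ^ 3) := by
  refine Summable.of_nonneg_of_le (fun N => by positivity) (fun N => ?_) (summable_rk (3 * c))
  have h : (N : ℝ) + 3 ≤ 3 * ((N : ℝ) + 1) := by
    have : (0 : ℝ) ≤ N := Nat.cast_nonneg _
    linarith
  calc ((N : ℝ) + 3) * (c / ((N : ℝ) + 1) ^ 3)
      ≤ (3 * ((N : ℝ) + 1)) * (c / ((N : ℝ) + 1) ^ 3) :=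
        mul_le_mul_of_nonneg_right h (by positivity)
    _ = 3 * c / ((N : ℝ) + 1) ^ 2 := by
        have : (N : ℝ) + 1 ≠ 0 := by positivity
        field_simp

end Pool.Agent.H17.QM
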