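import Mathlib

/-!
# Quantum oracle machines, betting strategies, random oracles: the definitions

All definitions used in the statements about `NP` (or `UP ∩ coUP`) and quantum machines relative
to random oracles.
-/

set_option autoImplicit false

namespace Pool.Agent.H17.QM

open MeasureTheory

/-! ### Quantum query algorithms -/

/-- A quantum query algorithm for an oracle that answers queries `s : κ` by phases. The (finite)
computational basis is `Fin dim`; the basis state `i` queries the oracle at `query i` (`none` = no
query). The algorithm starts in the unit vector `init`, applies `U 0`, and then `T` times a query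
followed by `U t`, `t = 1, …, T`; finally it measures in the computational basis and accepts iff
the outcome lies in `acc`. -/
structure QAlg (κ : Type) where
  /-- dimension of the state space -/
  dim : ℕ
  /-- the query made by each basis state -/
  query : Fin dim → Option κ
  /-- number of queries -/
  T : ℕ
  /-- the unitaries between the queries -/
  U : ℕ → (EuclideanSpace ℂ (Fin dim) ≃ₗᵢ[ℂ] EuclideanSpace ℂ (Fin dim))
  /-- the initial state -/
  init : EuclideanSpace ℂ (Fin dim)
  norm_init : ‖init‖ = 1
  /-- the accepting basis states -/
  acc : Finset (Fin dim)

namespace QAlg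

variable {κ : Type} (Q : QAlg κ)

/-- The phase by which the oracle `ph` multiplies the basis state `i`. -/
noncomputable def phase (ph : κ → ℂ) (i : Fin Q.dim) : ℂ :=
  match Q.query i with
  | none => 1
  | some s => ph s

/-- The oracle operator. -/
noncomputable def oracle (ph : κ → ℂ) (ψ : EuclideanSpace ℂ (Fin Q.dim)) :
    EuclideanSpace ℂ (Fin Q.dim) :=
  WithLp.toLp 2 fun i => Q.phase ph i * ψ i

/-- The state after `t` queries. -/
noncomputable def state (ph : κ → ℂ) : ℕ → EuclideanSpace ℂ (Fin Q.dim)
  | 0 => Q.U 0 Q.init
  | t + 1 => Q.U (t + 1) (Q.oracle ph (state ph t))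

/-- The acceptance probability. -/
noncomputable def prob (ph : κ → ℂ) : ℝ := ∑ i ∈ Q.acc, ‖Q.state ph Q.T i‖ ^ 2

end QAlg

/-! ### The enumeration of the strings and betting strategies -/

/-- The rank of a string in the length-lexicographic order (`false` before `true`): the empty
string has rank `0`, and `x0`, `x1` have ranks `2 * rk x + 1`, `2 * rk x + 2`. -/
def rk (x : List Bool) : ℕ := x.foldl (fun n b => 2 * n + if b then 2 else 1) 0

@[simp] lemma rk_nil : rk [] = 0 := rfl

lemma rk_concat (x : List Bool) (b : Bool) : rk (x ++ [b]) = 2 * rk x + if b then 2 else 1 := by
  simp [rk, List.foldl_append]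

lemma rk_injective : Function.Injective rk := by
  intro x
  induction x using List.reverseRecOn with
  | nil =>
    intro y h
    induction y using List.reverseRecOn with
    | nil => rfl
    | append_singleton y b _ => rw [rk_nil, rk_concat] at h; split_ifs at h <;> omega
  | append_singleton x a ih =>
    intro y h
    induction y using List.reverseRecOn with
    | nil => rw [rk_nil, rk_concat] at h; split_ifs at h <;> omega
    | append_singleton y b _ =>
      rw [rk_concat, rk_concat] at h
      have h1 : a = b := by
        cases a <;> cases b <;> simp at h ⊢ <;> omega
      subst h1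
      have h2 : rk x = rk y := by omega
      rw [ih h2]

lemma rk_surjective : Function.Surjective rk := by
  intro N
  induction N using Nat.strong_induction_on with
  | _ N ih =>
    rcases Nat.eq_zero_or_pos N with h | h
    · exact ⟨[], by rw [rk_nil, h]⟩
    · obtain ⟨x, hx⟩ := ih ((N - 1) / 2) (by omega)
      rcases Nat.even_or_odd' N with ⟨M, hM | hM⟩
      · exact ⟨x ++ [true], by rw [rk_concat, hx]; simp; omega⟩
      · exact ⟨x ++ [false], by rw [rk_concat, hx]; simp; omega⟩

/-- The rank as an equivalence; `rkE.symm N` is the `N`-th string. -/
noncomputable def rkE : List Bool ≃ ℕ := Equiv.ofBijective rk ⟨rk_injective, rk_surjective⟩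

/-- The `N`-th string in the length-lexicographic order, `N = 0, 1, 2, …`. -/
noncomputable def str (N : ℕ) : List Bool := rkE.symm N

open Classical in
/-- The history: the first `N` bits of the characteristic sequence of the language `L`. -/
noncomputable def hist (L : Set (List Bool)) (N : ℕ) : List Bool :=
  List.ofFn fun j : Fin N => decide (str j ∈ L)

/-- A quantum betting strategy. Given the history `w` (the first `|w|` bits of the characteristic
sequence of a language) it bets on whether the next string, `str |w|`, belongs to the language;
the bet is a Lipschitz function of the acceptance probability of the quantum algorithm `alg w`. -/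
structure Strategy (κ : Type) where
  /-- the quantum algorithm used on the history `w` -/
  alg : List Bool → QAlg κ
  /-- the function that turns the acceptance probability into a bet -/
  g : List Bool → ℝ → ℝ
  lip : ∃ Λ : ℝ, ∀ w p q, |g w p - g w q| ≤ Λ * |p - q|
  bound : ∀ w p, |g w p| ≤ 1

namespace Strategy

variable {κ : Type} (S : Strategy κ)

/-- The bet: the fraction of the capital put on membership of `str |w|` (on non-membership if it
is negative). -/
noncomputable def bet (ph : κ → ℂ) (w : List Bool) : ℝ := S.g w ((S.alg w).prob ph)

open Classical in
/-- The capital after betting against the language `L` on the first `N` strings, starting with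
capital `1`: fair betting at even odds. -/
noncomputable def capital (ph : κ → ℂ) (L : Set (List Bool)) (N : ℕ) : ℝ :=
  ∏ j ∈ Finset.range N, (1 + S.bet ph (hist L j) * if str j ∈ L then 1 else -1)

/-- The strategy makes at most `C * 2 ^ t n` queries when it bets on a string of length `n`. -/
def QueryBound (t : ℕ → ℕ) : Prop :=
  ∃ C : ℕ, ∀ w, (S.alg w).T ≤ C * 2 ^ t (str w.length).length

end Strategy

/-! ### Uniform distributions -/

/-- The uniform distribution on a finite type. -/
noncomputable def unif (α : Type*) [Fintype α] [Nonempty α] [MeasurableSpace α] : Measure α :=
  (PMF.uniformOfFintype α).toMeasure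

instance (α : Type*) [Fintype α] [Nonempty α] [MeasurableSpace α] :
    IsProbabilityMeasure (unif α) := by unfold unif; infer_instance

/-! ### The random oracle -/

/-- The distribution of a random oracle: independent fair coins indexed by `κ`. -/
noncomputable def coins (κ : Type*) : Measure (κ → Bool) := Measure.infinitePi fun _ => unif Bool

/-- The phase oracle of a set of strings: `-1` on members, `1` otherwise. -/
noncomputable def ph {κ : Type} (A : κ → Bool) (s : κ) : ℂ := if A s then -1 else 1

/-- Each bit `b` is replaced by `1b`. -/
def dbl (x : List Bool) : List Bool := x.flatMap fun b => [true, b]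

/-- The query string of the triple `(x, y, i)`: `x` with each bit `b` written `1b`, then `0`,
then `y` with each bit written `1b`, then `0`, then `i` ones. -/
def code (x y : List Bool) (i : ℕ) : List Bool :=
  dbl x ++ false :: (dbl y ++ false :: List.replicate i true)

/-- The number of queries that check a witness for an input of length `n`. -/
def wlen (t : ℕ → ℕ) (n : ℕ) : ℕ := 2 * t n + 8 * n + 1

/-- The number of possible witnesses for an input of length `n`. -/
noncomputable def wnum (t : ℕ → ℕ) (n : ℕ) : ℕ := ⌊(2 : ℝ) ^ wlen t n * Real.log 2⌋₊

/-- The `NP^A` language: `x` is a member iff there is a witness `y`, one of the first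
`wnum t |x|` strings, such that the oracle contains all the strings `code x y i`,
`i < wlen t |x|`. -/
def lang (t : ℕ → ℕ) (A : List Bool → Bool) : Set (List Bool) :=
  {x | ∃ y : List Bool, rk y < wnum t x.length ∧
    ∀ i < wlen t x.length, A (code x y i) = true}

/-! ### The random permutation oracle -/

/-- The permutations of the strings of length `m`. -/
abbrev PermT (m : ℕ) : Type := Equiv.Perm (Fin m → Bool)

/-- All sets of permutations are measurable. -/
instance instMeasurableSpacePermT (m : ℕ) : MeasurableSpace (PermT m) := ⊤

/-- The number of bits of the strings permuted by the `x`-th permutation, `|x| = n`. -/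
abbrev plen (t : ℕ → ℕ) (n : ℕ) : ℕ := 2 * (t n + 8 * n) + 1

/-- A permutation oracle: for every string `x` a permutation of the strings of length
`plen t |x|`. -/
abbrev POracle (t : ℕ → ℕ) : Type := ∀ x : List Bool, PermT (plen t x.length)

/-- The distribution of a random permutation oracle: independent uniform permutations. -/
noncomputable def permOracle (t : ℕ → ℕ) : Measure (POracle t) :=
  Measure.infinitePi fun x => unif (PermT (plen t x.length))

/-- The queries: `(x, z, c)`. -/
abbrev PQuery (t : ℕ → ℕ) : Type :=
  Σ x : List Bool, (Fin (plen t x.length) → Bool) × (Fin (plen t x.length) → Bool)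

/-- The answer to the query `(x, z, c)`: the phase `(-1) ^ (c · π_x(z))`. -/
noncomputable def php {t : ℕ → ℕ} (π : POracle t) (q : PQuery t) : ℂ :=
  ∏ i, if q.2.2 i = true ∧ π q.1 q.2.1 i = true then -1 else 1

/-- The preimage of the zero string. -/
def loc {m : ℕ} (π : PermT m) : Fin m → Bool := Equiv.symm π fun _ => false

/-- The `UP^π ∩ coUP^π` language: `x` is a member iff the first bit of the preimage of `0…0`
under `π_x` is `1`. -/
def plang (t : ℕ → ℕ) (π : POracle t) : Set (List Bool) :=
  {x | loc (π x) (0 : Fin (2 * (t x.length + 8 * x.length) + 1)) = true}

end Pool.Agent.H17.QM
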