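import Mathlib

/-!
# Almost-martingales with bounded bets do not blow up

`b j` is the bet at time `j`, `s j = ±1` the outcome. If the outcome `s N` is almost uncorrelated
with every bounded function that depends on the bets up to time `N` in a Lipschitz way, then
almost surely the capital `∏ (1 + b j s j)` stays bounded.
-/

set_option autoImplicit false

namespace Pool.Agent.H17.QM

open MeasureTheory Filter Topology

/-! ### Deterministic part -/

/-- `log` of the capital with halved bets, started at time `n`. -/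
noncomputable def ell (n : ℕ) (b s : ℕ → ℝ) (j : ℕ) : ℝ :=
  ∑ i ∈ Finset.Ico n j, Real.log (1 + b i * s i / 2)

/-- The cut-off. -/
noncomputable def chi (l x : ℝ) : ℝ := max (min (x - l) 1) 0

lemma chi_nonneg (l x : ℝ) : 0 ≤ chi l x := le_max_right _ _

lemma chi_le_one (l x : ℝ) : chi l x ≤ 1 := max_le (min_le_right _ _) zero_le_one

lemma chi_eq_one {l x : ℝ} (h : l + 1 ≤ x) : chi l x = 1 := by
  rw [chi, min_eq_right (by linarith)]
  exact max_eq_left zero_le_one

lemma chi_eq_zero {l x : ℝ} (h : x ≤ l) : chi l x = 0 :=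
  max_eq_right ((min_le_left _ _).trans (by linarith))

lemma lt_of_chi_pos {l x : ℝ} (h : 0 < chi l x) : l < x := by
  by_contra hle
  rw [chi_eq_zero (not_lt.1 hle)] at h
  exact lt_irrefl _ h

lemma lt_of_chi_ne_one {l x : ℝ} (h : chi l x ≠ 1) : x < l + 1 := by
  by_contra hle
  exact h (chi_eq_one (not_lt.1 hle))

lemma abs_chi_sub (l x y : ℝ) : |chi l x - chi l y| ≤ |x - y| := by
  calc |chi l x - chi l y| ≤ |min (x - l) 1 - min (y - l) 1| := abs_max_sub_max_le_abs _ _ _
    _ ≤ |(x - l) - (y - l)| := by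
        refine (abs_min_sub_min_le_max _ _ _ _).trans ?_
        simp
    _ = |x - y| := by congr 1; ring

/-- The product of the cut-offs. -/
noncomputable def cutP (l : ℝ) (n : ℕ) (b s : ℕ → ℝ) (j : ℕ) : ℝ :=
  ∏ i ∈ Finset.Ico n j, (1 - chi l (ell n b s i))

/-- The damped stake at time `N`. -/
noncomputable def theta (l : ℝ) (n : ℕ) (b s : ℕ → ℝ) (N : ℕ) : ℝ :=
  cutP l n b s N * ((1 - chi l (ell n b s N)) * Real.exp (ell n b s N)) * b N

lemma cutP_nonneg (l : ℝ) (n : ℕ) (b s : ℕ → ℝ) (j : ℕ) : 0 ≤ cutP l n b s j :=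
  Finset.prod_nonneg fun i _ => sub_nonneg.2 (chi_le_one _ _)

lemma cutP_le_one (l : ℝ) (n : ℕ) (b s : ℕ → ℝ) (j : ℕ) : cutP l n b s j ≤ 1 :=
  Finset.prod_le_one (fun i _ => sub_nonneg.2 (chi_le_one _ _))
    fun i _ => by linarith [chi_nonneg l (ell n b s i)]

lemma damp_nonneg (l x : ℝ) : 0 ≤ (1 - chi l x) * Real.exp x :=
  mul_nonneg (sub_nonneg.2 (chi_le_one _ _)) (Real.exp_pos _).le

lemma damp_le (l x : ℝ) : (1 - chi l x) * Real.exp x ≤ Real.exp (l + 1) := by
  by_cases h : chi l x = 1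
  · rw [h, sub_self, zero_mul]; exact (Real.exp_pos _).le
  · have hx := lt_of_chi_ne_one h
    calc (1 - chi l x) * Real.exp x ≤ 1 * Real.exp (l + 1) :=
          mul_le_mul (by linarith [chi_nonneg l x]) (Real.exp_le_exp.2 hx.le)
            (Real.exp_pos _).le zero_le_one
      _ = _ := one_mul _

lemma abs_exp_sub_le {x y c : ℝ} (hx : x ≤ c) (hy : y ≤ c) :
    |Real.exp x - Real.exp y| ≤ Real.exp c * |x - y| := by
  wlog h : x ≤ y generalizing x y
  · rw [abs_sub_comm, abs_sub_comm x y]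
    exact this hy hx (le_of_not_ge h)
  rw [abs_sub_comm, abs_of_nonneg (sub_nonneg.2 (Real.exp_le_exp.2 h)), abs_sub_comm,
    abs_of_nonneg (sub_nonneg.2 h)]
  have h1 : x - y + 1 ≤ Real.exp (x - y) := Real.add_one_le_exp _
  have h2 : Real.exp x = Real.exp y * Real.exp (x - y) := by
    rw [← Real.exp_add]; congr 1; ring
  have h3 : Real.exp y ≤ Real.exp c := Real.exp_le_exp.2 hy
  rw [h2]
  calc Real.exp y - Real.exp y * Real.exp (x - y) = Real.exp y * (1 - Real.exp (x - y)) := by ring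
    _ ≤ Real.exp y * (y - x) :=
        mul_le_mul_of_nonneg_left (by linarith) (Real.exp_pos _).le
    _ ≤ Real.exp c * (y - x) := mul_le_mul_of_nonneg_right h3 (by linarith)

lemma abs_damp_sub (l x y : ℝ) :
    |(1 - chi l x) * Real.exp x - (1 - chi l y) * Real.exp y| ≤
      2 * Real.exp (l + 1) * |x - y| := by
  wlog h : x ≤ y generalizing x y
  · rw [abs_sub_comm, abs_sub_comm x y]
    exact this y x (le_of_not_ge h)
  by_cases hx : l + 1 ≤ x
  · rw [chi_eq_one hx, chi_eq_one (hx.trans h)]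
    simp only [sub_self, zero_mul, abs_zero]
    positivity
  push Not at hx
  -- replace `y` by its minimum with `l + 1`
  obtain ⟨z, hz1, hz2, hz3, hz4⟩ : ∃ z, z ≤ l + 1 ∧ x ≤ z ∧ z ≤ y ∧
      (1 - chi l y) * Real.exp y = (1 - chi l z) * Real.exp z := by
    by_cases hy : y ≤ l + 1
    · exact ⟨y, hy, h, le_rfl, rfl⟩
    · push Not at hy
      refine ⟨l + 1, le_rfl, hx.le, hy.le, ?_⟩
      rw [chi_eq_one hy.le, chi_eq_one le_rfl]
      simp
  rw [hz4]
  have e : (1 - chi l x) * Real.exp x - (1 - chi l z) * Real.exp z =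
      (1 - chi l x) * (Real.exp x - Real.exp z) + (chi l z - chi l x) * Real.exp z := by ring
  rw [e]
  have h1 : |(1 - chi l x) * (Real.exp x - Real.exp z)| ≤ Real.exp (l + 1) * |x - z| := by
    rw [abs_mul, abs_of_nonneg (sub_nonneg.2 (chi_le_one l x))]
    calc (1 - chi l x) * |Real.exp x - Real.exp z| ≤ 1 * (Real.exp (l + 1) * |x - z|) :=
          mul_le_mul (by linarith [chi_nonneg l x]) (abs_exp_sub_le hx.le hz1) (abs_nonneg _)
            zero_le_one
      _ = _ := one_mul _
  have h2 : |(chi l z - chi l x) * Real.exp z| ≤ |x - z| * Real.exp (l + 1) := by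
    rw [abs_mul, abs_of_pos (Real.exp_pos z)]
    refine mul_le_mul ?_ (Real.exp_le_exp.2 hz1) (Real.exp_pos _).le (abs_nonneg _)
    rw [abs_sub_comm x z]
    exact abs_chi_sub l z x
  have h3 : |x - z| ≤ |x - y| := by
    rw [abs_sub_comm x z, abs_sub_comm x y, abs_of_nonneg (sub_nonneg.2 hz2),
      abs_of_nonneg (sub_nonneg.2 h)]
    linarith
  refine (abs_add_le _ _).trans ?_
  have h4 : Real.exp (l + 1) * |x - z| ≤ Real.exp (l + 1) * |x - y| :=
    mul_le_mul_of_nonneg_left h3 (Real.exp_pos _).le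
  have h5 : |x - z| * Real.exp (l + 1) = Real.exp (l + 1) * |x - z| := mul_comm _ _
  linarith

section Det

variable {b b' s : ℕ → ℝ} (hb : ∀ j, |b j| ≤ 1) (hb' : ∀ j, |b' j| ≤ 1)
  (hs : ∀ j, s j = 1 ∨ s j = -1)

include hs in
lemma abs_mul_s (x : ℝ) (j : ℕ) : |x * s j| = |x| := by
  rcases hs j with h | h <;> simp [h]

include hb hs in
lemma half_bounds (j : ℕ) : 1 / 2 ≤ 1 + b j * s j / 2 ∧ 1 + b j * s j / 2 ≤ 3 / 2 := by
  have h := abs_mul_s hs (b j) j
  have h1 := hb j
  rw [← h] at h1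
  have := abs_le.1 h1
  constructor <;> linarith [this.1, this.2]

include hb hb' hs in
lemma abs_log_sub (j : ℕ) :
    |Real.log (1 + b j * s j / 2) - Real.log (1 + b' j * s j / 2)| ≤ |b j - b' j| := by
  have hB := half_bounds hb hs j
  have hB' := half_bounds hb' hs j
  have key : ∀ u v : ℝ, 1 / 2 ≤ u → 1 / 2 ≤ v → Real.log u - Real.log v ≤ 2 * |u - v| := by
    intro u v hu hv
    rw [← Real.log_div (by linarith) (by linarith)]
    have h1 : Real.log (u / v) ≤ u / v - 1 := Real.log_le_sub_one_of_pos (by positivity)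
    have h2 : u / v - 1 = (u - v) / v := by field_simp
    have h3 : (u - v) / v ≤ |u - v| / v := by
      gcongr; exact le_abs_self _
    have h4 : |u - v| / v ≤ 2 * |u - v| := by
      rw [div_le_iff₀ (by linarith)]
      nlinarith [abs_nonneg (u - v)]
    linarith
  have e : (1 + b j * s j / 2) - (1 + b' j * s j / 2) = (b j - b' j) * s j / 2 := by ring
  have e2 : |(1 + b j * s j / 2) - (1 + b' j * s j / 2)| = |b j - b' j| / 2 := by
    rw [e, abs_div, abs_mul_s hs]; norm_num
  rw [abs_le]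
  constructor
  · have := key _ _ hB'.1 hB.1
    rw [abs_sub_comm, e2] at this
    linarith
  · have := key _ _ hB.1 hB'.1
    rw [e2] at this
    linarith

include hb hb' hs in
lemma abs_ell_sub {n j N : ℕ} (hj : j ≤ N) :
    |ell n b s j - ell n b' s j| ≤ ∑ i ∈ Finset.range N, |b i - b' i| := by
  rw [ell, ell, ← Finset.sum_sub_distrib]
  refine (Finset.abs_sum_le_sum_abs _ _).trans ?_
  refine (Finset.sum_le_sum fun i _ => abs_log_sub hb hb' hs i).trans ?_
  refine Finset.sum_le_sum_of_subset_of_nonneg (fun i hi => ?_) fun _ _ _ => abs_nonneg _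
  rw [Finset.mem_Ico] at hi
  exact Finset.mem_range.2 (by omega)

lemma abs_prod_sub_prod_le' {a b : ℕ → ℝ} (s : Finset ℕ) (ha0 : ∀ j, 0 ≤ a j)
    (ha1 : ∀ j, a j ≤ 1) (hb0 : ∀ j, 0 ≤ b j) (hb1 : ∀ j, b j ≤ 1) :
    |∏ j ∈ s, a j - ∏ j ∈ s, b j| ≤ ∑ j ∈ s, |a j - b j| := by
  classical
  induction s using Finset.induction_on with
  | empty => simp
  | insert i s hi ih =>
    rw [Finset.prod_insert hi, Finset.prod_insert hi, Finset.sum_insert hi]
    have hA : |∏ j ∈ s, a j| ≤ 1 := by
      rw [abs_of_nonneg (Finset.prod_nonneg fun j _ => ha0 j)]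
      exact Finset.prod_le_one (fun j _ => ha0 j) fun j _ => ha1 j
    have hB : |b i| ≤ 1 := by rw [abs_of_nonneg (hb0 i)]; exact hb1 i
    have e : a i * ∏ j ∈ s, a j - b i * ∏ j ∈ s, b j =
        (a i - b i) * ∏ j ∈ s, a j + b i * (∏ j ∈ s, a j - ∏ j ∈ s, b j) := by ring
    rw [e]
    refine (abs_add_le _ _).trans ?_
    rw [abs_mul, abs_mul]
    have h1 : |a i - b i| * |∏ j ∈ s, a j| ≤ |a i - b i| :=
      mul_le_of_le_one_right (abs_nonneg _) hA
    have h2 : |b i| * |∏ j ∈ s, a j - ∏ j ∈ s, b j| ≤ ∑ j ∈ s, |a j - b j| :=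
      (mul_le_of_le_one_left (abs_nonneg _) hB).trans ih
    linarith

include hb hb' hs in
lemma abs_cutP_sub (l : ℝ) (n N : ℕ) :
    |cutP l n b s N - cutP l n b' s N| ≤ N * ∑ i ∈ Finset.range N, |b i - b' i| := by
  have h1 := abs_prod_sub_prod_le' (a := fun i => 1 - chi l (ell n b s i))
    (b := fun i => 1 - chi l (ell n b' s i)) (Finset.Ico n N)
    (fun i => sub_nonneg.2 (chi_le_one _ _)) (fun i => by linarith [chi_nonneg l (ell n b s i)])
    (fun i => sub_nonneg.2 (chi_le_one _ _)) (fun i => by linarith [chi_nonneg l (ell n b' s i)])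
  have hS : 0 ≤ ∑ i ∈ Finset.range N, |b i - b' i| := Finset.sum_nonneg fun _ _ => abs_nonneg _
  calc |cutP l n b s N - cutP l n b' s N|
      ≤ ∑ i ∈ Finset.Ico n N, |(1 - chi l (ell n b s i)) - (1 - chi l (ell n b' s i))| := h1
    _ ≤ ∑ _i ∈ Finset.Ico n N, ∑ i ∈ Finset.range N, |b i - b' i| := by
        refine Finset.sum_le_sum fun i hi => ?_
        have e : (1 - chi l (ell n b s i)) - (1 - chi l (ell n b' s i)) =
            chi l (ell n b' s i) - chi l (ell n b s i) := by ring
        rw [e]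
        refine (abs_chi_sub _ _ _).trans ?_
        rw [abs_sub_comm]
        exact abs_ell_sub hb hb' hs (Finset.mem_Ico.1 hi).2.le
    _ = ((N - n : ℕ) : ℝ) * ∑ i ∈ Finset.range N, |b i - b' i| := by
        rw [Finset.sum_const, Nat.card_Ico, nsmul_eq_mul]
    _ ≤ N * ∑ i ∈ Finset.range N, |b i - b' i| := by
        refine mul_le_mul_of_nonneg_right ?_ hS
        exact_mod_cast Nat.sub_le _ _

include hb in
lemma abs_theta_le (l : ℝ) (n N : ℕ) : |theta l n b s N| ≤ Real.exp (l + 1) := by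
  rw [theta, abs_mul, abs_of_nonneg (mul_nonneg (cutP_nonneg _ _ _ _ _) (damp_nonneg _ _))]
  calc cutP l n b s N * ((1 - chi l (ell n b s N)) * Real.exp (ell n b s N)) * |b N|
      ≤ 1 * Real.exp (l + 1) * 1 := by
        refine mul_le_mul (mul_le_mul (cutP_le_one _ _ _ _ _) (damp_le _ _) (damp_nonneg _ _)
          zero_le_one) (hb N) (abs_nonneg _) (by positivity)
    _ = _ := by ring

include hb hb' hs in
lemma abs_theta_sub (l : ℝ) (n N : ℕ) :
    |theta l n b s N - theta l n b' s N| ≤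
      (((N : ℝ) + 3) * Real.exp (l + 1)) * ∑ i ∈ Finset.range (N + 1), |b i - b' i| := by
  set B := Real.exp (l + 1) with hB
  have hB0 : 0 < B := Real.exp_pos _
  set S := ∑ i ∈ Finset.range N, |b i - b' i| with hS
  have hS0 : 0 ≤ S := Finset.sum_nonneg fun _ _ => abs_nonneg _
  rw [Finset.sum_range_succ, ← hS]
  set P := cutP l n b s N
  set P' := cutP l n b' s N
  set E := (1 - chi l (ell n b s N)) * Real.exp (ell n b s N) with hE
  set E' := (1 - chi l (ell n b' s N)) * Real.exp (ell n b' s N) with hE'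
  have hP : |P - P'| ≤ N * S := abs_cutP_sub hb hb' hs l n N
  have hP'1 : |P'| ≤ 1 := by
    rw [abs_of_nonneg (cutP_nonneg _ _ _ _ _)]; exact cutP_le_one _ _ _ _ _
  have hE1 : |E| ≤ B := by
    rw [abs_of_nonneg (damp_nonneg _ _)]; exact damp_le _ _
  have hE'1 : |E'| ≤ B := by
    rw [abs_of_nonneg (damp_nonneg _ _)]; exact damp_le _ _
  have hEE : |E - E'| ≤ 2 * B * S := by
    refine (abs_damp_sub l _ _).trans ?_
    exact mul_le_mul_of_nonneg_left (abs_ell_sub hb hb' hs le_rfl) (by positivity)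
  have e : theta l n b s N - theta l n b' s N =
      (P - P') * E * b N + P' * (E - E') * b N + P' * E' * (b N - b' N) := by
    simp only [theta]; ring
  rw [e]
  have t1 : |(P - P') * E * b N| ≤ N * S * B := by
    rw [abs_mul, abs_mul]
    calc |P - P'| * |E| * |b N| ≤ (N * S) * B * 1 :=
          mul_le_mul (mul_le_mul hP hE1 (abs_nonneg _) (by positivity)) (hb N) (abs_nonneg _)
            (by positivity)
      _ = _ := by ring
  have t2 : |P' * (E - E') * b N| ≤ 2 * B * S := by
    rw [abs_mul, abs_mul]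
    calc |P'| * |E - E'| * |b N| ≤ 1 * (2 * B * S) * 1 :=
          mul_le_mul (mul_le_mul hP'1 hEE (abs_nonneg _) zero_le_one) (hb N) (abs_nonneg _)
            (by positivity)
      _ = _ := by ring
  have t3 : |P' * E' * (b N - b' N)| ≤ B * |b N - b' N| := by
    rw [abs_mul, abs_mul]
    calc |P'| * |E'| * |b N - b' N| ≤ 1 * B * |b N - b' N| :=
          mul_le_mul_of_nonneg_right (mul_le_mul hP'1 hE'1 (abs_nonneg _) zero_le_one)
            (abs_nonneg _)
      _ = _ := by ring
  have hN0 : (0 : ℝ) ≤ N := Nat.cast_nonneg _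
  refine (abs_add_le _ _).trans ((add_le_add (abs_add_le _ _) le_rfl).trans ?_)
  have hd : 0 ≤ |b N - b' N| := abs_nonneg _
  nlinarith [mul_nonneg hB0.le hS0, mul_nonneg hB0.le hd, mul_nonneg (mul_nonneg hN0 hB0.le) hd]

include hb hs in
/-- The potential inequality. -/
lemma potential {l : ℝ} (hl : 0 ≤ l) {n M : ℕ} (hM : n ≤ M) :
    Real.exp l * (1 - cutP l n b s (M + 1)) ≤
      1 + 1 / 2 * ∑ j ∈ Finset.Ico n (M + 1), theta l n b s j * s j := by
  have hstep : ∀ j, n ≤ j → Real.exp (ell n b s (j + 1)) =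
      Real.exp (ell n b s j) * (1 + b j * s j / 2) := by
    intro j hj
    rw [ell, Finset.sum_Ico_succ_top hj, Real.exp_add, Real.exp_log, ell]
    linarith [(half_bounds hb hs j).1]
  have htheta : ∀ j, n ≤ j → 1 / 2 * (theta l n b s j * s j) =
      cutP l n b s (j + 1) * (Real.exp (ell n b s (j + 1)) - Real.exp (ell n b s j)) := by
    intro j hj
    rw [hstep j hj, theta, cutP, cutP, Finset.prod_Ico_succ_top hj]
    ring
  have main : Real.exp l * (1 - cutP l n b s (M + 1)) +
      cutP l n b s (M + 1) * Real.exp (ell n b s (M + 1)) ≤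
      1 + 1 / 2 * ∑ j ∈ Finset.Ico n (M + 1), theta l n b s j * s j := by
    induction M, hM using Nat.le_induction with
    | base =>
      rw [Finset.sum_Ico_succ_top le_rfl, Finset.Ico_self, Finset.sum_empty, zero_add,
        htheta n le_rfl]
      have h0 : ell n b s n = 0 := by simp [ell]
      have h1 : cutP l n b s (n + 1) = 1 := by
        rw [cutP, Finset.prod_Ico_succ_top le_rfl, Finset.Ico_self, Finset.prod_empty, h0,
          chi_eq_zero hl]
        norm_num
      rw [h1, h0, Real.exp_zero]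
      linarith
    | succ M hM ih =>
      rw [Finset.sum_Ico_succ_top (by omega), mul_add, htheta (M + 1) (by omega)]
      set u := cutP l n b s (M + 1) with hu
      set x := ell n b s (M + 1) with hx
      have hu' : cutP l n b s (M + 1 + 1) = u * (1 - chi l x) := by
        rw [cutP, Finset.prod_Ico_succ_top (by omega)]
        rfl
      have hu0 : 0 ≤ u := cutP_nonneg _ _ _ _ _
      have hkey : Real.exp l * (u * chi l x) ≤ (u * chi l x) * Real.exp x := by
        rcases (chi_nonneg l x).eq_or_lt with h | h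
        · rw [← h]; simp
        · rw [mul_comm]
          exact mul_le_mul_of_nonneg_left (Real.exp_le_exp.2 (lt_of_chi_pos h).le)
            (mul_nonneg hu0 h.le)
      rw [hu']
      nlinarith
  have h3 : 0 ≤ cutP l n b s (M + 1) * Real.exp (ell n b s (M + 1)) :=
    mul_nonneg (cutP_nonneg _ _ _ _ _) (Real.exp_pos _).le
  linarith

include hb hs in
/-- The full capital is at most the square of the capital with halved bets. -/
lemma capital_le (n M : ℕ) (h : n ≤ M) :
    ∏ j ∈ Finset.range M, (1 + b j * s j) ≤ 2 ^ n * Real.exp (ell n b s M) ^ 2 := by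
  have h1 : ∀ j, 0 ≤ 1 + b j * s j := by
    intro j
    have h := abs_mul_s hs (b j) j
    have h1 := hb j
    rw [← h] at h1
    linarith [(abs_le.1 h1).1]
  have h2 : ∀ j, 1 + b j * s j ≤ 2 := by
    intro j
    have h := abs_mul_s hs (b j) j
    have h1 := hb j
    rw [← h] at h1
    linarith [(abs_le.1 h1).2]
  have e1 : Real.exp (ell n b s M) = ∏ j ∈ Finset.Ico n M, (1 + b j * s j / 2) := by
    rw [ell, Real.exp_sum]
    refine Finset.prod_congr rfl fun j _ => Real.exp_log ?_
    linarith [(half_bounds hb hs j).1]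
  rw [← Finset.prod_range_mul_prod_Ico _ h, e1, ← Finset.prod_pow]
  refine mul_le_mul ?_ ?_ (Finset.prod_nonneg fun j _ => h1 j) (by positivity)
  · calc ∏ j ∈ Finset.range n, (1 + b j * s j) ≤ ∏ _j ∈ Finset.range n, (2 : ℝ) :=
          Finset.prod_le_prod (fun j _ => h1 j) fun j _ => h2 j
      _ = 2 ^ n := by simp
  · refine Finset.prod_le_prod (fun j _ => h1 j) fun j _ => ?_
    nlinarith [sq_nonneg (b j * s j)]

end Det

end Pool.Agent.H17.QM
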