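import Pool.Agent.H17.QM.Mart

/-!
# Almost-martingales with bounded bets do not blow up: the probabilistic part
-/

set_option autoImplicit false

namespace Pool.Agent.H17.QM

open MeasureTheory Filter Topology

variable {Ω : Type*} {m0 : MeasurableSpace Ω} {μ : Measure Ω} [IsProbabilityMeasure μ]

lemma measurable_ell {b s : ℕ → Ω → ℝ} (hbm : ∀ j, Measurable (b j))
    (hsm : ∀ j, Measurable (s j)) (n j : ℕ) :
    Measurable fun ω => ell n (fun i => b i ω) (fun i => s i ω) j := by
  unfold ell
  exact Finset.measurable_sum _ fun i _ =>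
    (measurable_const.add (((hbm i).mul (hsm i)).div_const 2)).log

lemma measurable_chi (l : ℝ) : Measurable (chi l) :=
  ((measurable_id.sub_const l).min measurable_const).max measurable_const

lemma measurable_cutP {b s : ℕ → Ω → ℝ} (hbm : ∀ j, Measurable (b j))
    (hsm : ∀ j, Measurable (s j)) (l : ℝ) (n j : ℕ) :
    Measurable fun ω => cutP l n (fun i => b i ω) (fun i => s i ω) j := by
  unfold cutP
  exact Finset.measurable_prod _ fun i _ =>
    measurable_const.sub ((measurable_chi l).comp (measurable_ell hbm hsm n i))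

lemma measurable_theta {b s : ℕ → Ω → ℝ} (hbm : ∀ j, Measurable (b j))
    (hsm : ∀ j, Measurable (s j)) (l : ℝ) (n N : ℕ) :
    Measurable fun ω => theta l n (fun i => b i ω) (fun i => s i ω) N := by
  unfold theta
  exact ((measurable_cutP hbm hsm l n N).mul
    ((measurable_const.sub ((measurable_chi l).comp (measurable_ell hbm hsm n N))).mul
      (measurable_ell hbm hsm n N).exp)).mul (hbm N)

lemma ell_congr {b s s' : ℕ → ℝ} {n N : ℕ} (h : ∀ i < N, s i = s' i) {j : ℕ} (hj : j ≤ N) :
    ell n b s j = ell n b s' j := by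
  unfold ell
  refine Finset.sum_congr rfl fun i hi => ?_
  rw [h i (lt_of_lt_of_le (Finset.mem_Ico.1 hi).2 hj)]

lemma theta_congr {b s s' : ℕ → ℝ} {n N : ℕ} (h : ∀ i < N, s i = s' i) (l : ℝ) :
    theta l n b s N = theta l n b s' N := by
  have hc : cutP l n b s N = cutP l n b s' N := by
    unfold cutP
    refine Finset.prod_congr rfl fun i hi => ?_
    rw [ell_congr h (Finset.mem_Ico.1 hi).2.le]
  rw [theta, theta, hc, ell_congr h le_rfl]

theorem martingale_abstract (b : ℕ → Ω → ℝ) (hbm : ∀ j, Measurable (b j))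
    (hb : ∀ j ω, |b j ω| ≤ 1) (s : ℕ → Ω → ℝ) (hsm : ∀ j, Measurable (s j))
    (hs : ∀ j ω, s j ω = 1 ∨ s j ω = -1) (β ε : ℕ → ℝ) (hβ0 : ∀ N, 0 ≤ β N)
    (hε0 : ∀ N, 0 ≤ ε N) (hβ : Summable β) (hε : Summable fun N : ℕ => ((N : ℝ) + 3) * ε N)
    (H : ∀ (N : ℕ) (f : Ω → ℝ) (B K : ℝ), Measurable f → 0 ≤ K → (∀ ω, |f ω| ≤ B) →
      (∀ ω ω', (∀ i < N, s i ω = s i ω') →
        |f ω - f ω'| ≤ K * ∑ i ∈ Finset.range (N + 1), |b i ω - b i ω'|) →
      |∫ ω, f ω * s N ω ∂μ| ≤ B * β N + K * ε N) :
    ∀ᵐ ω ∂μ, ∃ C : ℝ, ∀ N, ∏ j ∈ Finset.range N, (1 + b j ω * s j ω) ≤ C := by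
  set E : ℕ → ℝ := fun N => β N + ((N : ℝ) + 3) * ε N with hE
  have hE0 : ∀ N, 0 ≤ E N := fun N =>
    add_nonneg (hβ0 N) (mul_nonneg (by positivity) (hε0 N))
  have hEs : Summable E := hβ.add hε
  -- the bound for one start and one level
  have hlevel : ∀ (l : ℝ), 0 ≤ l → ∀ n M : ℕ, n ≤ M →
      ∫ ω, (1 - cutP l n (fun i => b i ω) (fun i => s i ω) (M + 1)) ∂μ ≤
        Real.exp (-l) + Real.exp 1 * ∑' k, E (k + n) := by
    intro l hl n M hM
    have hth : ∀ N, |∫ ω, theta l n (fun i => b i ω) (fun i => s i ω) N * s N ω ∂μ| ≤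
        Real.exp (l + 1) * E N := by
      intro N
      have := H N (fun ω => theta l n (fun i => b i ω) (fun i => s i ω) N) (Real.exp (l + 1))
        (((N : ℝ) + 3) * Real.exp (l + 1)) (measurable_theta hbm hsm l n N) (by positivity)
        (fun ω => abs_theta_le (fun j => hb j ω) l n N) (fun ω ω' hω => ?_)
      · refine this.trans (le_of_eq ?_)
        rw [hE]; ring
      · change |theta l n (fun i => b i ω) (fun i => s i ω) N -
          theta l n (fun i => b i ω') (fun i => s i ω') N| ≤ _
        rw [theta_congr (b := fun i => b i ω) (s := fun i => s i ω) (s' := fun i => s i ω') hω l]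
        exact abs_theta_sub (fun j => hb j ω) (fun j => hb j ω') (fun j => hs j ω') l n N
    have hthi : ∀ N, Integrable
        (fun ω => theta l n (fun i => b i ω) (fun i => s i ω) N * s N ω) μ := by
      intro N
      refine Integrable.of_bound ((measurable_theta hbm hsm l n N).mul (hsm N)).aestronglyMeasurable
        (Real.exp (l + 1)) (ae_of_all _ fun ω => ?_)
      rw [Real.norm_eq_abs, abs_mul_s (s := fun i => s i ω) (fun j => hs j ω)]
      exact abs_theta_le (fun j => hb j ω) l n N
    have hpot : ∫ ω, Real.exp l * (1 - cutP l n (fun i => b i ω) (fun i => s i ω) (M + 1)) ∂μ ≤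
        ∫ ω, (1 + 1 / 2 * ∑ j ∈ Finset.Ico n (M + 1),
          theta l n (fun i => b i ω) (fun i => s i ω) j * s j ω) ∂μ := by
      refine integral_mono ?_ ?_ fun ω => potential (fun j => hb j ω) (fun j => hs j ω) hl hM
      · refine Integrable.const_mul ?_ _
        refine Integrable.of_bound (measurable_const.sub
          (measurable_cutP hbm hsm l n (M + 1))).aestronglyMeasurable 1 (ae_of_all _ fun ω => ?_)
        have h1 := cutP_nonneg l n (fun i => b i ω) (fun i => s i ω) (M + 1)
        have h2 := cutP_le_one l n (fun i => b i ω) (fun i => s i ω) (M + 1)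
        rw [Real.norm_eq_abs, abs_le]
        constructor <;> linarith
      · exact (integrable_const _).add ((integrable_finsetSum _ fun j _ => hthi j).const_mul _)
    rw [integral_const_mul, integral_add (integrable_const _)
      ((integrable_finsetSum _ fun j _ => hthi j).const_mul _), integral_const_mul,
      integral_finsetSum _ fun j _ => hthi j] at hpot
    simp only [integral_const, probReal_univ, smul_eq_mul, mul_one] at hpot
    have hsumE : ∑ j ∈ Finset.Ico n (M + 1), E j ≤ ∑' k, E (k + n) := by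
      rw [Finset.sum_Ico_eq_sum_range]
      simp only [add_comm n]
      exact ((summable_nat_add_iff n).2 hEs).sum_le_tsum _ fun k _ => hE0 _
    have hsum : ∑ j ∈ Finset.Ico n (M + 1),
        ∫ ω, theta l n (fun i => b i ω) (fun i => s i ω) j * s j ω ∂μ ≤
        Real.exp (l + 1) * ∑' k, E (k + n) := by
      calc ∑ j ∈ Finset.Ico n (M + 1),
          ∫ ω, theta l n (fun i => b i ω) (fun i => s i ω) j * s j ω ∂μ
          ≤ ∑ j ∈ Finset.Ico n (M + 1), Real.exp (l + 1) * E j :=
            Finset.sum_le_sum fun j _ => (le_abs_self _).trans (hth j)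
        _ = Real.exp (l + 1) * ∑ j ∈ Finset.Ico n (M + 1), E j := by rw [Finset.mul_sum]
        _ ≤ _ := mul_le_mul_of_nonneg_left hsumE (Real.exp_pos _).le
    have htpos : 0 ≤ ∑' k, E (k + n) := tsum_nonneg fun k => hE0 _
    have hel : 0 < Real.exp l := Real.exp_pos l
    have e1 : Real.exp l * (Real.exp (-l) + Real.exp 1 * ∑' k, E (k + n)) =
        1 + Real.exp (l + 1) * ∑' k, E (k + n) := by
      rw [mul_add, ← Real.exp_add, add_neg_cancel, Real.exp_zero, Real.exp_add]; ring
    have e2 : 1 / 2 * (Real.exp (l + 1) * ∑' k, E (k + n)) ≤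
        Real.exp (l + 1) * ∑' k, E (k + n) := by
      have : 0 ≤ Real.exp (l + 1) * ∑' k, E (k + n) := mul_nonneg (Real.exp_pos _).le htpos
      linarith
    refine le_of_mul_le_mul_left ?_ hel
    rw [e1]
    linarith
  -- the bad set
  set Bad : Set Ω := {ω | ∀ C : ℝ, ∃ N, C < ∏ j ∈ Finset.range N, (1 + b j ω * s j ω)} with hBad
  have hbad : ∀ (l : ℝ), 0 ≤ l → ∀ n : ℕ,
      μ Bad ≤ ENNReal.ofReal (Real.exp (-l) + Real.exp 1 * ∑' k, E (k + n)) := by
    intro l hl n
    set A : ℕ → Set Ω := fun M =>
      {ω | cutP l n (fun i => b i ω) (fun i => s i ω) (M + 1) = 0} with hA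
    have hAm : ∀ M, MeasurableSet (A M) := fun M =>
      (measurable_cutP hbm hsm l n (M + 1)) (measurableSet_singleton 0)
    have hAmono : Monotone A := by
      refine monotone_nat_of_le_succ fun M => ?_
      intro ω (hω : cutP l n _ _ (M + 1) = 0)
      change cutP l n _ _ (M + 1 + 1) = 0
      by_cases h : n ≤ M + 1
      · rw [cutP, Finset.prod_Ico_succ_top h, ← cutP, hω, zero_mul]
      · rw [cutP, Finset.Ico_eq_empty (by omega)] at hω
        simp at hω
    have hsub : Bad ⊆ ⋃ M, A (max n M) := by
      intro ω hω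
      obtain ⟨N, hN⟩ := hω (2 ^ n * Real.exp (l + 1) ^ 2)
      rw [Set.mem_iUnion]
      refine ⟨N, ?_⟩
      have hnN : n ≤ N := by
        by_contra hlt
        push Not at hlt
        have h1 := capital_le (b := fun i => b i ω) (s := fun i => s i ω) (fun j => hb j ω)
          (fun j => hs j ω) N N le_rfl
        have h2 : ell N (fun i => b i ω) (fun i => s i ω) N = 0 := by simp [ell]
        rw [h2, Real.exp_zero, one_pow, mul_one] at h1
        have h3 : (2 : ℝ) ^ N ≤ 2 ^ n := pow_le_pow_right₀ (by norm_num) hlt.le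
        have h4 : (1 : ℝ) ≤ Real.exp (l + 1) ^ 2 :=
          one_le_pow₀ (Real.one_le_exp (by linarith))
        have h5 : (2 : ℝ) ^ n ≤ 2 ^ n * Real.exp (l + 1) ^ 2 :=
          le_mul_of_one_le_right (by positivity) h4
        linarith
      have h1 := capital_le (b := fun i => b i ω) (s := fun i => s i ω) (fun j => hb j ω)
        (fun j => hs j ω) n N hnN
      have h2 : Real.exp (l + 1) ^ 2 <
          Real.exp (ell n (fun i => b i ω) (fun i => s i ω) N) ^ 2 := by
        have h3 : 2 ^ n * Real.exp (l + 1) ^ 2 <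
            2 ^ n * Real.exp (ell n (fun i => b i ω) (fun i => s i ω) N) ^ 2 := hN.trans_le h1
        exact lt_of_mul_lt_mul_left h3 (by positivity)
      have h4 : l + 1 < ell n (fun i => b i ω) (fun i => s i ω) N := by
        have := lt_of_pow_lt_pow_left₀ 2 (Real.exp_pos _).le h2
        exact Real.exp_lt_exp.1 this
      rw [max_eq_right hnN]
      change cutP l n _ _ (N + 1) = 0
      rw [cutP, Finset.prod_Ico_succ_top hnN, chi_eq_one h4.le, sub_self, mul_zero]
    have hAbound : ∀ M, μ (A (max n M)) ≤
        ENNReal.ofReal (Real.exp (-l) + Real.exp 1 * ∑' k, E (k + n)) := by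
      intro M
      have h1 := hlevel l hl n (max n M) (le_max_left _ _)
      have h2 : μ.real (A (max n M)) ≤
          ∫ ω, (1 - cutP l n (fun i => b i ω) (fun i => s i ω) (max n M + 1)) ∂μ := by
        have h3 : μ.real (A (max n M)) = ∫ ω, (A (max n M)).indicator (fun _ => (1 : ℝ)) ω ∂μ := by
          rw [integral_indicator (hAm _)]; simp
        rw [h3]
        refine integral_mono ((integrable_const _).indicator (hAm _)) ?_ fun ω => ?_
        · refine Integrable.of_bound (measurable_const.sub
            (measurable_cutP hbm hsm l n (max n M + 1))).aestronglyMeasurable 1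
            (ae_of_all _ fun ω => ?_)
          have h1 := cutP_nonneg l n (fun i => b i ω) (fun i => s i ω) (max n M + 1)
          have h2 := cutP_le_one l n (fun i => b i ω) (fun i => s i ω) (max n M + 1)
          rw [Real.norm_eq_abs, abs_le]
          constructor <;> linarith
        · by_cases hω : ω ∈ A (max n M)
          · rw [Set.indicator_of_mem hω]
            have : cutP l n (fun i => b i ω) (fun i => s i ω) (max n M + 1) = 0 := hω
            simp only [this]
            norm_num
          · rw [Set.indicator_of_notMem hω]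
            have := cutP_le_one l n (fun i => b i ω) (fun i => s i ω) (max n M + 1)
            simp only
            linarith
      rw [← ENNReal.ofReal_toReal (measure_ne_top μ (A (max n M)))]
      exact ENNReal.ofReal_le_ofReal (h2.trans h1)
    have hmono' : Monotone fun M => A (max n M) := fun M M' h =>
      hAmono (max_le_max le_rfl h)
    calc μ Bad ≤ μ (⋃ M, A (max n M)) := measure_mono hsub
      _ = ⨆ M, μ (A (max n M)) := hmono'.measure_iUnion
      _ ≤ _ := iSup_le hAbound
  have hzero : μ Bad = 0 := by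
    have h1 : ∀ n : ℕ, μ Bad ≤ ENNReal.ofReal (Real.exp 1 * ∑' k, E (k + n)) := by
      intro n
      have ht : Tendsto (fun l : ℝ => ENNReal.ofReal
          (Real.exp (-l) + Real.exp 1 * ∑' k, E (k + n))) atTop
          (𝓝 (ENNReal.ofReal (0 + Real.exp 1 * ∑' k, E (k + n)))) := by
        refine (ENNReal.continuous_ofReal.tendsto _).comp ?_
        exact (Real.tendsto_exp_neg_atTop_nhds_zero).add tendsto_const_nhds
      rw [zero_add] at ht
      exact ge_of_tendsto ht (eventually_atTop.2 ⟨0, fun l hl => hbad l hl n⟩)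
    have ht : Tendsto (fun n : ℕ => ENNReal.ofReal (Real.exp 1 * ∑' k, E (k + n))) atTop
        (𝓝 (ENNReal.ofReal (Real.exp 1 * 0))) := by
      refine (ENNReal.continuous_ofReal.tendsto _).comp ?_
      exact tendsto_const_nhds.mul (tendsto_sum_nat_add E)
    rw [mul_zero, ENNReal.ofReal_zero] at ht
    exact le_antisymm (ge_of_tendsto ht (Eventually.of_forall h1)) zero_le
  rw [ae_iff]
  refine measure_mono_null (fun ω hω => ?_) hzero
  intro C
  by_contra hcon
  push Not at hcon
  exact hω ⟨C, hcon⟩

end Pool.Agent.H17.QM
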