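import Pool.Agent.H17.QM.Common
import Pool.Agent.H17.QM.Perturb

/-!
# No quantum betting strategy succeeds on the NP language of a random oracle
-/

set_option autoImplicit false

namespace Pool.Agent.H17.QM

open MeasureTheory Filter

/-! ### The bias -/

/-- `(1 - 2^(-m))^⌊2^m log 2⌋` is one half up to `2^(-m)`. -/
lemma bias_le (m : ℕ) (hm : 1 ≤ m) :
    |1 - 2 / (1 + wq (Fin m → Bool)) ^ ⌊(2 : ℝ) ^ m * Real.log 2⌋₊| ≤ 2 / 2 ^ m := by
  set K : ℕ := ⌊(2 : ℝ) ^ m * Real.log 2⌋₊ with hK
  have h2m : (2 : ℝ) ≤ 2 ^ m := by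
    calc (2 : ℝ) = 2 ^ 1 := by norm_num
      _ ≤ 2 ^ m := pow_le_pow_right₀ (by norm_num) hm
  set x : ℝ := 1 / 2 ^ m with hx
  have hx0 : 0 < x := by positivity
  have hx1 : x ≤ 1 / 2 := by
    rw [hx, div_le_div_iff₀ (by positivity) (by norm_num)]; linarith
  have hlog2 : 0 < Real.log 2 := Real.log_pos (by norm_num)
  have hlog2' : Real.log 2 ≤ 1 := by
    have := Real.log_le_sub_one_of_pos (show (0 : ℝ) < 2 by norm_num)
    linarith
  have hKle : (K : ℝ) ≤ 2 ^ m * Real.log 2 := Nat.floor_le (by positivity)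
  have hKgt : 2 ^ m * Real.log 2 < K + 1 := Nat.lt_floor_add_one _
  have hxm : x * 2 ^ m = 1 := by rw [hx]; field_simp
  have hKx : (K : ℝ) * x ≤ Real.log 2 := by
    calc (K : ℝ) * x ≤ (2 ^ m * Real.log 2) * x := mul_le_mul_of_nonneg_right hKle hx0.le
      _ = (x * 2 ^ m) * Real.log 2 := by ring
      _ = Real.log 2 := by rw [hxm, one_mul]
  have hKx' : Real.log 2 ≤ K * x + x := by
    calc Real.log 2 = (x * 2 ^ m) * Real.log 2 := by rw [hxm, one_mul]
      _ = (2 ^ m * Real.log 2) * x := by ring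
      _ ≤ ((K : ℝ) + 1) * x := mul_le_mul_of_nonneg_right hKgt.le hx0.le
      _ = K * x + x := by ring
  -- the quantity
  have h1x : 0 < 1 - x := by linarith
  have hw : 1 + wq (Fin m → Bool) = 1 / (1 - x) := by
    have hc : (Fintype.card (Fin m → Bool) : ℝ) = 2 ^ m := by simp
    rw [wq, hc, hx]
    have h3 : (2 : ℝ) ^ m - 1 ≠ 0 := by linarith
    have h4 : (2 : ℝ) ^ m ≠ 0 := by positivity
    field_simp
    ring
  have hP : 2 / (1 + wq (Fin m → Bool)) ^ K = 2 * Real.exp (K * Real.log (1 - x)) := by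
    rw [hw, one_div_pow, ← Real.log_pow, Real.exp_log (by positivity)]
    field_simp
  rw [hP]
  have hinv : 1 / (1 - x) ≤ 1 + 2 * x := by
    rw [div_le_iff₀ h1x]; nlinarith
  have hlogu : Real.log (1 - x) ≤ -x := by
    have := Real.log_le_sub_one_of_pos h1x
    linarith
  have hlogl : -(x * (1 + 2 * x)) ≤ Real.log (1 - x) := by
    have h5 := Real.one_sub_inv_le_log_of_pos h1x
    have h6 : 1 - (1 - x)⁻¹ = -(x * (1 / (1 - x))) := by field_simp; ring
    rw [h6] at h5
    have h7 : x * (1 / (1 - x)) ≤ x * (1 + 2 * x) := mul_le_mul_of_nonneg_left hinv hx0.le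
    linarith
  have hK0 : (0 : ℝ) ≤ K := Nat.cast_nonneg _
  have hup : K * Real.log (1 - x) ≤ -Real.log 2 + x := by
    have : K * Real.log (1 - x) ≤ K * (-x) := mul_le_mul_of_nonneg_left hlogu hK0
    linarith
  have hlo : -Real.log 2 - 2 * x ≤ K * Real.log (1 - x) := by
    have h8 : K * (-(x * (1 + 2 * x))) ≤ K * Real.log (1 - x) :=
      mul_le_mul_of_nonneg_left hlogl hK0
    have h9 : (K : ℝ) * (x * (1 + 2 * x)) ≤ Real.log 2 * (1 + 2 * x) := by
      calc (K : ℝ) * (x * (1 + 2 * x)) = (K * x) * (1 + 2 * x) := by ring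
        _ ≤ _ := mul_le_mul_of_nonneg_right hKx (by positivity)
    nlinarith
  have hexpl : Real.exp (-Real.log 2) = 1 / 2 := by
    rw [Real.exp_neg, Real.exp_log (by norm_num)]; norm_num
  have hE1 : Real.exp (K * Real.log (1 - x)) ≤ 1 / 2 * (1 + 2 * x) := by
    calc Real.exp (K * Real.log (1 - x)) ≤ Real.exp (-Real.log 2 + x) := Real.exp_le_exp.2 hup
      _ = 1 / 2 * Real.exp x := by rw [Real.exp_add, hexpl]
      _ ≤ 1 / 2 * (1 + 2 * x) := by
          have h10 : Real.exp x ≤ 1 / (1 - x) := by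
            have h11 : 1 - x ≤ Real.exp (-x) := by
              have := Real.add_one_le_exp (-x); linarith
            rw [le_div_iff₀ h1x]
            calc Real.exp x * (1 - x) ≤ Real.exp x * Real.exp (-x) :=
                  mul_le_mul_of_nonneg_left h11 (Real.exp_pos _).le
              _ = 1 := by rw [← Real.exp_add, add_neg_cancel, Real.exp_zero]
          linarith
  have hE2 : 1 / 2 * (1 - 2 * x) ≤ Real.exp (K * Real.log (1 - x)) := by
    calc 1 / 2 * (1 - 2 * x) ≤ 1 / 2 * Real.exp (-(2 * x)) := by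
          have := Real.add_one_le_exp (-(2 * x))
          linarith
      _ = Real.exp (-Real.log 2 - 2 * x) := by
          rw [sub_eq_add_neg, Real.exp_add, hexpl]
      _ ≤ _ := Real.exp_le_exp.2 hlo
  have hfin : (2 : ℝ) / 2 ^ m = 2 * x := by rw [hx]; ring
  rw [hfin, abs_le]
  constructor <;> linarith

/-! ### The blocks -/

/-- The block of the oracle that decides membership of `x`. -/
noncomputable def blk (K m : ℕ) (x : List Bool) (p : Fin K × Fin m) : List Bool :=
  code x (str p.1) p.2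

lemma blk_injective (K m : ℕ) (x : List Bool) : Function.Injective (blk K m x) := by
  rintro ⟨y, i⟩ ⟨y', i'⟩ h
  obtain ⟨-, h1, h2⟩ := code_injective h
  exact Prod.ext (Fin.ext (str_injective h1)) (Fin.ext h2)

lemma mem_lang_fill (t : ℕ → ℕ) (x : List Bool) (ω : List Bool → Bool)
    (g : Fin (wnum t x.length) → Fin (wlen t x.length) → Bool) :
    x ∈ lang t (fill (blk (wnum t x.length) (wlen t x.length) x) ω g) ↔
      g ∉ wf (fun _ : Fin (wlen t x.length) => true) := by
  have hinj := blk_injective (wnum t x.length) (wlen t x.length) x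
  rw [mem_wf]
  push Not
  constructor
  · rintro ⟨y, hy, h⟩
    refine ⟨⟨rk y, hy⟩, funext fun i => ?_⟩
    have h1 := h i i.2
    have h2 : code x y i = blk (wnum t x.length) (wlen t x.length) x (⟨rk y, hy⟩, i) := by
      rw [blk, str_rk]
    rw [h2, fill_block _ hinj] at h1
    exact h1
  · rintro ⟨y, hy⟩
    refine ⟨str y, by rw [rk_str]; exact y.2, fun i hi => ?_⟩
    have h2 : code x (str y) i =
      blk (wnum t x.length) (wlen t x.length) x (y, ⟨i, hi⟩) := rfl
    rw [h2, fill_block _ hinj, hy]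

lemma mem_lang_fill_ne (t : ℕ → ℕ) {x x' : List Bool} (hne : x' ≠ x) (ω : List Bool → Bool)
    (g : Fin (wnum t x.length) → Fin (wlen t x.length) → Bool) :
    x' ∈ lang t (fill (blk (wnum t x.length) (wlen t x.length) x) ω g) ↔ x' ∈ lang t ω := by
  have h : ∀ (y : List Bool) (i : ℕ),
      fill (blk (wnum t x.length) (wlen t x.length) x) ω g (code x' y i) = ω (code x' y i) := by
    intro y i
    refine fill_off _ _ _ fun p hp => ?_
    exact hne (code_injective hp).1.symm
  unfold lang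
  simp only [Set.mem_ofPred_eq, h]

lemma measurableSet_lang (t : ℕ → ℕ) (x : List Bool) :
    MeasurableSet {ω : List Bool → Bool | x ∈ lang t ω} := by
  have e : {ω : List Bool → Bool | x ∈ lang t ω} =
      ⋃ y : {y : List Bool // rk y < wnum t x.length},
        ⋂ i : Fin (wlen t x.length), (fun ω : List Bool → Bool => ω (code x y i)) ⁻¹' {true} := by
    ext ω
    simp only [lang, Set.mem_ofPred_eq, Set.mem_iUnion, Set.mem_iInter, Set.mem_preimage,
      Set.mem_singleton_iff]
    constructor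
    · rintro ⟨y, hy, h⟩
      exact ⟨⟨y, hy⟩, fun i => h i i.2⟩
    · rintro ⟨y, h⟩
      exact ⟨y, y.2, fun i hi => h ⟨i, hi⟩⟩
  rw [e]
  exact MeasurableSet.iUnion fun y => MeasurableSet.iInter fun i =>
    (measurable_pi_apply _) (measurableSet_singleton _)

/-- The numerical estimate for the change of the bets. -/
lemma eps_le (t : ℕ → ℕ) (C : ℕ) (x : List Bool) {Λ : ℝ} (hΛ : 0 ≤ Λ) :
    ((rk x : ℝ) + 1) * (Λ * ((1 / 16 : ℝ) ^ x.length + 4 * ((C : ℝ) * 2 ^ t x.length) ^ 2 *
      wq (Fin (wlen t x.length) → Bool) / (1 / 16 : ℝ) ^ x.length)) ≤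
      16 * Λ * (1 + 4 * (C : ℝ) ^ 2) / ((rk x : ℝ) + 1) ^ 3 := by
  set n := x.length with hn
  have h2 : (2 : ℝ) ≤ 2 ^ wlen t n := by
    calc (2 : ℝ) = 2 ^ 1 := by norm_num
      _ ≤ 2 ^ wlen t n := pow_le_pow_right₀ (by norm_num) (by unfold wlen; omega)
  have hwq : wq (Fin (wlen t n) → Bool) ≤ 2 / 2 ^ (wlen t n) := by
    rw [wq]
    have hc : (Fintype.card (Fin (wlen t n) → Bool) : ℝ) = 2 ^ wlen t n := by simp
    rw [hc, div_le_div_iff₀ (by linarith) (by linarith)]
    linarith
  have hm : (2 : ℝ) ^ wlen t n = 2 * ((2 : ℝ) ^ t n) ^ 2 * ((16 : ℝ) ^ n) ^ 2 := by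
    rw [wlen, pow_add, pow_add, pow_one, pow_mul', pow_mul]
    have : ((2 : ℝ) ^ 8) ^ n = ((16 : ℝ) ^ n) ^ 2 := by
      rw [pow_right_comm (16 : ℝ) n 2]; norm_num
    rw [this]; ring
  have h16 : (0 : ℝ) < 16 ^ n := by positivity
  have h2t : (0 : ℝ) < 2 ^ t n := by positivity
  have hinv : (1 / 16 : ℝ) ^ n = 1 / 16 ^ n := by rw [one_div_pow]
  have hsecond : 4 * ((C : ℝ) * 2 ^ t n) ^ 2 * wq (Fin (wlen t n) → Bool) / (1 / 16 : ℝ) ^ n ≤
      4 * (C : ℝ) ^ 2 * (1 / 16 ^ n) := by
    rw [hinv]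
    calc 4 * ((C : ℝ) * 2 ^ t n) ^ 2 * wq (Fin (wlen t n) → Bool) / (1 / 16 ^ n)
        ≤ 4 * ((C : ℝ) * 2 ^ t n) ^ 2 * (2 / 2 ^ (wlen t n)) / (1 / 16 ^ n) := by gcongr
      _ = 4 * (C : ℝ) ^ 2 * (1 / 16 ^ n) := by
          rw [hm]; field_simp
  have hN0 : (0 : ℝ) < (rk x : ℝ) + 1 := by positivity
  have h4 : (1 : ℝ) / 16 ^ n ≤ 16 / ((rk x : ℝ) + 1) ^ 4 := one_div_le x
  calc ((rk x : ℝ) + 1) * (Λ * ((1 / 16 : ℝ) ^ n + 4 * ((C : ℝ) * 2 ^ t n) ^ 2 *
      wq (Fin (wlen t n) → Bool) / (1 / 16 : ℝ) ^ n))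
      ≤ ((rk x : ℝ) + 1) * (Λ * (1 / 16 ^ n + 4 * (C : ℝ) ^ 2 * (1 / 16 ^ n))) := by
        rw [hinv] at hsecond ⊢
        gcongr
    _ = ((rk x : ℝ) + 1) * (Λ * (1 + 4 * (C : ℝ) ^ 2)) * (1 / 16 ^ n) := by ring
    _ ≤ ((rk x : ℝ) + 1) * (Λ * (1 + 4 * (C : ℝ) ^ 2)) * (16 / ((rk x : ℝ) + 1) ^ 4) := by
        gcongr
    _ = 16 * Λ * (1 + 4 * (C : ℝ) ^ 2) / ((rk x : ℝ) + 1) ^ 3 := by
        field_simp

theorem oracle_single (t : ℕ → ℕ) (ht : Monotone t) (S : Strategy (List Bool))
    (hT : S.QueryBound t) :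
    ∀ᵐ A ∂(coins (List Bool)), ∃ C : ℝ, ∀ N, S.capital (ph A) (lang t A) N ≤ C := by
  obtain ⟨C, hC⟩ := hT
  obtain ⟨Λ, hΛ0, hΛ⟩ := S.exists_lip
  set b : ℕ → (List Bool → Bool) → ℝ := fun j ω => S.bet (ph ω) (hist (lang t ω) j) with hb
  set s : ℕ → (List Bool → Bool) → ℝ := sgn (lang t) with hs
  have hL : ∀ j, MeasurableSet {ω : List Bool → Bool | str j ∈ lang t ω} := fun j =>
    measurableSet_lang t _
  have hbm : ∀ j, Measurable (b j) := fun j =>
    measurable_choice (fun ω => hist (lang t ω) j) (measurableSet_hist hL j)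
      (fun w ω => S.bet (ph ω) w)
      (fun w => (S.measurable_g w).comp (S.alg w).measurable_prob)
  have hmain := martingale_abstract (μ := coins (List Bool)) b hbm (fun j ω => S.bound _ _) s
    (fun j => measurable_sgn hL j) (fun j ω => sgn_or _ _ _)
    (fun N => 16 / ((N : ℝ) + 1) ^ 2)
    (fun N => 16 * Λ * (1 + 4 * (C : ℝ) ^ 2) / ((N : ℝ) + 1) ^ 3)
    (fun N => by positivity) (fun N => by positivity) (summable_rk 16)
    (summable_eps _ (by positivity)) ?_
  · filter_upwards [hmain] with A hA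
    obtain ⟨B, hB⟩ := hA
    refine ⟨B, fun N => ?_⟩
    rw [capital_eq S ph (lang t) N A]
    exact hB N
  · intro N f B K hfm hK0 hfB hfK
    set x := str N with hx
    have hrk : rk x = N := rk_str N
    set m := wlen t x.length with hm
    have he := blk_injective (wnum t x.length) m x
    have hB0 : 0 ≤ B := (abs_nonneg _).trans (hfB fun _ => false)
    have hδ : (0 : ℝ) < (1 / 16) ^ x.length := by positivity
    have hw : 0 ≤ wq (Fin m → Bool) := by
      refine (wq_pos ?_).le
      simp only [Fintype.card_pi, Fintype.card_bool, Finset.prod_const, Finset.card_univ,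
        Fintype.card_fin]
      calc 2 = 2 ^ 1 := rfl
        _ ≤ 2 ^ m := Nat.pow_le_pow_right (by norm_num) (by rw [hm]; unfold wlen; omega)
    -- membership of earlier strings and histories do not depend on the block of `x`
    have hmem : ∀ (ω : List Bool → Bool) (g : Fin (wnum t x.length) → Fin m → Bool), ∀ j < N,
        (str j ∈ lang t (fill (blk (wnum t x.length) m x) ω g) ↔ str j ∈ lang t ω) := by
      intro ω g j hj
      refine mem_lang_fill_ne t ?_ ω g
      intro h
      have : j = N := by rw [← rk_str j, h, hrk]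
      omega
    have hhist : ∀ (ω : List Bool → Bool) (g : Fin (wnum t x.length) → Fin m → Bool), ∀ i ≤ N,
        hist (lang t (fill (blk (wnum t x.length) m x) ω g)) i = hist (lang t ω) i := fun ω g i hi =>
      hist_congr fun j hj => hmem ω g j (lt_of_lt_of_le hj hi)
    have hTi : ∀ ω, ∀ i ≤ N, ((S.alg (hist (lang t ω) i)).T : ℝ) ≤ (C : ℝ) * 2 ^ t x.length := by
      intro ω i hi
      have h1 := hC (hist (lang t ω) i)
      rw [length_hist] at h1
      have h2 : (str i).length ≤ x.length := by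
        apply length_le_of_rk_le
        rw [rk_str, hrk]
        exact hi
      have h3 : C * 2 ^ t (str i).length ≤ C * 2 ^ t x.length :=
        Nat.mul_le_mul_left _ (Nat.pow_le_pow_right (by norm_num) (ht h2))
      exact_mod_cast h1.trans h3
    have hblock := block_signed (blk (wnum t x.length) m x) he
      (by rw [Fintype.card_fin, hm]; unfold wlen; omega) hfm (measurable_sgn hL N) hfB
      (κ' := K * (16 * Λ * (1 + 4 * (C : ℝ) ^ 2) / ((N : ℝ) + 1) ^ 3))
      (fun ω g => ?_) (fun ω g _ => ?_)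
    · refine hblock.trans ?_
      rw [add_comm]
      refine add_le_add (mul_le_mul_of_nonneg_left ?_ hB0) le_rfl
      rw [Fintype.card_fin]
      refine (bias_le m (by rw [hm]; unfold wlen; omega)).trans ?_
      -- `2 / 2^m ≤ 16 / (N+1)^2`
      have h16 := one_div_le x
      rw [hrk] at h16
      have h1 : (2 : ℝ) / 2 ^ m ≤ 1 / 16 ^ x.length := by
        rw [div_le_div_iff₀ (by positivity) (by positivity), one_mul, hm, wlen, pow_succ]
        have h2 : (16 : ℝ) ^ x.length ≤ 2 ^ (2 * t x.length + 8 * x.length) := by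
          calc (16 : ℝ) ^ x.length = 2 ^ (4 * x.length) := by rw [pow_mul]; norm_num
            _ ≤ _ := pow_le_pow_right₀ (by norm_num) (by omega)
        linarith
      have h3 : (16 : ℝ) / ((N : ℝ) + 1) ^ 4 ≤ 16 / ((N : ℝ) + 1) ^ 2 := by
        have hN1 : (1 : ℝ) ≤ (N : ℝ) + 1 := by
          have : (0 : ℝ) ≤ N := Nat.cast_nonneg _
          linarith
        exact div_le_div_of_nonneg_left (by norm_num) (by positivity)
          (pow_le_pow_right₀ hN1 (by norm_num))
      exact (h1.trans h16).trans h3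
    · -- the sign
      change sgn (lang t) N _ = _
      unfold sgn
      rw [← hx]
      by_cases hg : g ∈ wf (fun _ : Fin m => true)
      · rw [if_pos hg, if_neg]
        exact fun h => (mem_lang_fill t x ω g).1 h hg
      · rw [if_neg hg, if_pos]
        exact (mem_lang_fill t x ω g).2 hg
    · -- the variation
      set e := blk (wnum t x.length) m x with hedef
      set o : Fin m → Bool := fun _ => true with ho
      have hfv : ∀ W : Finset (Fin (wnum t x.length)),
          |f (fill e ω (plant o g W)) - f (fill e ω g)| ≤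
          K * ∑ i ∈ Finset.range (N + 1), Λ *
            |(S.alg (hist (lang t ω) i)).prob (ph (fill e ω (plant o g W))) -
              (S.alg (hist (lang t ω) i)).prob (ph (fill e ω g))| := by
        intro W
        refine (hfK _ _ fun j hj => ?_).trans (mul_le_mul_of_nonneg_left
          (Finset.sum_le_sum fun i hi => ?_) hK0)
        · exact (sgn_eq_iff _ _ _ _).2 ((hmem ω _ j hj).trans (hmem ω g j hj).symm)
        · have hi' : i ≤ N := Nat.lt_succ_iff.1 (Finset.mem_range.1 hi)
          simp only [hb, Strategy.bet, hhist ω _ i hi']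
          exact hΛ _ _ _
      calc ∑ W : Finset (Fin (wnum t x.length)), wq (Fin m → Bool) ^ W.card *
          |f (fill e ω (plant o g W)) - f (fill e ω g)|
          ≤ ∑ W : Finset (Fin (wnum t x.length)), wq (Fin m → Bool) ^ W.card *
            (K * ∑ i ∈ Finset.range (N + 1), Λ *
            |(S.alg (hist (lang t ω) i)).prob (ph (fill e ω (plant o g W))) -
              (S.alg (hist (lang t ω) i)).prob (ph (fill e ω g))|) :=
            Finset.sum_le_sum fun W _ => mul_le_mul_of_nonneg_left (hfv W) (by positivity)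
        _ = K * ∑ i ∈ Finset.range (N + 1), Λ * ∑ W : Finset (Fin (wnum t x.length)),
            wq (Fin m → Bool) ^ W.card *
            |(S.alg (hist (lang t ω) i)).prob (ph (fill e ω (plant o g W))) -
              (S.alg (hist (lang t ω) i)).prob (ph (fill e ω g))| := by
            simp only [Finset.mul_sum]
            rw [Finset.sum_comm]
            refine Finset.sum_congr rfl fun i _ => Finset.sum_congr rfl fun W _ => by ring
        _ ≤ K * ∑ _i ∈ Finset.range (N + 1), Λ *
            (((1 / 16 : ℝ) ^ x.length + 4 * ((C : ℝ) * 2 ^ t x.length) ^ 2 *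
              wq (Fin m → Bool) / (1 / 16 : ℝ) ^ x.length) *
              (1 + wq (Fin m → Bool)) ^ Fintype.card (Fin (wnum t x.length))) := by
            refine mul_le_mul_of_nonneg_left (Finset.sum_le_sum fun i hi =>
              mul_le_mul_of_nonneg_left ?_ hΛ0) hK0
            refine ((S.alg (hist (lang t ω) i)).sum_abs_prob he hw o ω g hδ).trans ?_
            refine mul_le_mul_of_nonneg_right ?_ (by positivity)
            have h1 : ((S.alg (hist (lang t ω) i)).T : ℝ) ^ 2 ≤
                ((C : ℝ) * 2 ^ t x.length) ^ 2 :=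
              pow_le_pow_left₀ (Nat.cast_nonneg _)
                (hTi ω i (Nat.lt_succ_iff.1 (Finset.mem_range.1 hi))) 2
            have h2 : 4 * ((S.alg (hist (lang t ω) i)).T : ℝ) ^ 2 *
                wq (Fin m → Bool) / (1 / 16 : ℝ) ^ x.length ≤
                4 * ((C : ℝ) * 2 ^ t x.length) ^ 2 * wq (Fin m → Bool) /
                  (1 / 16 : ℝ) ^ x.length := by
              gcongr
            linarith
        _ = K * (((N : ℝ) + 1) * (Λ *
            ((1 / 16 : ℝ) ^ x.length + 4 * ((C : ℝ) * 2 ^ t x.length) ^ 2 *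
              wq (Fin m → Bool) / (1 / 16 : ℝ) ^ x.length))) *
              (1 + wq (Fin m → Bool)) ^ Fintype.card (Fin (wnum t x.length)) := by
            rw [Finset.sum_const, Finset.card_range, nsmul_eq_mul]
            push_cast
            ring
        _ ≤ K * (16 * Λ * (1 + 4 * (C : ℝ) ^ 2) / ((N : ℝ) + 1) ^ 3) *
              (1 + wq (Fin m → Bool)) ^ Fintype.card (Fin (wnum t x.length)) := by
            refine mul_le_mul_of_nonneg_right (mul_le_mul_of_nonneg_left ?_ hK0) (by positivity)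
            have := eps_le t C x hΛ0
            rw [hrk] at this
            exact this

theorem oracle_main (t : ℕ → ℕ) (ht : Monotone t) (𝓢 : Set (Strategy (List Bool)))
    (hc : 𝓢.Countable) (hT : ∀ S ∈ 𝓢, S.QueryBound t) :
    ∀ᵐ A ∂(coins (List Bool)), ∀ S ∈ 𝓢, ∃ C : ℝ, ∀ N, S.capital (ph A) (lang t A) N ≤ C := by
  rw [ae_ball_iff hc]
  exact fun S hS => oracle_single t ht S (hT S hS)

end Pool.Agent.H17.QM
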