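import Pool.Agent.H17.QM.Defs

/-!
# Planting witnesses in a witness-free table
-/

set_option autoImplicit false

namespace Pool.Agent.H17.QM

section Plant

variable {Y Z : Type*} [Fintype Y] [DecidableEq Y] [Fintype Z] [DecidableEq Z] (o : Z)

/-- Write `o` in the rows `W` of the table `g`. -/
def plant (g : Y → Z) (W : Finset Y) : Y → Z := fun y => if y ∈ W then o else g y

/-- The tables without an entry `o`. -/
def wf : Finset (Y → Z) := Finset.univ.filter fun g => ∀ y, g y ≠ o

lemma mem_wf {g : Y → Z} : g ∈ wf o ↔ ∀ y, g y ≠ o := by simp [wf]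

lemma plant_empty (g : Y → Z) : plant o g ∅ = g := by funext y; simp [plant]

lemma filter_plant {g : Y → Z} (hg : g ∈ wf o) (W : Finset Y) :
    (Finset.univ.filter fun y => plant o g W y = o) = W := by
  ext y
  have := (mem_wf o).1 hg y
  rw [Finset.mem_filter]
  simp only [plant, Finset.mem_univ, true_and]
  split_ifs with h <;> simp_all

lemma plant_mem_wf_iff {g : Y → Z} (hg : g ∈ wf o) (W : Finset Y) :
    plant o g W ∈ wf o ↔ W = ∅ := by
  constructor
  · intro h
    rw [← filter_plant o hg W]
    ext y
    simpa using (mem_wf o).1 h y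
  · rintro rfl
    rwa [plant_empty]

/-- The weight `1 / (|Z| - 1)`. -/
noncomputable def wq (Z : Type*) [Fintype Z] : ℝ := 1 / ((Fintype.card Z : ℝ) - 1)

lemma card_fiber (W : Finset Y) {g : Y → Z}
    (hgW : (Finset.univ.filter fun y => g y = o) = W) :
    ((wf o).filter fun g' => plant o g' W = g).card = (Fintype.card Z - 1) ^ W.card := by
  have e : ((wf o).filter fun g' => plant o g' W = g) =
      Fintype.piFinset fun y => if y ∈ W then Finset.univ.erase o else {g y} := by
    ext g'
    simp only [Finset.mem_filter, mem_wf, Fintype.mem_piFinset]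
    constructor
    · rintro ⟨h1, h2⟩ y
      split_ifs with h
      · simpa using h1 y
      · have := congrFun h2 y
        simp only [plant, h, if_false] at this
        simpa using this
    · intro h
      constructor
      · intro y
        have := h y
        split_ifs at this with hy
        · simpa using this
        · have h3 : g' y = g y := by simpa using this
          rw [h3]
          intro h4
          exact hy (by rw [← hgW]; simp [h4])
      · funext y
        have := h y
        simp only [plant]
        split_ifs at this ⊢ with hy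
        · have : y ∈ (Finset.univ.filter fun y => g y = o) := by rw [hgW]; exact hy
          have h5 : g y = o := by simpa using this
          exact h5.symm
        · simpa using this
  rw [e, Fintype.card_piFinset]
  have : ∀ y, (if y ∈ W then Finset.univ.erase o else {g y} : Finset Z).card =
      if y ∈ W then Fintype.card Z - 1 else 1 := by
    intro y
    split_ifs
    · rw [Finset.card_erase_of_mem (Finset.mem_univ _), Finset.card_univ]
    · simp
  simp only [this]
  rw [Finset.prod_ite_mem]
  simp

theorem sum_eq_plant (hK : 2 ≤ Fintype.card Z) (F : (Y → Z) → ℝ) :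
    ∑ g, F g = ∑ g ∈ wf o, ∑ W : Finset Y, wq Z ^ W.card * F (plant o g W) := by
  have hK' : ((Fintype.card Z : ℝ) - 1) ≠ 0 := by
    have : (2 : ℝ) ≤ Fintype.card Z := by exact_mod_cast hK
    intro h; linarith
  have hKc : ((Fintype.card Z - 1 : ℕ) : ℝ) = (Fintype.card Z : ℝ) - 1 := by
    rw [Nat.cast_sub (by omega)]; simp
  rw [Finset.sum_comm]
  rw [← Finset.sum_fiberwise (s := (Finset.univ : Finset (Y → Z)))
    (g := fun g => (Finset.univ.filter fun y => g y = o)) (f := F)]
  refine Finset.sum_congr rfl fun W _ => ?_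
  rw [← Finset.mul_sum]
  have h1 : ∑ g ∈ wf o, F (plant o g W) =
      ∑ g ∈ Finset.univ.filter (fun g : Y → Z => (Finset.univ.filter fun y => g y = o) = W),
        ((Fintype.card Z : ℝ) - 1) ^ W.card * F g := by
    rw [← Finset.sum_fiberwise_of_maps_to (s := wf o)
      (t := Finset.univ.filter (fun g : Y → Z => (Finset.univ.filter fun y => g y = o) = W))
      (g := fun g => plant o g W)]
    · refine Finset.sum_congr rfl fun g hg => ?_
      have hgW : (Finset.univ.filter fun y => g y = o) = W := by simpa using hg
      have h2 : ∑ g' ∈ (wf o).filter (fun g' => plant o g' W = g), F (plant o g' W) =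
          ∑ g' ∈ (wf o).filter (fun g' => plant o g' W = g), F g :=
        Finset.sum_congr rfl fun g' hg' => by rw [(Finset.mem_filter.1 hg').2]
      rw [h2, Finset.sum_const, card_fiber o W hgW, nsmul_eq_mul, Nat.cast_pow, hKc]
    · intro g hg
      simp only [Finset.mem_filter, Finset.mem_univ, true_and]
      exact filter_plant o hg W
  rw [h1, ← Finset.mul_sum, ← mul_assoc, wq, ← mul_pow, one_div_mul_cancel hK', one_pow, one_mul]

lemma sum_wq (Y : Type*) [Fintype Y] [DecidableEq Y] (w : ℝ) :
    ∑ W : Finset Y, w ^ W.card = (1 + w) ^ Fintype.card Y := by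
  have := Fintype.sum_pow_mul_eq_add_pow Y w 1
  simp only [one_pow, mul_one] at this
  rw [this, add_comm]

lemma sum_wq_mem {w : ℝ} (hw : 0 ≤ w) (y : Y) :
    ∑ W ∈ Finset.univ.filter (fun W : Finset Y => y ∈ W), w ^ W.card ≤
      w * (1 + w) ^ Fintype.card Y := by
  have h1 : ∑ W ∈ Finset.univ.filter (fun W : Finset Y => y ∈ W), w ^ W.card =
      ∑ W ∈ Finset.univ.filter (fun W : Finset Y => y ∉ W), w * w ^ W.card := by
    refine Finset.sum_nbij' (fun W => W.erase y) (fun W => insert y W) ?_ ?_ ?_ ?_ ?_
    · intro W _; simp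
    · intro W _; simp
    · intro W hW; exact Finset.insert_erase (by simpa using hW)
    · intro W hW; exact Finset.erase_insert (by simpa using hW)
    · intro W hW
      have h : y ∈ W := by simpa using hW
      rw [← pow_succ', Finset.card_erase_of_mem h]
      congr 1
      have := Finset.card_pos.2 ⟨y, h⟩
      omega
  rw [h1, ← Finset.mul_sum, ← sum_wq]
  refine mul_le_mul_of_nonneg_left ?_ hw
  exact Finset.sum_le_sum_of_subset_of_nonneg (Finset.filter_subset _ _)
    fun _ _ _ => by positivity

lemma wq_pos (hK : 2 ≤ Fintype.card Z) : 0 < wq Z := by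
  have : (2 : ℝ) ≤ Fintype.card Z := by exact_mod_cast hK
  exact one_div_pos.2 (by linarith)

/-- A bounded function that changes little when witnesses are planted is almost uncorrelated with
the existence of witnesses, if the latter has probability about one half. -/
theorem sum_signed (hK : 2 ≤ Fintype.card Z) (f : (Y → Z) → ℝ) {B κ : ℝ} (hf : ∀ g, |f g| ≤ B)
    (hvar : ∀ g ∈ wf o, ∑ W : Finset Y, wq Z ^ W.card * |f (plant o g W) - f g| ≤
      κ * (1 + wq Z) ^ Fintype.card Y) :
    |∑ g, f g * (if g ∈ wf o then -1 else 1)| ≤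
      (κ + B * |1 - 2 / (1 + wq Z) ^ Fintype.card Y|) * Fintype.card (Y → Z) := by
  set Zw : ℝ := (1 + wq Z) ^ Fintype.card Y with hZw
  have hw := wq_pos (Z := Z) hK
  have hZpos : 0 < Zw := by positivity
  have hcard : ∑ _g ∈ wf (Y := Y) o, Zw = (Fintype.card (Y → Z) : ℝ) := by
    have := sum_eq_plant (Y := Y) o hK (fun _ => (1 : ℝ))
    simp only [mul_one, sum_wq] at this
    rw [← this]
    simp
  have hne : ∀ h : Finset Y → ℝ, ∑ W : Finset Y, h W =
      h ∅ + ∑ W ∈ (Finset.univ : Finset (Finset Y)).erase ∅, h W := by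
    intro h
    rw [Finset.add_sum_erase _ _ (Finset.mem_univ _)]
  set sg : Finset Y → ℝ := fun W => if W = ∅ then -1 else 1 with hsg
  have hsg1 : ∀ W, |sg W| = 1 := by
    intro W; simp only [hsg]; split_ifs <;> simp
  have hsum : ∑ W : Finset Y, wq Z ^ W.card * sg W = Zw - 2 := by
    have h1 := hne fun W => wq Z ^ W.card
    rw [sum_wq] at h1
    have h2 := hne fun W => wq Z ^ W.card * sg W
    have h3 : ∑ W ∈ (Finset.univ : Finset (Finset Y)).erase ∅, wq Z ^ W.card * sg W =
        ∑ W ∈ (Finset.univ : Finset (Finset Y)).erase ∅, wq Z ^ W.card := by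
      refine Finset.sum_congr rfl fun W hW => ?_
      simp [hsg, Finset.ne_of_mem_erase hW]
    rw [h3] at h2
    simp only [Finset.card_empty, pow_zero, hsg, if_true] at h1 h2
    rw [h2]
    linarith
  rw [sum_eq_plant o hK]
  have hpt : ∀ g ∈ wf o, |∑ W : Finset Y, wq Z ^ W.card *
      (f (plant o g W) * (if plant o g W ∈ wf o then -1 else 1))| ≤
        (κ + B * |1 - 2 / Zw|) * Zw := by
    intro g hg
    have e1 : ∀ W : Finset Y, wq Z ^ W.card *
        (f (plant o g W) * (if plant o g W ∈ wf o then -1 else 1)) =
        wq Z ^ W.card * (f (plant o g W) - f g) * sg W + f g * (wq Z ^ W.card * sg W) := by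
      intro W
      have : (if plant o g W ∈ wf o then (-1 : ℝ) else 1) = sg W := by
        simp only [hsg, plant_mem_wf_iff o hg W]
      rw [this]; ring
    simp only [e1]
    rw [Finset.sum_add_distrib, ← Finset.mul_sum, hsum]
    have h1 : |∑ W : Finset Y, wq Z ^ W.card * (f (plant o g W) - f g) * sg W| ≤ κ * Zw := by
      refine (Finset.abs_sum_le_sum_abs _ _).trans (le_trans (le_of_eq ?_) (hvar g hg))
      refine Finset.sum_congr rfl fun W _ => ?_
      rw [abs_mul, abs_mul, hsg1, mul_one, abs_of_pos (by positivity)]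
    have h2 : |f g * (Zw - 2)| ≤ B * |1 - 2 / Zw| * Zw := by
      rw [abs_mul]
      have e : |Zw - 2| = |1 - 2 / Zw| * Zw := by
        rw [← abs_of_pos hZpos, ← abs_mul, abs_of_pos hZpos]
        congr 1
        field_simp
      rw [e, ← mul_assoc]
      gcongr
      exact hf g
    calc |_ + f g * (Zw - 2)| ≤ _ := abs_add_le _ _
      _ ≤ κ * Zw + B * |1 - 2 / Zw| * Zw := add_le_add h1 h2
      _ = _ := by ring
  refine (Finset.abs_sum_le_sum_abs _ _).trans ((Finset.sum_le_sum hpt).trans (le_of_eq ?_))
  rw [← hcard, Finset.mul_sum]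

end Plant

end Pool.Agent.H17.QM
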