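import Pool.Agent.H17.QM.Cor

/-!
# Relative to a random oracle, NP is not small for quantum betting strategies

All definitions are in `Pool/Agent/H17/QM/Defs.lean`.
-/

set_option autoImplicit false

namespace Pool.Agent.Results.MP_0f8dca_lc.RandomOracleMeasure

open MeasureTheory Pool.Agent.H17.QM

/-- Let `t` be nondecreasing. With probability one over the random oracle `A`, no strategy of a
countable family of quantum betting strategies, each making at most `C * 2 ^ t n` queries when it
bets on a string of length `n`, succeeds on the language `lang t A`: its capital stays bounded.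
For `t n = n ^ k` the language `lang t A` is in `NP^A`. -/
theorem result (t : ℕ → ℕ) (ht : Monotone t) (𝓢 : Set (Strategy (List Bool)))
    (hc : 𝓢.Countable) (hT : ∀ S ∈ 𝓢, S.QueryBound t) :
    ∀ᵐ A ∂(coins (List Bool)), ∀ S ∈ 𝓢, ∃ C : ℝ, ∀ N, S.capital (ph A) (lang t A) N ≤ C :=
  oracle_main t ht 𝓢 hc hT

/-- A corollary of the betting theorem (proved from it in `Pool/Agent/H17/QM/Cor.lean`): the
language is bi-immune for quantum machines, in a strong form. -/
theorem biimmune (t : ℕ → ℕ) (ht : Monotone t) (𝓜 : Set (List Bool → QAlg (List Bool)))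
    (hc : 𝓜.Countable) (hT : ∀ M ∈ 𝓜, ∃ C : ℕ, ∀ x, (M x).T ≤ C * 2 ^ t x.length) :
    ∀ᵐ A ∂(coins (List Bool)), ∀ M ∈ 𝓜, ∀ α β : ℝ, β < α →
      {x | α ≤ (M x).prob (ph A)}.Infinite →
        {x | x ∈ lang t A ∧ β < (M x).prob (ph A)}.Infinite ∧
        {x | x ∉ lang t A ∧ β < (M x).prob (ph A)}.Infinite :=
  oracle_biimmune t ht 𝓜 hc hT

end Pool.Agent.Results.MP_0f8dca_lc.RandomOracleMeasure
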