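import Pool.Agent.H17.QM.Cor

/-!
# Relative to a random permutation, UP ∩ coUP is not small for quantum betting strategies

All definitions are in `Pool/Agent/H17/QM/Defs.lean`.
-/

set_option autoImplicit false

namespace Pool.Agent.H17.QM.RandomPermutationMeasure

open MeasureTheory Pool.Agent.H17.QM

/-- Let `t` be nondecreasing. With probability one over the random permutation oracle `A`, no
strategy of a countable family of quantum betting strategies, each making at most `C * 2 ^ t n`
queries when it bets on a string of length `n`, succeeds on the language `plang t A`: its capital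
stays bounded. For `t n = n ^ k` the language `plang t A` is in `UP ∩ coUP` relative to `A`. -/
theorem result (t : ℕ → ℕ) (ht : Monotone t) (𝓢 : Set (Strategy (PQuery t)))
    (hc : 𝓢.Countable) (hT : ∀ S ∈ 𝓢, S.QueryBound t) :
    ∀ᵐ A ∂(permOracle t), ∀ S ∈ 𝓢, ∃ C : ℝ, ∀ N, S.capital (php A) (plang t A) N ≤ C :=
  perm_main t ht 𝓢 hc hT

/-- A corollary of the betting theorem (proved from it in `Pool/Agent/H17/QM/Cor.lean`): the
language is bi-immune for quantum machines, in a strong form. -/
theorem biimmune (t : ℕ → ℕ) (ht : Monotone t) (𝓜 : Set (List Bool → QAlg (PQuery t)))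
    (hc : 𝓜.Countable) (hT : ∀ M ∈ 𝓜, ∃ C : ℕ, ∀ x, (M x).T ≤ C * 2 ^ t x.length) :
    ∀ᵐ A ∂(permOracle t), ∀ M ∈ 𝓜, ∀ α β : ℝ, β < α →
      {x | α ≤ (M x).prob (php A)}.Infinite →
        {x | x ∈ plang t A ∧ β < (M x).prob (php A)}.Infinite ∧
        {x | x ∉ plang t A ∧ β < (M x).prob (php A)}.Infinite :=
  perm_biimmune t ht 𝓜 hc hT

end Pool.Agent.H17.QM.RandomPermutationMeasure
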